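import Mathlib
import Pool.Agent.W5h22.RB.L4
import Pool.Agent.H373R2.NB.Restr

set_option autoImplicit false

/-! Products over the prime divisors of the modulus, sums over lists. -/

namespace Pool.Agent.W5h22.GS
open Finset
open Pool.Agent.W5h22.RB (E E_mono E_mul E_const E_sum E_prod E_nonneg tot_pos n_pos)

/-- sums over the lists of length `k` -/
noncomputable def LS {α : Type*} [Fintype α] : ℕ → (List α → ℝ) → ℝ
  | 0, F => F []
  | (k + 1), F => ∑ a, LS k (fun l => F (a :: l))

section LS
variable {α : Type*} [Fintype α]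

lemma LS_mono : ∀ (k : ℕ) (F G : List α → ℝ), (∀ l, l.length = k → F l ≤ G l) → LS k F ≤ LS k G
  | 0, F, G, h => h [] rfl
  | (k + 1), F, G, h => sum_le_sum fun a _ => LS_mono k _ _ fun l hl => h (a :: l) (by simp [hl])

lemma LS_sum {ι : Type*} (s : Finset ι) : ∀ (k : ℕ) (F : ι → List α → ℝ), ∑ i ∈ s, LS k (F i) = LS k (fun l => ∑ i ∈ s, F i l)
  | 0, F => rfl
  | (k + 1), F => by
      simp only [LS]
      rw [sum_comm]
      apply sum_congr rfl
      intro a _
      exact LS_sum s k fun i l => F i (a :: l)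

lemma LS_mul (c : ℝ) : ∀ (k : ℕ) (F : List α → ℝ), LS k (fun l => c * F l) = c * LS k F
  | 0, F => rfl
  | (k + 1), F => by
      simp only [LS]
      rw [mul_sum]
      apply sum_congr rfl
      intro a _
      exact LS_mul c k fun l => F (a :: l)

lemma LS_pow (g : α → ℝ) : ∀ k : ℕ, (∑ a, g a) ^ k = LS k (fun l => (l.map g).prod)
  | 0 => by simp [LS]
  | (k + 1) => by
      simp only [LS, List.map_cons, List.prod_cons]
      rw [pow_succ', sum_mul]
      apply sum_congr rfl
      intro a _
      rw [LS_mul, LS_pow g k]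

/-- a product structure with bounded factors -/
lemma LS_bound (w : List α → ℝ) (v : α → List α → ℝ) (B : ℝ) (hB : 0 ≤ B) (hw0 : ∀ l, 0 ≤ w l) (hw1 : w [] ≤ 1) : ∀ (k : ℕ),
    (∀ l, l.length < k → ∀ a, w (a :: l) = v a l * w l) → (∀ l, l.length < k → ∑ a, v a l ≤ B) → LS k w ≤ B ^ k
  | 0, _, _ => by simpa [LS] using hw1
  | (k + 1), h1, h2 => by
      simp only [LS]
      rw [LS_sum]
      have h3 : LS k (fun l => ∑ a, w (a :: l)) ≤ LS k (fun l => B * w l) := by
        apply LS_mono
        intro l hl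
        have h4 : ∑ a, w (a :: l) = (∑ a, v a l) * w l := by
          rw [sum_mul]
          apply sum_congr rfl
          intro a _
          exact h1 l (by omega) a
        rw [h4]
        exact mul_le_mul_of_nonneg_right (h2 l (by omega)) (hw0 l)
      refine h3.trans ?_
      rw [LS_mul, pow_succ']
      exact mul_le_mul_of_nonneg_left (LS_bound w v B hB hw0 hw1 k (fun l hl => h1 l (by omega)) (fun l hl => h2 l (by omega))) hB

end LS

/-- the average over the residues modulo a multiple -/
lemma E_cast {l k : ℕ} [NeZero (l ^ k)] (hl : l.Prime) (hk : 1 ≤ k) (h : ZMod l → ℝ) [NeZero l] :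
    E (fun t : ZMod (l ^ k) => h (t.cast : ZMod l)) = E h := by
  have hd : l ∣ l ^ k := dvd_pow_self l (by omega)
  set φ := ZMod.castHom hd (ZMod l) with hφ
  have hsurj : Function.Surjective φ := ZMod.castHom_surjective hd
  have hfib : ∀ x : ZMod l, #(univ.filter (fun t : ZMod (l ^ k) => φ t = x)) = #(univ.filter (fun t : ZMod (l ^ k) => φ t = 0)) := by
    intro x
    obtain ⟨t₀, ht₀⟩ := hsurj x
    apply card_bij' (fun t _ => t - t₀) (fun t _ => t + t₀)
    · intro t ht
      rw [mem_filter] at ht ⊢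
      exact ⟨mem_univ _, by rw [map_sub, ht.2, ht₀, sub_self]⟩
    · intro t ht
      rw [mem_filter] at ht ⊢
      exact ⟨mem_univ _, by rw [map_add, ht.2, ht₀, zero_add]⟩
    · intro t _; simp
    · intro t _; simp
  set c := #(univ.filter (fun t : ZMod (l ^ k) => φ t = 0)) with hc
  have hsum : ∀ g : ZMod l → ℝ, ∑ t : ZMod (l ^ k), g (φ t) = c * ∑ x, g x := by
    intro g
    rw [← sum_fiberwise_of_maps_to (s := univ) (t := univ) (g := fun t : ZMod (l ^ k) => φ t) (fun _ _ => mem_univ _), mul_sum]
    apply sum_congr rfl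
    intro x _
    rw [sum_congr rfl (g := fun _ => g x) (fun t ht => by rw [(mem_filter.1 ht).2]), sum_const, hfib x, nsmul_eq_mul]
  have h1 := hsum (fun _ => 1)
  simp only [sum_const, card_univ, ZMod.card, nsmul_eq_mul, mul_one] at h1
  have h2 := hsum h
  unfold E
  have hl0 : (0 : ℝ) < l := by exact_mod_cast hl.pos
  have hlk0 : (0 : ℝ) < ((l ^ k : ℕ) : ℝ) := n_pos
  have h3 : ∑ t : ZMod (l ^ k), h (t.cast : ZMod l) = c * ∑ x, h x := h2
  rw [h3, h1]
  have hc0 : (c : ℝ) ≠ 0 := by
    intro h0
    rw [h0, zero_mul] at h1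
    exact hlk0.ne' h1
  field_simp

/-- expectations of products over the prime divisors -/
theorem E_primes (n : ℕ) : ∀ (_ : NeZero n) (h : (l : ℕ) → ZMod l → ℝ), 
    E (fun t : ZMod n => ∏ l ∈ n.primeFactors, h l (t.cast : ZMod l)) = 
      ∏ l ∈ n.primeFactors, ((∑ x ∈ range l, h l (x : ZMod l)) / l) := by
  induction n using Nat.recOnPrimeCoprime with
  | zero => intro hn; exact absurd rfl hn.out
  | prime_pow p k hp =>
    intro hn h
    rcases Nat.eq_zero_or_pos k with rfl | hk
    · simp only [pow_zero, Nat.primeFactors_one, prod_empty]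
      exact E_const 1
    · rw [Nat.primeFactors_prime_pow (by omega) hp, prod_singleton]
      simp only [prod_singleton]
      have : NeZero p := ⟨hp.ne_zero⟩
      rw [E_cast hp hk (h p)]
      unfold E
      congr 1
      have h1 : ∑ x ∈ range p, h p (x : ZMod p) = ∑ x : ZMod p, h p ((x.val : ℕ) : ZMod p) :=
        (Pool.Agent.H373R2.NB.sum_val (fun x : ℕ => h p (x : ZMod p))).symm
      rw [h1]
      apply sum_congr rfl
      intro x _
      rw [ZMod.natCast_zmod_val]
  | coprime a b ha hb hab iha ihb =>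
    intro hn h
    have ha' : NeZero a := ⟨by omega⟩
    have hb' : NeZero b := ⟨by omega⟩
    rw [E_prod hab]
    rw [Nat.Coprime.primeFactors_mul hab, prod_union (Nat.Coprime.disjoint_primeFactors hab)]
    have key : ∀ t₁ : ZMod a, ∀ t₂ : ZMod b,
        ∏ l ∈ a.primeFactors ∪ b.primeFactors, h l (((ZMod.chineseRemainder hab).symm (t₁, t₂)).cast : ZMod l) =
        (∏ l ∈ a.primeFactors, h l (t₁.cast : ZMod l)) * ∏ l ∈ b.primeFactors, h l (t₂.cast : ZMod l) := by
      intro t₁ t₂
      rw [prod_union (Nat.Coprime.disjoint_primeFactors hab)]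
      set e := (ZMod.chineseRemainder hab).symm (t₁, t₂) with he
      have hea : (e.cast : ZMod a) = t₁ := by
        have h1 : (ZMod.chineseRemainder hab) e = (t₁, t₂) := by rw [he, RingEquiv.apply_symm_apply]
        have h2 : (ZMod.castHom (show a ∣ a * b from dvd_mul_right a b) (ZMod a)) e = t₁ := by
          have h3 : ((ZMod.chineseRemainder hab) e).1 = t₁ := congrArg Prod.fst h1
          rw [← h3]
          have h4 : ∀ x : ZMod (a * b), (ZMod.castHom (show a ∣ a * b from dvd_mul_right a b) (ZMod a)) x = ((ZMod.chineseRemainder hab) x).1 := by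
            intro x
            have : (ZMod.castHom (show a ∣ a * b from dvd_mul_right a b) (ZMod a)) = (RingHom.fst (ZMod a) (ZMod b)).comp (ZMod.chineseRemainder hab : ZMod (a * b) →+* ZMod a × ZMod b) := Subsingleton.elim _ _
            rw [this]; rfl
          exact h4 e
        exact h2
      have heb : (e.cast : ZMod b) = t₂ := by
        have h1 : (ZMod.chineseRemainder hab) e = (t₁, t₂) := by rw [he, RingEquiv.apply_symm_apply]
        have h2 : (ZMod.castHom (show b ∣ a * b from dvd_mul_left b a) (ZMod b)) e = t₂ := by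
          have h3 : ((ZMod.chineseRemainder hab) e).2 = t₂ := congrArg Prod.snd h1
          rw [← h3]
          have h4 : ∀ x : ZMod (a * b), (ZMod.castHom (show b ∣ a * b from dvd_mul_left b a) (ZMod b)) x = ((ZMod.chineseRemainder hab) x).2 := by
            intro x
            have : (ZMod.castHom (show b ∣ a * b from dvd_mul_left b a) (ZMod b)) = (RingHom.snd (ZMod a) (ZMod b)).comp (ZMod.chineseRemainder hab : ZMod (a * b) →+* ZMod a × ZMod b) := Subsingleton.elim _ _
            rw [this]; rfl
          exact h4 e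
        exact h2
      congr 1
      · apply prod_congr rfl
        intro l hl
        have hla := Nat.dvd_of_mem_primeFactors hl
        congr 1
        rw [← hea]
        have h5 : (ZMod.castHom (hla.trans (dvd_mul_right a b)) (ZMod l)) = (ZMod.castHom hla (ZMod l)).comp (ZMod.castHom (dvd_mul_right a b) (ZMod a)) := Subsingleton.elim _ _
        exact congrArg (fun f => f e) h5
      · apply prod_congr rfl
        intro l hl
        have hlb := Nat.dvd_of_mem_primeFactors hl
        congr 1
        rw [← heb]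
        have h5 : (ZMod.castHom (hlb.trans (dvd_mul_left b a)) (ZMod l)) = (ZMod.castHom hlb (ZMod l)).comp (ZMod.castHom (dvd_mul_left b a) (ZMod b)) := Subsingleton.elim _ _
        exact congrArg (fun f => f e) h5
    simp_rw [key]
    simp_rw [E_mul]
    have h6 : (fun t₁ : ZMod a => (∏ l ∈ a.primeFactors, h l (t₁.cast : ZMod l)) * E (fun t₂ : ZMod b => ∏ l ∈ b.primeFactors, h l (t₂.cast : ZMod l))) =
      fun t₁ : ZMod a => E (fun t₂ : ZMod b => ∏ l ∈ b.primeFactors, h l (t₂.cast : ZMod l)) * (∏ l ∈ a.primeFactors, h l (t₁.cast : ZMod l)) := by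
      funext t₁; ring
    rw [h6, E_mul, iha ha' h, ihb hb' h]
    ring

lemma unit_iff {n : ℕ} [NeZero n] (t : ZMod n) : IsUnit t ↔ ∀ l ∈ n.primeFactors, (t.cast : ZMod l) ≠ 0 := by
  have h0 : t = ((t.val : ℕ) : ZMod n) := (ZMod.natCast_zmod_val t).symm
  have h1 : IsUnit t ↔ t.val.Coprime n := by
    conv_lhs => rw [h0]
    exact ZMod.isUnit_iff_coprime _ _
  rw [h1]
  constructor
  · intro h l hl h2
    have hlp := Nat.prime_of_mem_primeFactors hl
    have hln := Nat.dvd_of_mem_primeFactors hl
    have h3 : (t.cast : ZMod l) = ((t.val : ℕ) : ZMod l) := (ZMod.natCast_val t).symm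
    rw [h3, ZMod.natCast_eq_zero_iff] at h2
    exact hlp.one_lt.ne' (Nat.eq_one_of_dvd_coprimes h h2 hln)
  · intro h
    by_contra h2
    obtain ⟨q, hq, hq1, hq2⟩ := Nat.Prime.not_coprime_iff_dvd.1 h2
    refine h q (Nat.mem_primeFactors.2 ⟨hq, hq2, NeZero.ne n⟩) ?_
    have h3 : (t.cast : ZMod q) = ((t.val : ℕ) : ZMod q) := (ZMod.natCast_val t).symm
    rw [h3, ZMod.natCast_eq_zero_iff]
    exact hq1

end Pool.Agent.W5h22.GS
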