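import Mathlib
import Pool.Agent.W5h22.GS.A

set_option autoImplicit false

/-! High moments of the local densities of a sparse set of reduced residues. -/

namespace Pool.Agent.W5h22.GS
open Finset
open Pool.Agent.W5h22.RB (E E_mono E_mul E_const E_sum E_prod E_nonneg tot_pos n_pos)

/-- the normalised number of representations of the class `t` -/
noncomputable def Top {n : ℕ} [NeZero n] (d : ZMod n → ℝ) (t : ZMod n) : ℝ :=
  (n : ℝ) / (n.totient : ℝ) ^ 2 * ∑ s, d s * (if IsUnit (t - s) then 1 else 0)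

/-- the classes modulo `q` of the members of the list -/
def im (q : ℕ) {n : ℕ} (l : List (ZMod n)) : Finset (ZMod q) := (l.map (fun s => (s.cast : ZMod q))).toFinset

lemma mem_im (q : ℕ) {n : ℕ} (l : List (ZMod n)) (x : ZMod q) : x ∈ im q l ↔ ∃ s ∈ l, (s.cast : ZMod q) = x := by
  unfold im
  rw [List.mem_toFinset, List.mem_map]

lemma card_im (q : ℕ) {n : ℕ} (l : List (ZMod n)) : #(im q l) ≤ l.length := by
  unfold im
  refine (List.toFinset_card_le _).trans ?_
  simp

lemma im_cons (q : ℕ) {n : ℕ} (s : ZMod n) (l : List (ZMod n)) : im q (s :: l) = insert (s.cast : ZMod q) (im q l) := by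
  unfold im
  rw [List.map_cons, List.toFinset_cons]

/-- the large primes -/
def big (n N : ℕ) : Finset ℕ := n.primeFactors.filter (fun q => N < q)

/-- the weight of the coincidences -/
noncomputable def SS {n : ℕ} (N : ℕ) (s : ZMod n) (l : List (ZMod n)) : ℝ :=
  ∑ q ∈ big n N, if (s.cast : ZMod q) ∈ im q l then 1 / (q : ℝ) else 0

noncomputable def wt {n : ℕ} (N : ℕ) : List (ZMod n) → ℝ
  | [] => 1
  | (s :: l) => Real.exp (SS N s l) * wt N l

lemma wt_eq {n : ℕ} (N : ℕ) : ∀ l : List (ZMod n), wt N l = Real.exp (∑ q ∈ big n N, ((l.length : ℝ) - #(im q l)) / q)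
  | [] => by simp [wt, im]
  | (s :: l) => by
      rw [wt, wt_eq N l, ← Real.exp_add]
      congr 1
      unfold SS
      rw [← sum_add_distrib]
      apply sum_congr rfl
      intro q _
      rw [im_cons, List.length_cons]
      by_cases h : (s.cast : ZMod q) ∈ im q l
      · rw [if_pos h, insert_eq_of_mem h]
        push_cast
        ring
      · rw [if_neg h, card_insert_of_notMem h]
        push_cast
        ring

lemma SS_nonneg {n : ℕ} (N : ℕ) (s : ZMod n) (l : List (ZMod n)) : 0 ≤ SS N s l := by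
  unfold SS
  apply sum_nonneg
  intro q _
  split_ifs <;> positivity

lemma wt_nonneg {n : ℕ} (N : ℕ) (l : List (ZMod n)) : 0 ≤ wt N l := by
  rw [wt_eq]; exact (Real.exp_pos _).le

/-- tails of the sum of `1 / (q (q - 1))` -/
lemma tail_sum (S : Finset ℕ) (N : ℕ) (hN : 1 ≤ N) (hS : ∀ q ∈ S, N < q) : ∑ q ∈ S, 1 / ((q : ℝ) * (q - 1)) ≤ 1 / N := by
  obtain ⟨M, hM⟩ : ∃ M, ∀ q ∈ S, q < M := ⟨S.sup id + 1, fun q hq => Nat.lt_succ_of_le (le_sup (f := id) hq)⟩
  have h1 : ∀ M : ℕ, N < M → ∑ q ∈ Ico (N + 1) M, 1 / ((q : ℝ) * (q - 1)) = 1 / N - 1 / ((M : ℝ) - 1) := by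
    intro M hM
    induction M, hM using Nat.le_induction with
    | base => simp
    | succ M hM ih =>
      rw [sum_Ico_succ_top hM, ih]
      have : (M : ℝ) ≠ 0 := by exact_mod_cast (by omega : M ≠ 0)
      have h2 : (M : ℝ) - 1 ≠ 0 := by
        have : (2 : ℝ) ≤ M := by exact_mod_cast (by omega : 2 ≤ M)
        linarith
      have h3 : ((M + 1 : ℕ) : ℝ) - 1 = M := by push_cast; ring
      rw [h3]
      have hN0 : (N : ℝ) ≠ 0 := by exact_mod_cast (by omega : N ≠ 0)
      field_simp
      ring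
  have h0 : ∀ q ∈ Ico (N + 1) (max M (N + 1)), 0 ≤ 1 / ((q : ℝ) * (q - 1)) := by
    intro q hq
    rw [mem_Ico] at hq
    have : (1 : ℝ) ≤ q := by exact_mod_cast (by omega : 1 ≤ q)
    have : 0 ≤ (q : ℝ) - 1 := by linarith
    positivity
  calc ∑ q ∈ S, 1 / ((q : ℝ) * (q - 1)) ≤ ∑ q ∈ Ico (N + 1) (max M (N + 1)), 1 / ((q : ℝ) * (q - 1)) := by
        apply sum_le_sum_of_subset_of_nonneg
        · intro q hq
          have := hS q hq
          have := hM q hq
          rw [mem_Ico]
          omega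
        · intro q hq _
          exact h0 q hq
    _ ≤ 1 / N := by
        rw [h1 _ (by omega)]
        have : (1 : ℝ) ≤ (max M (N + 1) : ℕ) := by exact_mod_cast (by omega : 1 ≤ max M (N + 1))
        have : 0 ≤ 1 / (((max M (N + 1) : ℕ) : ℝ) - 1) := div_nonneg zero_le_one (by linarith)
        linarith

lemma prod_unit {n : ℕ} [NeZero n] (t : ZMod n) (l : List (ZMod n)) :
    (l.map (fun s => (if IsUnit (t - s) then 1 else 0 : ℝ))).prod =
      ∏ q ∈ n.primeFactors, if (t.cast : ZMod q) ∈ im q l then 0 else 1 := by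
  have hsub : ∀ q ∈ n.primeFactors, ∀ s : ZMod n, ((t - s).cast : ZMod q) = (t.cast : ZMod q) - (s.cast : ZMod q) := by
    intro q hq s
    exact map_sub (ZMod.castHom (Nat.dvd_of_mem_primeFactors hq) (ZMod q)) t s
  by_cases h : ∀ s ∈ l, IsUnit (t - s)
  · rw [prod_eq_one, List.prod_eq_one]
    · intro x hx
      rw [List.mem_map] at hx
      obtain ⟨s, hs, rfl⟩ := hx
      rw [if_pos (h s hs)]
    · intro q hq
      rw [if_neg]
      rw [mem_im]
      rintro ⟨s, hs, h2⟩
      have h3 := (unit_iff (t - s)).1 (h s hs) q hq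
      rw [hsub q hq s, h2, sub_self] at h3
      exact h3 rfl
  · push Not at h
    obtain ⟨s, hs, h1⟩ := h
    rw [unit_iff] at h1
    push Not at h1
    obtain ⟨q, hq, h2⟩ := h1
    rw [hsub q hq s, sub_eq_zero] at h2
    rw [prod_eq_zero hq (by rw [if_pos]; rw [mem_im]; exact ⟨s, hs, h2.symm⟩)]
    apply List.prod_eq_zero
    rw [List.mem_map]
    refine ⟨s, hs, if_neg ?_⟩
    rw [unit_iff]
    push Not
    exact ⟨q, hq, by rw [hsub q hq s, h2, sub_self]⟩

lemma sum_range_zmod (q : ℕ) [NeZero q] (h : ZMod q → ℝ) : ∑ x ∈ range q, h (x : ZMod q) = ∑ x : ZMod q, h x := by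
  have h1 := Pool.Agent.H373R2.NB.sum_val (M := q) (fun x : ℕ => h (x : ZMod q))
  rw [← h1]
  apply sum_congr rfl
  intro x _
  rw [ZMod.natCast_zmod_val]

lemma E_unit {n : ℕ} [NeZero n] (l : List (ZMod n)) :
    E (fun t : ZMod n => (l.map (fun s => (if IsUnit (t - s) then 1 else 0 : ℝ))).prod) = ∏ q ∈ n.primeFactors, (1 - (#(im q l) : ℝ) / q) := by
  simp_rw [prod_unit]
  have h1 := E_primes n inferInstance (fun q x => if x ∈ im q l then 0 else 1)
  rw [h1]
  apply prod_congr rfl
  intro q hq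
  have hqp := Nat.prime_of_mem_primeFactors hq
  have : NeZero q := ⟨hqp.ne_zero⟩
  have hq0 : (q : ℝ) ≠ 0 := by exact_mod_cast hqp.ne_zero
  rw [sum_range_zmod q (fun x => if x ∈ im q l then (0 : ℝ) else 1)]
  have h2 : ∑ x : ZMod q, (if x ∈ im q l then (0 : ℝ) else 1) = q - #(im q l) := by
    have h3 : ∑ x : ZMod q, (if x ∈ im q l then (1 : ℝ) else 0) = #(im q l) := by
      rw [← sum_filter, sum_const, nsmul_eq_mul, mul_one, filter_mem_eq_inter, univ_inter]
    have h4 : ∀ x : ZMod q, (if x ∈ im q l then (0 : ℝ) else 1) = 1 - if x ∈ im q l then (1 : ℝ) else 0 := by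
      intro x; split_ifs <;> ring
    simp_rw [h4]
    rw [sum_sub_distrib, h3, sum_const, card_univ, ZMod.card, nsmul_eq_mul, mul_one]
  rw [h2]
  field_simp

/-- the product of `q / (q - 1)` over the small prime divisors -/
noncomputable def PN (n N : ℕ) : ℝ := ∏ q ∈ n.primeFactors.filter (fun q => ¬ N < q), (q : ℝ) / (q - 1)

lemma tot_eq (n : ℕ) [NeZero n] : (n : ℝ) / n.totient = ∏ q ∈ n.primeFactors, (q : ℝ) / (q - 1) := by
  have h1 : (n.totient : ℚ) = n * ∏ q ∈ n.primeFactors, (1 - (q : ℚ)⁻¹) := Nat.totient_eq_mul_prod_factors n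
  have h2 : (n.totient : ℝ) = n * ∏ q ∈ n.primeFactors, (1 - (q : ℝ)⁻¹) := by
    have h3 := congrArg (fun x : ℚ => (x : ℝ)) h1
    push_cast at h3
    exact h3
  have hn : (n : ℝ) ≠ 0 := by exact_mod_cast NeZero.ne n
  have h3 : ∏ q ∈ n.primeFactors, (q : ℝ) / (q - 1) = (∏ q ∈ n.primeFactors, (1 - (q : ℝ)⁻¹))⁻¹ := by
    rw [← prod_inv_distrib]
    apply prod_congr rfl
    intro q hq
    have hqp := Nat.prime_of_mem_primeFactors hq
    have h4 : (2 : ℝ) ≤ q := by exact_mod_cast hqp.two_le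
    have h5 : (q : ℝ) ≠ 0 := by linarith
    have h6 : (q : ℝ) - 1 ≠ 0 := by linarith
    have h7 : 1 - (q : ℝ)⁻¹ = (q - 1) / q := by field_simp
    rw [h7, inv_div]
  rw [h3, h2]
  rw [div_mul_eq_div_div, div_self hn, one_div]

lemma tot_prod (n : ℕ) [NeZero n] : (n : ℝ) * ∏ q ∈ n.primeFactors, (1 - 1 / (q : ℝ)) = n.totient := by
  have h1 : (n.totient : ℚ) = n * ∏ q ∈ n.primeFactors, (1 - (q : ℚ)⁻¹) := Nat.totient_eq_mul_prod_factors n
  have h2 : (n.totient : ℝ) = n * ∏ q ∈ n.primeFactors, (1 - (q : ℝ)⁻¹) := by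
    have h3 := congrArg (fun x : ℚ => (x : ℝ)) h1
    push_cast at h3
    exact h3
  rw [h2]
  simp_rw [one_div]

lemma PN_nonneg (n N : ℕ) : 0 ≤ PN n N := by
  unfold PN
  apply prod_nonneg
  intro q hq
  rw [mem_filter] at hq
  have hqp := Nat.prime_of_mem_primeFactors hq.1
  have h4 : (2 : ℝ) ≤ q := by exact_mod_cast hqp.two_le
  have : 0 ≤ (q : ℝ) - 1 := by linarith
  positivity

/-- the local densities of a list, compared with the weight of the coincidences -/
lemma dens_le {n : ℕ} [NeZero n] (N : ℕ) (hN : 1 ≤ N) (l : List (ZMod n)) (hl : l.length = N) :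
    ((n : ℝ) / n.totient) ^ N * ∏ q ∈ n.primeFactors, (1 - (#(im q l) : ℝ) / q) ≤ PN n N ^ N * Real.exp 1 * wt N l := by
  rw [tot_eq, ← prod_pow, ← prod_mul_distrib, ← prod_filter_mul_prod_filter_not n.primeFactors (fun q => N < q), mul_comm]
  have hN0 : (0 : ℝ) < N := by exact_mod_cast hN
  have hpos : ∀ q ∈ n.primeFactors, 0 ≤ 1 - (#(im q l) : ℝ) / q := by
    intro q hq
    have hqp := Nat.prime_of_mem_primeFactors hq
    have : NeZero q := ⟨hqp.ne_zero⟩
    have hq0 : (0 : ℝ) < q := by exact_mod_cast hqp.pos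
    have h1 : #(im q l) ≤ q := by
      calc #(im q l) ≤ #(univ : Finset (ZMod q)) := card_le_card (subset_univ _)
        _ = q := by rw [card_univ, ZMod.card]
    have h2 : (#(im q l) : ℝ) / q ≤ 1 := by
      rw [div_le_one hq0]; exact_mod_cast h1
    linarith
  have hfac : ∀ q ∈ n.primeFactors, 0 ≤ (q : ℝ) / (q - 1) := by
    intro q hq
    have hqp := Nat.prime_of_mem_primeFactors hq
    have h4 : (2 : ℝ) ≤ q := by exact_mod_cast hqp.two_le
    have : 0 ≤ (q : ℝ) - 1 := by linarith
    positivity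
  have h1 : ∏ q ∈ n.primeFactors with ¬N < q, ((q : ℝ) / (q - 1)) ^ N * (1 - (#(im q l) : ℝ) / q) ≤ PN n N ^ N := by
    unfold PN
    rw [← prod_pow]
    apply prod_le_prod
    · intro q hq
      rw [mem_filter] at hq
      exact mul_nonneg (pow_nonneg (hfac q hq.1) _) (hpos q hq.1)
    · intro q hq
      rw [mem_filter] at hq
      have h2 : (0 : ℝ) ≤ (#(im q l) : ℝ) / q := by positivity
      calc ((q : ℝ) / (q - 1)) ^ N * (1 - (#(im q l) : ℝ) / q) ≤ ((q : ℝ) / (q - 1)) ^ N * 1 := by
            apply mul_le_mul_of_nonneg_left _ (pow_nonneg (hfac q hq.1) _)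
            linarith
        _ = _ := mul_one _
  have h2 : ∏ q ∈ n.primeFactors with N < q, ((q : ℝ) / (q - 1)) ^ N * (1 - (#(im q l) : ℝ) / q) ≤ Real.exp 1 * wt N l := by
    have h3 : ∀ q ∈ n.primeFactors.filter (fun q => N < q), ((q : ℝ) / (q - 1)) ^ N * (1 - (#(im q l) : ℝ) / q) ≤
        Real.exp (N * (1 / ((q : ℝ) * (q - 1))) + ((l.length : ℝ) - #(im q l)) / q) := by
      intro q hq
      rw [mem_filter] at hq
      have hqp := Nat.prime_of_mem_primeFactors hq.1
      have h4 : (2 : ℝ) ≤ q := by exact_mod_cast hqp.two_le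
      have h5 : 0 < (q : ℝ) - 1 := by linarith
      have h6 : ((q : ℝ) / (q - 1)) ^ N ≤ Real.exp (N * (1 / (q - 1))) := by
        rw [Real.exp_nat_mul]
        apply pow_le_pow_left₀ (hfac q hq.1)
        have h7 := Real.add_one_le_exp (1 / ((q : ℝ) - 1))
        have h8 : (q : ℝ) / (q - 1) = 1 / (q - 1) + 1 := by field_simp; ring
        rw [h8]; exact h7
      have h7 : 1 - (#(im q l) : ℝ) / q ≤ Real.exp (-((#(im q l) : ℝ) / q)) := by
        have := Real.add_one_le_exp (-((#(im q l) : ℝ) / q))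
        linarith
      calc ((q : ℝ) / (q - 1)) ^ N * (1 - (#(im q l) : ℝ) / q) ≤ Real.exp (N * (1 / (q - 1))) * Real.exp (-((#(im q l) : ℝ) / q)) :=
            mul_le_mul h6 h7 (hpos q hq.1) (Real.exp_pos _).le
        _ = _ := by
            rw [← Real.exp_add, hl]
            congr 1
            field_simp
            ring
    refine (prod_le_prod (fun q hq => ?_) h3).trans ?_
    · rw [mem_filter] at hq
      exact mul_nonneg (pow_nonneg (hfac q hq.1) _) (hpos q hq.1)
    · rw [← Real.exp_sum, sum_add_distrib, Real.exp_add, wt_eq]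
      apply mul_le_mul_of_nonneg_right _ (Real.exp_pos _).le
      apply Real.exp_le_exp.2
      rw [← mul_sum]
      have h4 := tail_sum (n.primeFactors.filter (fun q => N < q)) N hN (fun q hq => (mem_filter.1 hq).2)
      calc (N : ℝ) * ∑ q ∈ n.primeFactors with N < q, 1 / ((q : ℝ) * (q - 1)) ≤ N * (1 / N) := mul_le_mul_of_nonneg_left h4 hN0.le
        _ = 1 := by field_simp
  rw [mul_assoc]
  refine mul_le_mul h1 h2 ?_ (pow_nonneg (PN_nonneg n N) _)
  apply prod_nonneg
  intro q hq
  rw [mem_filter] at hq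
  exact mul_nonneg (pow_nonneg (hfac q hq.1) _) (hpos q hq.1)

/-- the exponential moment of the coincidences -/
lemma exp_moment {n : ℕ} [NeZero n] (N : ℕ) (hN : 1 ≤ N) (l : List (ZMod n)) (hl : l.length ≤ N) :
    ∑ s : ZMod n, (if IsUnit s then Real.exp (N * SS N s l) else 0) ≤ n.totient * Real.exp (2 * N) := by
  have hN0 : (0 : ℝ) < N := by exact_mod_cast hN
  have hn0 : (0 : ℝ) < n := n_pos
  have h1 : ∀ s : ZMod n, (if IsUnit s then Real.exp (N * SS N s l) else 0) =
      ∏ q ∈ n.primeFactors, (if (s.cast : ZMod q) = 0 then 0 else if N < q ∧ (s.cast : ZMod q) ∈ im q l then Real.exp (N / q) else 1) := by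
    intro s
    by_cases hs : IsUnit s
    · rw [if_pos hs]
      rw [unit_iff] at hs
      have h2 : ∀ q ∈ n.primeFactors, (if (s.cast : ZMod q) = 0 then 0 else if N < q ∧ (s.cast : ZMod q) ∈ im q l then Real.exp (N / q) else 1) =
          Real.exp (if N < q then (if (s.cast : ZMod q) ∈ im q l then N / q else 0) else 0) := by
        intro q hq
        rw [if_neg (hs q hq)]
        by_cases h3 : N < q
        · rw [if_pos h3]
          by_cases h4 : (s.cast : ZMod q) ∈ im q l
          · rw [if_pos ⟨h3, h4⟩, if_pos h4]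
          · rw [if_neg (fun h => h4 h.2), if_neg h4, Real.exp_zero]
        · rw [if_neg h3, if_neg (fun h => h3 h.1), Real.exp_zero]
      rw [prod_congr rfl h2, ← Real.exp_sum]
      congr 1
      unfold SS big
      rw [sum_filter, mul_sum]
      apply sum_congr rfl
      intro q _
      split_ifs <;> ring
    · rw [if_neg hs]
      rw [unit_iff] at hs
      push Not at hs
      obtain ⟨q, hq, h2⟩ := hs
      rw [prod_eq_zero hq]
      rw [if_pos h2]
  simp_rw [h1]
  have h2 := E_primes n inferInstance (fun q x => (if x = 0 then 0 else if N < q ∧ x ∈ im q l then Real.exp (N / q) else 1))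
  have h3 : ∑ s : ZMod n, ∏ q ∈ n.primeFactors, (if (s.cast : ZMod q) = 0 then 0 else if N < q ∧ (s.cast : ZMod q) ∈ im q l then Real.exp (N / q) else 1) =
      n * ∏ q ∈ n.primeFactors, ((∑ x ∈ range q, if (x : ZMod q) = 0 then 0 else if N < q ∧ (x : ZMod q) ∈ im q l then Real.exp (N / q) else 1) / q) := by
    rw [← h2]
    unfold E
    field_simp
  rw [h3]
  have h4 : ∀ q ∈ n.primeFactors, (∑ x ∈ range q, if (x : ZMod q) = 0 then 0 else if N < q ∧ (x : ZMod q) ∈ im q l then Real.exp (N / q) else 1) / (q : ℝ) ≤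
      (1 - 1 / q) * Real.exp (if N < q then 2 * N ^ 2 * (1 / ((q : ℝ) * (q - 1))) else 0) := by
    intro q hq
    have hqp := Nat.prime_of_mem_primeFactors hq
    have : NeZero q := ⟨hqp.ne_zero⟩
    have hq2 : (2 : ℝ) ≤ q := by exact_mod_cast hqp.two_le
    have hq0 : (0 : ℝ) < q := by linarith
    have hq1 : (0 : ℝ) < q - 1 := by linarith
    rw [sum_range_zmod q (fun x => (if x = 0 then 0 else if N < q ∧ x ∈ im q l then Real.exp (N / q) else 1))]
    have hcount : ∑ x : ZMod q, (if x = 0 then (0 : ℝ) else 1) = q - 1 := by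
      have h5 : ∀ x : ZMod q, (if x = 0 then (0 : ℝ) else 1) = 1 - if x = 0 then (1 : ℝ) else 0 := by
        intro x; split_ifs <;> ring
      simp_rw [h5]
      rw [sum_sub_distrib, sum_const, card_univ, ZMod.card, nsmul_eq_mul, mul_one]
      simp
    by_cases h5 : N < q
    · rw [if_pos h5]
      have h6 : ∀ x : ZMod q, (if x = 0 then 0 else if N < q ∧ x ∈ im q l then Real.exp (N / q) else 1) ≤
          (if x = 0 then (0 : ℝ) else 1) + (if x ∈ im q l then 2 * (N / q : ℝ) else 0) := by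
        intro x
        have h7 : Real.exp (N / q) ≤ 1 + 2 * (N / q : ℝ) := by
          have h8 : (N : ℝ) / q ≤ 1 := by
            rw [div_le_one hq0]; exact_mod_cast h5.le
          have h9 : 0 ≤ (N : ℝ) / q := by positivity
          have h10 := Real.abs_exp_sub_one_sub_id_le (x := (N : ℝ) / q) (by rw [abs_of_nonneg h9]; exact h8)
          rw [abs_le] at h10
          nlinarith [h10.2]
        have h8 : 0 ≤ (N : ℝ) / q := by positivity
        by_cases hx : x = 0
        · rw [if_pos hx, if_pos hx]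
          split_ifs
          · positivity
          · norm_num
        · rw [if_neg hx, if_neg hx]
          by_cases hx2 : x ∈ im q l
          · rw [if_pos ⟨h5, hx2⟩, if_pos hx2]; exact h7
          · rw [if_neg (fun h => hx2 h.2), if_neg hx2, add_zero]
      have h7 : ∑ x : ZMod q, (if x = 0 then 0 else if N < q ∧ x ∈ im q l then Real.exp (N / q) else 1) ≤ (q - 1) + 2 * N ^ 2 / q := by
        refine (sum_le_sum fun x _ => h6 x).trans ?_
        rw [sum_add_distrib, hcount]
        have h8 : ∑ x : ZMod q, (if x ∈ im q l then 2 * (N / q : ℝ) else 0) = #(im q l) * (2 * (N / q : ℝ)) := by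
          rw [← sum_filter, sum_const, nsmul_eq_mul, filter_mem_eq_inter, univ_inter]
        rw [h8]
        have h9 : (#(im q l) : ℝ) ≤ N := by exact_mod_cast (card_im q l).trans hl
        have h10 : (#(im q l) : ℝ) * (2 * (N / q : ℝ)) ≤ N * (2 * (N / q : ℝ)) := mul_le_mul_of_nonneg_right h9 (by positivity)
        have h11 : (N : ℝ) * (2 * (N / q : ℝ)) = 2 * N ^ 2 / q := by ring
        linarith
      have h8 : (1 - 1 / (q : ℝ)) * (1 + 2 * N ^ 2 * (1 / ((q : ℝ) * (q - 1)))) = ((q - 1) + 2 * N ^ 2 / q) / q := by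
        field_simp
      have h9 : 1 + 2 * (N : ℝ) ^ 2 * (1 / ((q : ℝ) * (q - 1))) ≤ Real.exp (2 * N ^ 2 * (1 / ((q : ℝ) * (q - 1)))) := by
        have := Real.add_one_le_exp (2 * (N : ℝ) ^ 2 * (1 / ((q : ℝ) * (q - 1))))
        linarith
      have h10 : 0 ≤ 1 - 1 / (q : ℝ) := by
        rw [sub_nonneg, div_le_one hq0]; linarith
      calc _ ≤ ((q - 1) + 2 * (N : ℝ) ^ 2 / q) / q := by gcongr
        _ = _ := h8.symm
        _ ≤ _ := mul_le_mul_of_nonneg_left h9 h10
    · rw [if_neg h5, Real.exp_zero, mul_one]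
      have h6 : ∀ x : ZMod q, (if x = 0 then 0 else if N < q ∧ x ∈ im q l then Real.exp (N / q) else 1) = (if x = 0 then (0 : ℝ) else 1) := by
        intro x
        rw [if_neg (fun h : N < q ∧ x ∈ im q l => h5 h.1)]
      simp_rw [h6]
      rw [hcount]
      apply le_of_eq
      field_simp
  have h5 : ∏ q ∈ n.primeFactors, ((∑ x ∈ range q, if (x : ZMod q) = 0 then 0 else if N < q ∧ (x : ZMod q) ∈ im q l then Real.exp (N / q) else 1) / (q : ℝ)) ≤
      ∏ q ∈ n.primeFactors, ((1 - 1 / (q : ℝ)) * Real.exp (if N < q then 2 * N ^ 2 * (1 / ((q : ℝ) * (q - 1))) else 0)) := by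
    apply prod_le_prod _ h4
    intro q hq
    apply div_nonneg _ (Nat.cast_nonneg _)
    apply sum_nonneg
    intro x _
    split_ifs
    · exact le_rfl
    · exact (Real.exp_pos _).le
    · exact zero_le_one
  rw [prod_mul_distrib, ← Real.exp_sum, ← sum_filter, ← mul_sum] at h5
  have h6 := tail_sum (n.primeFactors.filter (fun q => N < q)) N hN (fun q hq => (mem_filter.1 hq).2)
  have h7 : 2 * (N : ℝ) ^ 2 * ∑ q ∈ n.primeFactors with N < q, 1 / ((q : ℝ) * (q - 1)) ≤ 2 * N := by
    calc 2 * (N : ℝ) ^ 2 * ∑ q ∈ n.primeFactors with N < q, 1 / ((q : ℝ) * (q - 1)) ≤ 2 * (N : ℝ) ^ 2 * (1 / N) :=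
          mul_le_mul_of_nonneg_left h6 (by positivity)
      _ = 2 * N := by field_simp
  have h8 : 0 ≤ ∏ q ∈ n.primeFactors, (1 - 1 / (q : ℝ)) := by
    apply prod_nonneg
    intro q hq
    have hqp := Nat.prime_of_mem_primeFactors hq
    have hq2 : (2 : ℝ) ≤ q := by exact_mod_cast hqp.two_le
    rw [sub_nonneg, div_le_one (by linarith)]; linarith
  calc (n : ℝ) * _ ≤ n * ((∏ q ∈ n.primeFactors, (1 - 1 / (q : ℝ))) * Real.exp (2 * (N : ℝ) ^ 2 * ∑ q ∈ n.primeFactors with N < q, 1 / ((q : ℝ) * (q - 1)))) :=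
        mul_le_mul_of_nonneg_left h5 hn0.le
    _ = n.totient * Real.exp (2 * (N : ℝ) ^ 2 * ∑ q ∈ n.primeFactors with N < q, 1 / ((q : ℝ) * (q - 1))) := by
        rw [← mul_assoc, tot_prod]
    _ ≤ _ := mul_le_mul_of_nonneg_left (Real.exp_le_exp.2 h7) (Nat.cast_nonneg _)

/-- **The moment inequality.** -/
theorem moment {n : ℕ} [NeZero n] (N : ℕ) (hN : 1 ≤ N) (δ : ℝ) (hδ : Real.exp (-(2 * N)) ≤ δ) (d : ZMod n → ℝ)
    (h0 : ∀ s, 0 ≤ d s) (h1 : ∀ s, d s ≤ 1) (hu : ∀ s, ¬ IsUnit s → d s = 0) (hd : ∑ s, d s ≤ δ * n.totient) :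
    E (fun t => Top d t ^ N) ≤ Real.exp 1 * (2 * Real.exp 4 * δ * PN n N) ^ N := by
  have hN0 : (0 : ℝ) < N := by exact_mod_cast hN
  have hφ : (0 : ℝ) < n.totient := tot_pos n
  have hn0 : (0 : ℝ) < n := n_pos
  have hδ0 : 0 < δ := (Real.exp_pos _).trans_le hδ
  have e1 : E (fun t => Top d t ^ N) = (1 / (n.totient : ℝ)) ^ N * LS N (fun l => (l.map d).prod *
      (((n : ℝ) / n.totient) ^ N * ∏ q ∈ n.primeFactors, (1 - (#(im q l) : ℝ) / q))) := by
    have h2 : ∀ t, Top d t ^ N = ((1 / (n.totient : ℝ)) * ((n : ℝ) / n.totient)) ^ N *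
        LS N (fun l => (l.map (fun s => d s * (if IsUnit (t - s) then 1 else 0))).prod) := by
      intro t
      unfold Top
      rw [mul_pow, LS_pow]
      congr 1
      congr 1
      field_simp
    simp_rw [h2]
    rw [E_mul]
    have h3 : E (fun t => LS N (fun l => (l.map (fun s => d s * (if IsUnit (t - s) then 1 else 0))).prod)) =
        LS N (fun l => (l.map d).prod * ∏ q ∈ n.primeFactors, (1 - (#(im q l) : ℝ) / q)) := by
      unfold E
      rw [LS_sum, div_eq_inv_mul, ← LS_mul]
      congr 1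
      funext l
      rw [← E_unit l]
      unfold E
      have h4 : ∀ t : ZMod n, (l.map (fun s => d s * (if IsUnit (t - s) then (1 : ℝ) else 0))).prod =
          (l.map d).prod * (l.map (fun s => (if IsUnit (t - s) then (1 : ℝ) else 0))).prod := by
        intro t
        exact List.prod_map_mul
      simp_rw [h4]
      rw [← mul_sum]
      ring
    rw [h3, mul_pow, mul_assoc, ← LS_mul]
    congr 1
    congr 1
    funext l
    ring
  rw [e1]
  have h2 : LS N (fun l => (l.map d).prod * (((n : ℝ) / n.totient) ^ N * ∏ q ∈ n.primeFactors, (1 - (#(im q l) : ℝ) / q))) ≤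
      LS N (fun l => (PN n N ^ N * Real.exp 1) * ((l.map d).prod * wt N l)) := by
    apply LS_mono
    intro l hl
    have h3 := dens_le N hN l hl
    have h4 : 0 ≤ (l.map d).prod := by
      apply List.prod_nonneg
      intro x hx
      rw [List.mem_map] at hx
      obtain ⟨s, _, rfl⟩ := hx
      exact h0 s
    calc _ ≤ (l.map d).prod * (PN n N ^ N * Real.exp 1 * wt N l) := mul_le_mul_of_nonneg_left h3 h4
      _ = _ := by ring
  rw [LS_mul] at h2
  have h3 : LS N (fun l => (l.map d).prod * wt N l) ≤ (2 * Real.exp 4 * δ * n.totient) ^ N := by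
    refine LS_bound (fun l => (l.map d).prod * wt N l) (fun a l => d a * Real.exp (SS N a l)) _ (by positivity) ?_ ?_ N ?_ ?_
    · intro l
      apply mul_nonneg _ (wt_nonneg N l)
      apply List.prod_nonneg
      intro x hx
      rw [List.mem_map] at hx
      obtain ⟨s, _, rfl⟩ := hx
      exact h0 s
    · simp [wt]
    · intro l _ a
      simp only [List.map_cons, List.prod_cons, wt]
      ring
    · intro l hl
      have h4 : ∀ a : ZMod n, d a * Real.exp (SS N a l) ≤ Real.exp 4 * d a +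
          Real.exp (-4 * (N - 1)) * (if IsUnit a then Real.exp (N * SS N a l) else 0) := by
        intro a
        by_cases ha : IsUnit a
        · rw [if_pos ha]
          have h5 := SS_nonneg N a l
          have h6 : (1 : ℝ) ≤ N := by exact_mod_cast hN
          rcases le_or_gt (SS N a l) 4 with h7 | h7
          · have h8 : d a * Real.exp (SS N a l) ≤ d a * Real.exp 4 := mul_le_mul_of_nonneg_left (Real.exp_le_exp.2 h7) (h0 a)
            have h9 : 0 ≤ Real.exp (-4 * ((N : ℝ) - 1)) * Real.exp (N * SS N a l) := by positivity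
            linarith
          · have h8 : d a * Real.exp (SS N a l) ≤ 1 * Real.exp (SS N a l) := mul_le_mul_of_nonneg_right (h1 a) (Real.exp_pos _).le
            have h9 : Real.exp (SS N a l) ≤ Real.exp (-4 * ((N : ℝ) - 1)) * Real.exp (N * SS N a l) := by
              rw [← Real.exp_add]
              apply Real.exp_le_exp.2
              nlinarith
            have h10 : 0 ≤ Real.exp 4 * d a := mul_nonneg (Real.exp_pos _).le (h0 a)
            linarith
        · rw [hu a ha, if_neg ha]; simp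
      refine (sum_le_sum fun a _ => h4 a).trans ?_
      rw [sum_add_distrib, ← mul_sum, ← mul_sum]
      have h5 := exp_moment N hN l hl.le
      have h6 : Real.exp (-4 * ((N : ℝ) - 1)) * (n.totient * Real.exp (2 * N)) ≤ Real.exp 4 * δ * n.totient := by
        have h7 : Real.exp (-4 * ((N : ℝ) - 1)) * Real.exp (2 * N) = Real.exp 4 * Real.exp (-(2 * N)) := by
          rw [← Real.exp_add, ← Real.exp_add]; congr 1; ring
        calc Real.exp (-4 * ((N : ℝ) - 1)) * (n.totient * Real.exp (2 * N)) = (Real.exp (-4 * ((N : ℝ) - 1)) * Real.exp (2 * N)) * n.totient := by ring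
          _ = Real.exp 4 * Real.exp (-(2 * N)) * n.totient := by rw [h7]
          _ ≤ _ := by
            apply mul_le_mul_of_nonneg_right _ hφ.le
            exact mul_le_mul_of_nonneg_left hδ (Real.exp_pos _).le
      have h8 : Real.exp 4 * ∑ s, d s ≤ Real.exp 4 * (δ * n.totient) := mul_le_mul_of_nonneg_left hd (Real.exp_pos _).le
      have h9 : Real.exp (-4 * ((N : ℝ) - 1)) * ∑ s : ZMod n, (if IsUnit s then Real.exp (N * SS N s l) else 0) ≤
        Real.exp (-4 * ((N : ℝ) - 1)) * (n.totient * Real.exp (2 * N)) := mul_le_mul_of_nonneg_left h5 (Real.exp_pos _).le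
      linarith
  calc _ ≤ (1 / (n.totient : ℝ)) ^ N * ((PN n N ^ N * Real.exp 1) * (2 * Real.exp 4 * δ * n.totient) ^ N) := by
        apply mul_le_mul_of_nonneg_left _ (by positivity)
        refine h2.trans ?_
        apply mul_le_mul_of_nonneg_left h3
        exact mul_nonneg (pow_nonneg (PN_nonneg n N) _) (Real.exp_pos _).le
    _ = _ := by
        rw [mul_pow (2 * Real.exp 4 * δ) (n.totient : ℝ), mul_pow (2 * Real.exp 4 * δ) (PN n N), one_div, inv_pow]
        have : (n.totient : ℝ) ^ N ≠ 0 := by positivity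
        field_simp

end Pool.Agent.W5h22.GS
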