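import Mathlib
import Pool.Agent.W5h22.GS.B
import Pool.Agent.W5h22.GS.C

set_option autoImplicit false

/-! The upper bound for the local averages. -/

namespace Pool.Agent.W5h22.GS
open Finset Filter
open Pool.Agent.Helper602.MK
open Pool.Agent.H373R2.NB
open Pool.Agent.W5h22.PV
open Pool.Agent.W5h22.RB (u u_sup u_nonunit u_nonneg E E_mono E_mul tot_pos n_pos)

/-- the normalised densities of `D` in the residue classes modulo `W` -/
noncomputable def dd (c : ℝ) (D : Finset ℕ) (X W : ℕ) (σ : ZMod W) : ℝ :=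
  #(D.filter (fun p : ℕ => (p : ZMod W) = σ)) * W.totient * Real.log X / (c * X)

lemma u_zero (kk W J : ℕ) [NeZero W] (hWk : W ^ 2 ≤ kk) (v : ℤ) (hv : ¬ IsUnit (v : ZMod W)) :
    u (fun _ => 1) kk W J v = 0 := by
  have h1 : v = (W : ℤ) * (v / W) + (((v : ZMod W).val : ℕ) : ℤ) := by
    rw [ZMod.val_intCast]
    exact (Int.mul_ediv_add_emod v W).symm
  rw [h1]
  exact u_nonunit (fun _ => 1) kk W J hWk (v / W) (v : ZMod W) hv

lemma sum_fib {W : ℕ} [NeZero W] (D : Finset ℕ) (g : ZMod W → ℝ) :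
    ∑ p ∈ D, g (p : ZMod W) = ∑ σ : ZMod W, #(D.filter (fun p : ℕ => (p : ZMod W) = σ)) * g σ := by
  rw [← sum_fiberwise_of_maps_to (s := D) (t := univ) (g := fun p : ℕ => (p : ZMod W)) (fun _ _ => mem_univ _)]
  apply sum_congr rfl
  intro σ _
  rw [sum_congr rfl (g := fun _ => g σ) (fun p hp => by rw [(mem_filter.1 hp).2]), sum_const, nsmul_eq_mul]

/-- the primes in a residue class -/
lemma bt_class : ∃ C : ℝ, 1 ≤ C ∧ ∀ W : ℕ, 1 ≤ W → ∀ᶠ y : ℕ in atTop, ∀ D : Finset ℕ, (∀ p ∈ D, p.Prime ∧ p ≤ y) →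
    ∀ σ : ZMod W, (#(D.filter (fun p : ℕ => (p : ZMod W) = σ)) : ℝ) ≤ C * y / (W.totient * Real.log y) := by
  obtain ⟨C, hC, hJ3⟩ := N_J3.J3
  refine ⟨4 * C, by linarith, ?_⟩
  intro W hW
  have : NeZero W := ⟨by omega⟩
  have hW0 : (0 : ℝ) < W := by exact_mod_cast hW
  have hφ : (0 : ℝ) < W.totient := tot_pos W
  have e1 : ∀ᶠ y : ℕ in atTop, (W : ℝ) ≤ (y : ℝ) ^ (1 / 2 : ℝ) :=
    ((tendsto_rpow_atTop (by norm_num : (0 : ℝ) < 1 / 2)).comp tendsto_natCast_atTop_atTop).eventually_ge_atTop _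
  filter_upwards [e1, eventually_ge_atTop (2 * W + 4)] with y hy1 hy2
  intro D hD σ
  have hy0 : (0 : ℝ) < y := by exact_mod_cast (by omega : 0 < y)
  have hy4 : (4 : ℝ) ≤ y := by exact_mod_cast (by omega : 4 ≤ y)
  have hly : 0 < Real.log y := Real.log_pos (by linarith)
  set N := y / W + 1 with hN
  have hN2 : 2 ≤ N := by
    have : 1 ≤ y / W := (Nat.one_le_div_iff (by omega)).2 (by omega)
    omega
  have h1 := hJ3 σ.val W N hW hN2
  have h2 : #(D.filter (fun p : ℕ => (p : ZMod W) = σ)) ≤ #((range N).filter (fun t => (σ.val + t * W).Prime)) := by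
    apply card_le_card_of_injOn (fun p => p / W)
    · intro p hp
      rw [mem_coe, mem_filter] at hp
      have hpp := hD p hp.1
      rw [mem_coe, mem_filter, mem_range]
      have h3 : σ.val + p / W * W = p := by
        rw [← hp.2, ZMod.val_natCast, mul_comm]
        exact Nat.mod_add_div p W
      refine ⟨Nat.lt_succ_of_le (Nat.div_le_div_right hpp.2), ?_⟩
      rw [h3]; exact hpp.1
    · intro p hp p' hp' hpp
      rw [mem_coe, mem_filter] at hp hp'
      simp only at hpp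
      have h3 : p % W = p' % W := by
        have h4 := congrArg ZMod.val (hp.2.trans hp'.2.symm)
        rwa [ZMod.val_natCast, ZMod.val_natCast] at h4
      rw [← Nat.div_add_mod p W, ← Nat.div_add_mod p' W, hpp, h3]
  have h3 : (N : ℝ) ≤ 2 * (y / W) := by
    have h4 : ((y / W : ℕ) : ℝ) ≤ y / W := Nat.cast_div_le
    have h5 : (1 : ℝ) ≤ y / W := by
      rw [le_div_iff₀ hW0, one_mul]
      exact_mod_cast (by omega : W ≤ y)
    rw [hN]; push_cast; linarith
  have h4 : (y : ℝ) ^ (1 / 2 : ℝ) ≤ N := by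
    have h5 : (y : ℝ) / W ≤ N := by
      have h6 := Nat.lt_div_mul_add (a := y) (b := W) (by omega)
      rw [div_le_iff₀ hW0, hN]
      have h7 : (y : ℝ) < (y / W : ℕ) * W + W := by exact_mod_cast h6
      push_cast
      linarith
    refine le_trans ?_ h5
    rw [le_div_iff₀ hW0]
    calc (y : ℝ) ^ (1 / 2 : ℝ) * W ≤ (y : ℝ) ^ (1 / 2 : ℝ) * (y : ℝ) ^ (1 / 2 : ℝ) := mul_le_mul_of_nonneg_left hy1 (by positivity)
      _ = y := by rw [← Real.rpow_add hy0]; norm_num
  have h5 : Real.log y / 2 ≤ Real.log N := by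
    have h6 := Real.log_le_log (by positivity) h4
    rw [Real.log_rpow hy0] at h6
    linarith
  calc (#(D.filter (fun p : ℕ => (p : ZMod W) = σ)) : ℝ) ≤ #((range N).filter (fun t => (σ.val + t * W).Prime)) := by exact_mod_cast h2
    _ ≤ C * (W / W.totient) * N / Real.log N := h1
    _ ≤ C * (W / W.totient) * (2 * (y / W)) / (Real.log y / 2) := by
        apply div_le_div₀ (by positivity) _ (by positivity) h5
        exact mul_le_mul_of_nonneg_left h3 (by positivity)
    _ = _ := by field_simp; ring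

/-- the local averages are bounded by the operator `Top` -/
theorem model_bound : ∃ C : ℝ, 1 ≤ C ∧ ∃ c : ℝ, 1 ≤ c ∧ ∀ (W : ℕ) (hW : 1 ≤ W) (τ : ℝ), 0 < τ → ∀ _ : NeZero W, ∀ᶠ X : ℕ in atTop,
    ∀ D : Finset ℕ, D ⊆ PP (2 * X) →
      (∀ σ : ZMod W, 0 ≤ dd c D X W σ ∧ dd c D X W σ ≤ 1 ∧ (¬ IsUnit σ → dd c D X W σ = 0)) ∧
      (∑ σ : ZMod W, dd c D X W σ = #D * W.totient * Real.log X / (c * X)) ∧
      ∀ n : ℤ, ∑ p ∈ D, u (fun _ => 1) (2 * X) W ⌊τ * X / W⌋₊ (n - p) ≤ C * (X / Real.log X ^ 2) * Top (dd c D X W) (n : ZMod W) := by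
  obtain ⟨C₁, hC₁, hbt⟩ := bt_class
  obtain ⟨C₂, hC₂, hus⟩ := u_sup
  refine ⟨2 * C₂ * (2 * C₁), by nlinarith, 2 * C₁, by linarith, ?_⟩
  intro W hW τ hτ hWne
  have hW0 : (0 : ℝ) < W := by exact_mod_cast hW
  have hφ : (0 : ℝ) < W.totient := tot_pos W
  have e1 : ∀ᶠ X : ℕ in atTop, 2 * (W : ℝ) / τ ≤ (X : ℝ) ^ (1 / 2 : ℝ) :=
    ((tendsto_rpow_atTop (by norm_num : (0 : ℝ) < 1 / 2)).comp tendsto_natCast_atTop_atTop).eventually_ge_atTop _
  have e2 : ∀ᶠ X : ℕ in atTop, ∀ D : Finset ℕ, (∀ p ∈ D, p.Prime ∧ p ≤ 2 * X) →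
    ∀ σ : ZMod W, (#(D.filter (fun p : ℕ => (p : ZMod W) = σ)) : ℝ) ≤ C₁ * (2 * X : ℕ) / (W.totient * Real.log (2 * X : ℕ)) :=
    (tendsto_id.const_mul_atTop' (by norm_num : 0 < 2)).eventually (hbt W hW)
  filter_upwards [e1, e2, eventually_ge_atTop (W ^ 2 + 4)] with X hX1 hX2 hX3
  intro D hD
  have hX4 : (4 : ℝ) ≤ X := by exact_mod_cast (by omega : 4 ≤ X)
  have hX0 : (0 : ℝ) < X := by linarith
  have hlX : 0 < Real.log X := Real.log_pos (by linarith)
  have hD' : ∀ p ∈ D, p.Prime ∧ p ≤ 2 * X := fun p hp => ⟨((mem_PP _ _).1 (hD hp)).2.1, ((mem_PP _ _).1 (hD hp)).1⟩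
  have hcount := hX2 D hD'
  have hl2 : Real.log X ≤ Real.log ((2 * X : ℕ) : ℝ) := by
    apply Real.log_le_log hX0
    push_cast; linarith
  refine ⟨?_, ?_, ?_⟩
  · intro σ
    refine ⟨by unfold dd; positivity, ?_, ?_⟩
    · unfold dd
      rw [div_le_one (by positivity)]
      calc (#(D.filter (fun p : ℕ => (p : ZMod W) = σ)) : ℝ) * W.totient * Real.log X ≤
          (C₁ * (2 * X : ℕ) / (W.totient * Real.log (2 * X : ℕ))) * W.totient * Real.log X := by gcongr; exact hcount σ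
        _ ≤ (C₁ * (2 * X : ℕ) / (W.totient * Real.log X)) * W.totient * Real.log X := by gcongr
        _ = 2 * C₁ * X := by
            push_cast
            field_simp
    · intro hσ
      unfold dd
      rw [filter_eq_empty_iff.2, card_empty]
      · simp
      · intro p hp h1
        apply hσ
        rw [← h1, ZMod.isUnit_iff_coprime]
        obtain ⟨h2, h3, h4⟩ := (mem_PP _ _).1 (hD hp)
        rw [Nat.Prime.coprime_iff_not_dvd h3]
        intro h5
        have h6 := Nat.le_of_dvd (by omega) h5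
        have h7 : p ^ 2 ≤ W ^ 2 := Nat.pow_le_pow_left h6 2
        omega
  · unfold dd
    rw [← sum_div, ← sum_mul, ← sum_mul]
    have h1 := sum_fib (W := W) D (fun _ => 1)
    simp only [mul_one, sum_const, nsmul_eq_mul] at h1
    rw [h1]
  · intro n
    set J := ⌊τ * X / W⌋₊ with hJ
    have hge : (X : ℝ) ^ (1 / 2 : ℝ) ≤ J := by
      have h1 : (2 : ℝ) * X ^ (1 / 2 : ℝ) ≤ τ * X / W := by
        rw [le_div_iff₀ hW0]
        rw [div_le_iff₀ hτ] at hX1
        calc (2 : ℝ) * X ^ (1 / 2 : ℝ) * W = X ^ (1 / 2 : ℝ) * (2 * W) := by ring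
          _ ≤ X ^ (1 / 2 : ℝ) * (X ^ (1 / 2 : ℝ) * τ) := mul_le_mul_of_nonneg_left hX1 (by positivity)
          _ = τ * (X ^ (1 / 2 : ℝ) * X ^ (1 / 2 : ℝ)) := by ring
          _ = τ * X := by rw [← Real.rpow_add hX0]; norm_num
      have h2 := Nat.lt_floor_add_one (τ * X / W)
      rw [← hJ] at h2
      have h3 : (1 : ℝ) ≤ X ^ (1 / 2 : ℝ) := Real.one_le_rpow (by linarith) (by norm_num)
      linarith
    have hJ2 : 2 ≤ J := by
      have h1 : (2 : ℝ) ≤ X ^ (1 / 2 : ℝ) := by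
        rw [← Real.sqrt_eq_rpow]
        apply Real.le_sqrt_of_sq_le
        linarith
      exact_mod_cast h1.trans hge
    have hlJ : Real.log X / 2 ≤ Real.log J := by
      have h6 := Real.log_le_log (by positivity) hge
      rw [Real.log_rpow hX0] at h6
      linarith
    have h1 : ∀ p ∈ D, u (fun _ => 1) (2 * X) W J (n - p) ≤ (2 * C₂ * (W / W.totient) / Real.log X) *
        (if IsUnit ((n : ZMod W) - (p : ZMod W)) then 1 else 0) := by
      intro p hp
      by_cases hu : IsUnit ((n : ZMod W) - (p : ZMod W))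
      · rw [if_pos hu, mul_one]
        refine (hus (fun _ => 1) (fun _ => zero_le_one) (fun _ => le_rfl) (2 * X) W J hW hJ2 _).trans ?_
        calc C₂ * ((W : ℝ) / W.totient) / Real.log J ≤ C₂ * ((W : ℝ) / W.totient) / (Real.log X / 2) := by
              apply div_le_div_of_nonneg_left (by positivity) (by positivity) hlJ
          _ = _ := by field_simp
      · rw [if_neg hu, mul_zero]
        apply le_of_eq
        apply u_zero
        · nlinarith
        · push_cast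
          exact hu
    refine (sum_le_sum h1).trans ?_
    rw [← mul_sum, sum_fib D (fun σ => if IsUnit ((n : ZMod W) - σ) then (1 : ℝ) else 0)]
    unfold Top dd
    apply le_of_eq
    have h2 : ∀ σ : ZMod W, (#(D.filter (fun p : ℕ => (p : ZMod W) = σ)) : ℝ) * W.totient * Real.log X / (2 * C₁ * X) *
        (if IsUnit ((n : ZMod W) - σ) then (1 : ℝ) else 0) = (W.totient * Real.log X / (2 * C₁ * X)) *
          ((#(D.filter (fun p : ℕ => (p : ZMod W) = σ)) : ℝ) * (if IsUnit ((n : ZMod W) - σ) then (1 : ℝ) else 0)) := by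
      intro σ; ring
    simp_rw [h2]
    rw [← mul_sum]
    generalize ∑ σ : ZMod W, (#(D.filter (fun p : ℕ => (p : ZMod W) = σ)) : ℝ) * (if IsUnit ((n : ZMod W) - σ) then (1 : ℝ) else 0) = S
    have hC₁0 : C₁ ≠ 0 := by linarith
    field_simp

end Pool.Agent.W5h22.GS
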