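import Mathlib
import Pool.Agent.W5h22.GS.D
import Pool.Agent.TH935.GF
import Pool.Agent.W93.HD1

set_option autoImplicit false

/-! Sets of primes of small relative density capture a given share of the Goldbach representations of few integers. -/

namespace Pool.Agent.W5h22.GS
open Finset Filter
open Pool.Agent.Helper602.MK (PP)
open Pool.Agent.W5h22.PV (mem_PP pk evt_div_log)
open Pool.Agent.W5h22.RB (u E E_mono E_mul tot_pos n_pos)
open Pool.Agent.W93.PG (WinP cnt)
open Pool.Agent.H560R3.GB (sing energy)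

/-- the representations of `n` as an ordered sum of two distinct odd primes, by their first members -/
def reps (n : ℕ) : Finset ℕ := (range n).filter (fun p => p.Prime ∧ (n - p).Prime ∧ p ≠ 2 ∧ n - p ≠ 2 ∧ p ≠ n - p)

/-- those representations of which at least one member is in `D` -/
def repsD (D : Finset ℕ) (n : ℕ) : Finset ℕ := (reps n).filter (fun p => p ∈ D ∨ n - p ∈ D)

lemma energy_one (x : ℕ) (s : ℕ → ℕ) (hs : Function.Injective s) : energy 1 x s ≤ x := by
  classical
  unfold energy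
  have h : ((((Fintype.piFinset fun _ : Fin 1 => Icc 1 x) ×ˢ (Fintype.piFinset fun _ : Fin 1 => Icc 1 x)).filter
      (fun q => ∑ i, s (q.1 i) = ∑ i, s (q.2 i))).card) ≤ (Fintype.piFinset fun _ : Fin 1 => Icc 1 x).card := by
    apply card_le_card_of_injOn (fun q => q.1)
    · intro q hq
      rw [mem_coe, mem_filter, mem_product] at hq
      exact hq.1.1
    · intro q hq r hr hqr
      rw [mem_coe, mem_filter, mem_product] at hq hr
      have h1 := hq.2
      have h2 := hr.2
      simp only [Fin.sum_univ_one] at h1 h2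
      have h3 : q.1 = r.1 := hqr
      have h4 : q.2 0 = r.2 0 := hs (by rw [← h1, ← h2, h3])
      apply Prod.ext h3
      funext i
      rw [Subsingleton.elim i 0]
      exact h4
  refine h.trans ?_
  rw [Fintype.card_piFinset]
  simp

/-- almost all even integers have the predicted numbers of representations in all windows -/
lemma win_all (ε : ℝ) (hε : 0 < ε) (ρ : ℝ) (hρ : 0 < ρ) : ∀ᶠ X : ℕ in atTop, 
    ∀ S : Finset ℕ, (∀ n ∈ S, X < n ∧ n ≤ 2 * X ∧ Even n ∧ ¬ WinP ε 2 n) → (#S : ℝ) ≤ ρ * X := by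
  classical
  obtain ⟨N₀, h⟩ := Pool.Agent.TH935.GF.fam_win 1 2 0 2 1 0 le_rfl ε hε (WinP ε 2) (fun m _ _ h => h)
  have hev : ∀ᶠ X : ℕ in atTop, 1 / ρ ≤ Real.log X :=
    (Real.tendsto_log_atTop.comp tendsto_natCast_atTop_atTop).eventually_ge_atTop _
  filter_upwards [eventually_ge_atTop N₀, hev, eventually_ge_atTop 3] with X hX1 hX2 hX3
  intro S hS
  have hX0 : (0 : ℝ) < X := by exact_mod_cast (by omega : 0 < X)
  have hlX : 0 < Real.log X := Real.log_pos (by exact_mod_cast (by omega : 1 < X))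
  have h1 := h X hX1 X (fun m => 2 * m) (by
      intro m hm
      rw [mem_Icc] at hm
      exact ⟨by show 2 * m ≤ 2 * X; omega, dvd_mul_right 2 m⟩) (by
      have h1 := energy_one X (fun m => 2 * m) (fun a b hab => by
        have : 2 * a = 2 * b := hab
        omega)
      have h2 : (energy 1 X (fun m => 2 * m) : ℝ) ≤ X := by exact_mod_cast h1
      calc (energy 1 X (fun m => 2 * m) : ℝ) * X ≤ X * X := mul_le_mul_of_nonneg_right h2 hX0.le
        _ = _ := by ring) (S.image (fun n => n / 2)) (by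
      intro m hm
      rw [mem_image] at hm
      obtain ⟨n, hn, rfl⟩ := hm
      have := hS n hn
      rw [mem_Icc]
      omega) (by
      intro m hm
      rw [mem_image] at hm
      obtain ⟨n, hn, rfl⟩ := hm
      have h2 := hS n hn
      have h3 : 2 * (n / 2) = n := Nat.two_mul_div_two_of_even h2.2.2.1
      simp only [h3]
      exact h2.2.2.2)
  rw [card_image_of_injOn] at h1
  · refine h1.trans ?_
    rw [pow_one, div_le_iff₀ hlX]
    rw [div_le_iff₀ hρ] at hX2
    nlinarith
  · intro a ha b hb hab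
    simp only at hab
    have h3 : 2 * (a / 2) = a := Nat.two_mul_div_two_of_even (hS a ha).2.2.1
    have h4 : 2 * (b / 2) = b := Nat.two_mul_div_two_of_even (hS b hb).2.2.1
    omega

/-- the number of representations of a regular integer -/
lemma cnt_reps (n : ℕ) : cnt n 0 n ≤ #(reps n) + 3 := by
  unfold cnt
  have h1 : (Ioc 0 n).filter (fun p => p.Prime ∧ (n - p).Prime) ⊆ reps n ∪ {2, n - 2, n / 2} := by
    intro p hp
    rw [mem_filter, mem_Ioc] at hp
    rw [mem_union, reps, mem_filter, mem_range, mem_insert, mem_insert, mem_singleton]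
    by_contra hcon
    push Not at hcon
    obtain ⟨⟨h1, h2⟩, h3, h4⟩ := hp
    have h5 : p < n := by
      rcases h2.lt_or_eq with h | h
      · exact h
      · rw [h, Nat.sub_self] at h4
        exact absurd h4 Nat.not_prime_zero
    have h6 := hcon.1 h5 h3 h4 hcon.2.1 (by omega)
    omega
  refine (card_le_card h1).trans ((card_union_le _ _).trans ?_)
  have : #({2, n - 2, n / 2} : Finset ℕ) ≤ 3 := card_le_three
  omega

/-- the captured representations, in terms of the primes in `(√(2X), 2X]` -/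
lemma repsD_le (X : ℕ) (D : Finset ℕ) (n : ℕ) (hn : n ≤ 2 * X) :
    (#(repsD D n) : ℝ) ≤ 2 * (∑ p ∈ D ∩ PP (2 * X), pk (fun _ => 1) (2 * X) ((n : ℤ) - p) + 2 * (Nat.sqrt (2 * X) + 1)) := by
  classical
  set A := (range n).filter (fun p => p ∈ D ∧ p.Prime ∧ (n - p).Prime) with hA
  have h1 : #(repsD D n) ≤ 2 * #A := by
    have h2 : repsD D n ⊆ A ∪ A.image (fun p => n - p) := by
      intro p hp
      rw [repsD, mem_filter, reps, mem_filter, mem_range] at hp
      obtain ⟨⟨h3, h4, h5, -⟩, h6⟩ := hp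
      rw [mem_union, hA, mem_filter, mem_range, mem_image]
      rcases h6 with h6 | h6
      · exact Or.inl ⟨h3, h6, h4, h5⟩
      · right
        refine ⟨n - p, ?_, by omega⟩
        rw [mem_filter, mem_range]
        have h7 : n - (n - p) = p := by omega
        rw [h7]
        exact ⟨by have := h4.pos; omega, h6, h5, h4⟩
    have h3 := card_le_card h2
    have h4 := card_union_le A (A.image (fun p => n - p))
    have h5 : #(A.image (fun p => n - p)) ≤ #A := card_image_le
    omega
  set s := Nat.sqrt (2 * X) with hs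
  set A₁ := A.filter (fun p => 2 * X < p ^ 2 ∧ 2 * X < (n - p) ^ 2) with hA₁
  have h2 : #A ≤ #A₁ + 2 * (s + 1) := by
    have h3 : A ⊆ A₁ ∪ (range (s + 1) ∪ (range (s + 1)).image (fun q => n - q)) := by
      intro p hp
      rw [mem_union, hA₁, mem_filter, mem_union, mem_range, mem_image]
      by_contra hcon
      push Not at hcon
      have hp' := hp
      rw [hA, mem_filter, mem_range] at hp'
      have h4 : 2 * X < p ^ 2 := by
        have : s < p := by omega
        rw [hs, Nat.sqrt_lt'] at this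
        exact this
      have h5 : 2 * X < (n - p) ^ 2 := by
        by_contra h6
        push Not at h6
        have h7 : n - p ≤ s := by rw [hs, Nat.le_sqrt']; exact h6
        exact hcon.2.2 (n - p) (mem_range.2 (by omega)) (by omega)
      exact absurd h5 (not_lt.2 (hcon.1 hp h4))
    have h4 := card_le_card h3
    have h5 := card_union_le A₁ (range (s + 1) ∪ (range (s + 1)).image (fun q => n - q))
    have h6 := card_union_le (range (s + 1)) ((range (s + 1)).image (fun q => n - q))
    have h7 : #((range (s + 1)).image (fun q => n - q)) ≤ #(range (s + 1)) := card_image_le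
    rw [card_range] at h6 h7
    omega
  have h3 : (#A₁ : ℝ) ≤ ∑ p ∈ D ∩ PP (2 * X), pk (fun _ => 1) (2 * X) ((n : ℤ) - p) := by
    have h4 : (#A₁ : ℝ) = ∑ p ∈ A₁, (1 : ℝ) := by simp
    rw [h4]
    have h5 : A₁ ⊆ D ∩ PP (2 * X) := by
      intro p hp
      rw [hA₁, mem_filter, hA, mem_filter, mem_range] at hp
      rw [mem_inter, mem_PP]
      exact ⟨hp.1.2.1, by omega, hp.1.2.2.1, hp.2.1⟩
    have h6 : ∑ p ∈ A₁, (1 : ℝ) = ∑ p ∈ A₁, pk (fun _ => 1) (2 * X) ((n : ℤ) - p) := by
      apply sum_congr rfl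
      intro p hp
      rw [hA₁, mem_filter, hA, mem_filter, mem_range] at hp
      unfold pk
      rw [if_pos]
      have h7 : ((n : ℤ) - p).toNat = n - p := by omega
      rw [h7, mem_PP]
      exact ⟨by omega, hp.1.2.2.2, hp.2.2⟩
    rw [h6]
    apply sum_le_sum_of_subset_of_nonneg h5
    intro p _ _
    unfold pk
    split_ifs <;> norm_num
  have h4 : (#(repsD D n) : ℝ) ≤ 2 * #A := by exact_mod_cast h1
  have h5 : (#A : ℝ) ≤ #A₁ + 2 * (s + 1) := by exact_mod_cast h2
  linarith

/-- residues modulo `W` of an interval -/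
lemma count_res (X W : ℕ) (hW : NeZero W) (hWX : W ≤ X) (T : Finset (ZMod W)) :
    (#((Ioc X (2 * X)).filter (fun n : ℕ => (n : ZMod W) ∈ T)) : ℝ) ≤ 3 * X * (#T / W) := by
  have hW0 : (0 : ℝ) < W := by exact_mod_cast Nat.pos_of_ne_zero (NeZero.ne W)
  have hWp : 0 < W := Nat.pos_of_ne_zero (NeZero.ne W)
  have h1 : #((Ioc X (2 * X)).filter (fun n : ℕ => (n : ZMod W) ∈ T)) ≤ #(T ×ˢ Icc (X / W) (2 * X / W)) := by
    apply card_le_card_of_injOn (fun n : ℕ => ((n : ZMod W), n / W))
    · intro n hn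
      rw [mem_coe, mem_filter, mem_Ioc] at hn
      rw [mem_coe, mem_product, mem_Icc]
      exact ⟨hn.2, Nat.div_le_div_right hn.1.1.le, Nat.div_le_div_right hn.1.2⟩
    · intro a _ b _ hab
      simp only [Prod.mk.injEq] at hab
      have h3 : a % W = b % W := by
        have h4 := congrArg ZMod.val hab.1
        rwa [ZMod.val_natCast, ZMod.val_natCast] at h4
      rw [← Nat.div_add_mod a W, ← Nat.div_add_mod b W, hab.2, h3]
  rw [card_product, Nat.card_Icc] at h1
  have h2 : ((2 * X / W + 1 - X / W : ℕ) : ℝ) ≤ 3 * (X / W) := by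
    have h3 : ((2 * X / W : ℕ) : ℝ) ≤ 2 * X / W := by
      have := Nat.cast_div_le (α := ℝ) (m := 2 * X) (n := W)
      push_cast at this
      exact this
    have h4 : (X : ℝ) / W ≤ (X / W : ℕ) + 1 := by
      have h6 := Nat.lt_div_mul_add (a := X) (b := W) hWp
      rw [div_le_iff₀ hW0]
      have h7 : (X : ℝ) < (X / W : ℕ) * W + W := by exact_mod_cast h6
      linarith
    have h5 : X / W ≤ 2 * X / W + 1 := by
      have : X / W ≤ 2 * X / W := Nat.div_le_div_right (by omega)
      omega
    rw [Nat.cast_sub h5]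
    push_cast
    have h6 : (1 : ℝ) ≤ X / W := by
      rw [le_div_iff₀ hW0, one_mul]; exact_mod_cast hWX
    have h7 : 2 * (X : ℝ) / W = 2 * (X / W) := by ring
    linarith
  calc (#((Ioc X (2 * X)).filter (fun n : ℕ => (n : ZMod W) ∈ T)) : ℝ) ≤ #T * ((2 * X / W + 1 - X / W : ℕ) : ℝ) := by exact_mod_cast h1
    _ ≤ #T * (3 * (X / W)) := mul_le_mul_of_nonneg_left h2 (Nat.cast_nonneg _)
    _ = _ := by ring

/-- Mertens -/
lemma PN_le : ∃ C : ℝ, 1 ≤ C ∧ ∀ n N : ℕ, 3 ≤ N → PN n N ≤ C * Real.log N := by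
  obtain ⟨C, hC, h⟩ := Pool.Agent.W93.HD.Vz_inv_log
  refine ⟨C, hC, fun n N hN => le_trans ?_ (h N hN)⟩
  unfold PN Pool.Agent.H373R2.T7.Vz
  rw [← prod_inv_distrib]
  have h1 : ∀ p ∈ Pool.Agent.H373R2.T7.pz N, (p : ℝ) / (p - 1) = (1 - 1 / (p : ℝ))⁻¹ := by
    intro p hp
    rw [Pool.Agent.H373R2.T7.pz, mem_filter] at hp
    have h2 : (2 : ℝ) ≤ p := by exact_mod_cast hp.2.two_le
    have h3 : (p : ℝ) ≠ 0 := by linarith
    have h4 : (p : ℝ) - 1 ≠ 0 := by linarith
    have h5 : 1 - 1 / (p : ℝ) = (p - 1) / p := by field_simp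
    rw [h5, inv_div]
  rw [← prod_congr rfl h1]
  apply prod_le_prod_of_subset_of_one_le
  · intro q hq
    rw [mem_filter] at hq
    have hqp := Nat.prime_of_mem_primeFactors hq.1
    rw [Pool.Agent.H373R2.T7.pz, mem_filter, mem_Icc]
    exact ⟨⟨hqp.one_lt.le, by omega⟩, hqp⟩
  · intro q hq
    rw [mem_filter] at hq
    have hqp := Nat.prime_of_mem_primeFactors hq.1
    have h2 : (2 : ℝ) ≤ q := by exact_mod_cast hqp.two_le
    apply div_nonneg <;> linarith
  · intro p hp _
    rw [Pool.Agent.H373R2.T7.pz, mem_filter] at hp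
    have h2 : (2 : ℝ) ≤ p := by exact_mod_cast hp.2.two_le
    rw [le_div_iff₀ (by linarith)]
    linarith

/-- the density of the residues with a large value of `Top` -/
lemma few_residues : ∃ c : ℝ, 0 < c ∧ c ≤ 1 ∧ ∀ η κ : ℝ, 0 < η → η ≤ 1 → 0 < κ → 4 ≤ Real.exp (c * (κ / η)) →
    2 + Real.log (1 / η) ≤ Real.exp (c * (κ / η)) → ∀ (W : ℕ) (_ : NeZero W) (d : ZMod W → ℝ), (∀ s, 0 ≤ d s) → (∀ s, d s ≤ 1) →
    (∀ s, ¬ IsUnit s → d s = 0) → ∑ s, d s ≤ η * W.totient →
      (#(univ.filter (fun t => κ < Top d t)) : ℝ) / W ≤ Real.exp 1 * Real.exp (-Real.exp (c / 2 * (κ / η))) := by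
  classical
  obtain ⟨C, hC, hPN⟩ := PN_le
  refine ⟨1 / (2 * Real.exp 5 * C), by positivity, ?_, ?_⟩
  · rw [div_le_one (by positivity)]
    have : 1 ≤ Real.exp 5 := Real.one_le_exp (by norm_num)
    nlinarith
  intro η κ hη hη1 hκ hL4 hL W hW d h0 h1 hu hd
  set c : ℝ := 1 / (2 * Real.exp 5 * C) with hc
  have hc0 : 0 < c := by positivity
  set L : ℝ := c * (κ / η) with hLd
  have hL0 : 0 < L := by positivity
  set N : ℕ := ⌊Real.exp L⌋₊ with hN
  have hN1 : (N : ℝ) ≤ Real.exp L := Nat.floor_le (Real.exp_pos _).le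
  have hN2 : Real.exp L - 1 < N := by
    have := Nat.lt_floor_add_one (Real.exp L)
    rw [← hN] at this; linarith
  have hN4 : 4 ≤ N := by
    rw [hN, Nat.le_floor_iff (Real.exp_pos _).le]
    exact_mod_cast hL4
  have hN0 : (0 : ℝ) < N := by exact_mod_cast (by omega : 0 < N)
  have hW0 : (0 : ℝ) < W := n_pos
  have hlogN : Real.log N ≤ L := by
    rw [← Real.log_exp L]
    exact Real.log_le_log hN0 hN1
  have hmom := moment N (by omega) η (by
    rw [← Real.exp_log hη]
    apply Real.exp_le_exp.2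
    rw [one_div, Real.log_inv] at hL
    linarith) d h0 h1 hu hd
  have hP := hPN W N (by omega)
  have hbase : 2 * Real.exp 4 * η * PN W N ≤ κ * Real.exp (-1) := by
    calc 2 * Real.exp 4 * η * PN W N ≤ 2 * Real.exp 4 * η * (C * L) := by
          apply mul_le_mul_of_nonneg_left _ (by positivity)
          exact hP.trans (mul_le_mul_of_nonneg_left hlogN (by linarith))
      _ = κ * Real.exp (-1) := by
          rw [hLd, hc]
          have h5 : Real.exp 5 = Real.exp 4 * Real.exp 1 := by rw [← Real.exp_add]; norm_num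
          rw [h5, Real.exp_neg]
          have := (Real.exp_pos 1).ne'
          have := (Real.exp_pos 4).ne'
          field_simp
  have hE : E (fun t => Top d t ^ N) ≤ Real.exp 1 * (κ * Real.exp (-1)) ^ N := by
    refine hmom.trans ?_
    apply mul_le_mul_of_nonneg_left _ (Real.exp_pos _).le
    apply pow_le_pow_left₀ _ hbase
    exact mul_nonneg (by positivity) (PN_nonneg W N)
  have hT0 : ∀ t, 0 ≤ Top d t := by
    intro t
    unfold Top
    apply mul_nonneg (by positivity)
    apply sum_nonneg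
    intro s _
    apply mul_nonneg (h0 s)
    split_ifs <;> norm_num
  have hmark : (#(univ.filter (fun t => κ < Top d t)) : ℝ) / W * κ ^ N ≤ E (fun t => Top d t ^ N) := by
    unfold E
    rw [div_mul_eq_mul_div]
    apply div_le_div_of_nonneg_right _ hW0.le
    calc (#(univ.filter (fun t => κ < Top d t)) : ℝ) * κ ^ N = ∑ t ∈ univ.filter (fun t => κ < Top d t), κ ^ N := by
          rw [sum_const, nsmul_eq_mul]
      _ ≤ ∑ t ∈ univ.filter (fun t => κ < Top d t), Top d t ^ N := by
          apply sum_le_sum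
          intro t ht
          exact pow_le_pow_left₀ hκ.le (mem_filter.1 ht).2.le _
      _ ≤ _ := sum_le_sum_of_subset_of_nonneg (filter_subset _ _) (fun t _ _ => pow_nonneg (hT0 t) _)
  have h2 : (#(univ.filter (fun t => κ < Top d t)) : ℝ) / W ≤ Real.exp 1 * Real.exp (-(N : ℝ)) := by
    have h3 := hmark.trans hE
    have h4 : Real.exp 1 * (κ * Real.exp (-1)) ^ N = (Real.exp 1 * Real.exp (-(N : ℝ))) * κ ^ N := by
      rw [mul_pow, ← Real.exp_nat_mul]
      have : (N : ℝ) * -1 = -(N : ℝ) := by ring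
      rw [this]; ring
    rw [h4] at h3
    exact le_of_mul_le_mul_right h3 (by positivity)
  refine h2.trans ?_
  apply mul_le_mul_of_nonneg_left _ (Real.exp_pos _).le
  apply Real.exp_le_exp.2
  have h5 : c / 2 * (κ / η) = L / 2 := by rw [hLd]; ring
  rw [h5]
  have h6 : Real.exp L = Real.exp (L / 2) * Real.exp (L / 2) := by rw [← Real.exp_add]; ring_nf
  have h7 : 2 ≤ Real.exp (L / 2) := by
    by_contra h
    push Not at h
    have h8 := Real.exp_pos (L / 2)
    nlinarith
  nlinarith

end Pool.Agent.W5h22.GS
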