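import Mathlib
import Pool.Agent.W5h22.GS.F

set_option autoImplicit false

/-! The upper bound for the number of integers of which a sparse set captures a given share of the representations. -/

namespace Pool.Agent.W5h22.GS
open Finset Filter
open Pool.Agent.Helper602.MK (PP)
open Pool.Agent.W5h22.PV (mem_PP pk evt_div_log)
open Pool.Agent.W5h22.RB (u E E_mono E_mul tot_pos n_pos)
open Pool.Agent.W93.PG (WinP cnt)
open Pool.Agent.H560R3.GB (sing energy)

lemma ev_sqrt (K δ : ℝ) (hK : 0 < K) (hδ : 0 < δ) : ∀ᶠ X : ℕ in atTop, K * (Nat.sqrt (2 * X) + 1) * Real.log X ^ 2 ≤ δ * X := by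
  have h1 := (isLittleO_log_rpow_rpow_atTop (2 : ℝ) (show (0 : ℝ) < 1 / 2 by norm_num)).bound
    (show 0 < δ / (3 * K) by positivity)
  have h2 := tendsto_natCast_atTop_atTop (R := ℝ) |>.eventually h1
  filter_upwards [h2, eventually_ge_atTop 1] with X hX hX1
  have hX1r : (1 : ℝ) ≤ X := by exact_mod_cast hX1
  have hX0 : (0 : ℝ) ≤ X := by linarith
  have hlog0 : 0 ≤ Real.log (X : ℝ) := Real.log_natCast_nonneg X
  rw [Real.norm_of_nonneg (by positivity), Real.norm_of_nonneg (by positivity), ← Real.sqrt_eq_rpow, Real.rpow_two] at hX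
  have hs : 1 ≤ Real.sqrt X := by
    rw [Real.one_le_sqrt]; exact hX1r
  have h3 : ((Nat.sqrt (2 * X) : ℕ) : ℝ) + 1 ≤ 3 * Real.sqrt X := by
    have h4 : ((Nat.sqrt (2 * X) : ℕ) : ℝ) ≤ Real.sqrt ((2 * X : ℕ) : ℝ) := Real.nat_sqrt_le_real_sqrt
    have h5 : Real.sqrt ((2 * X : ℕ) : ℝ) ≤ 2 * Real.sqrt X := by
      push_cast
      rw [Real.sqrt_mul (by norm_num)]
      apply mul_le_mul_of_nonneg_right _ (Real.sqrt_nonneg _)
      rw [Real.sqrt_le_left (by norm_num)]; norm_num
    linarith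
  have h4 : Real.sqrt X * Real.sqrt X = X := Real.mul_self_sqrt hX0
  calc K * (Nat.sqrt (2 * X) + 1) * Real.log X ^ 2 ≤ K * (3 * Real.sqrt X) * (δ / (3 * K) * Real.sqrt X) := by
        apply mul_le_mul _ hX (by positivity) (by positivity)
        exact mul_le_mul_of_nonneg_left h3 hK.le
    _ = δ * (Real.sqrt X * Real.sqrt X) := by field_simp
    _ = δ * X := by rw [h4]

lemma ev_log2 : ∀ᶠ X : ℕ in atTop, 1 ≤ Real.log X ∧ Real.log (2 * X) ≤ 11 / 10 * Real.log X := by
  have h1 : ∀ᶠ X : ℕ in atTop, (10 : ℝ) ≤ Real.log X :=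
    (Real.tendsto_log_atTop.comp tendsto_natCast_atTop_atTop).eventually_ge_atTop _
  filter_upwards [h1, eventually_ge_atTop 1] with X hX hX1
  have hX0 : (0 : ℝ) < X := by exact_mod_cast hX1
  refine ⟨by linarith, ?_⟩
  rw [Real.log_mul (by norm_num) hX0.ne']
  have := Real.log_two_lt_d9
  linarith

/-- lower bound for the number of representations of a regular integer -/
lemma reps_low : ∀ᶠ X : ℕ in atTop, ∀ n : ℕ, X < n → n ≤ 2 * X → WinP (1 / 10) 2 n →
    1 / 2 * (X / Real.log X ^ 2) ≤ (#(reps n) : ℝ) := by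
  filter_upwards [ev_log2, ev_sqrt 30 1 (by norm_num) (by norm_num), eventually_ge_atTop 3] with X hX1 hX2 hX3
  intro n hn1 hn2 hW
  obtain ⟨hl1, hl2⟩ := hX1
  have hX0 : (0 : ℝ) < X := by exact_mod_cast (by omega : 0 < X)
  have hn0 : (0 : ℝ) < n := by exact_mod_cast (by omega : 0 < n)
  have hXn : (X : ℝ) ≤ n := by exact_mod_cast hn1.le
  have hnX : (n : ℝ) ≤ 2 * X := by exact_mod_cast hn2
  have hln1 : 1 ≤ Real.log n := hl1.trans (Real.log_le_log hX0 hXn)
  have hln2 : Real.log n ≤ 11 / 10 * Real.log X := (Real.log_le_log hn0 hnX).trans hl2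
  have h1 := hW 0 n (by omega) le_rfl (by
    push_cast
    rw [sub_zero]
    apply div_le_self hn0.le
    exact one_le_pow₀ hln1)
  push_cast at h1
  rw [sub_zero] at h1
  have hs := Pool.Agent.W93.GB.one_le_sing n
  have h2 : (n : ℝ) / Real.log n ^ 2 ≤ sing n * n / Real.log n ^ 2 := by
    apply div_le_div_of_nonneg_right _ (by positivity)
    nlinarith
  have h3 : 9 / 10 * ((n : ℝ) / Real.log n ^ 2) ≤ cnt n 0 n := by
    have h4 := (abs_le.1 h1).1
    linarith
  have h4 : 9 / 10 * ((n : ℝ) / Real.log n ^ 2) ≥ 9 / 10 * (X / (11 / 10 * Real.log X) ^ 2) := by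
    apply mul_le_mul_of_nonneg_left _ (by norm_num)
    apply div_le_div₀ hn0.le hXn (by positivity)
    exact pow_le_pow_left₀ (by linarith) hln2 2
  have h5 : 9 / 10 * ((X : ℝ) / (11 / 10 * Real.log X) ^ 2) = 90 / 121 * (X / Real.log X ^ 2) := by
    field_simp
    ring
  have h6 : (cnt n 0 n : ℝ) ≤ #(reps n) + 3 := by exact_mod_cast cnt_reps n
  have h7 : 3 ≤ 1 / 10 * ((X : ℝ) / Real.log X ^ 2) := by
    rw [one_div, inv_mul_eq_div, le_div_iff₀ (by norm_num), le_div_iff₀ (by positivity)]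
    have h8 : (0 : ℝ) ≤ (Nat.sqrt (2 * X) : ℕ) := Nat.cast_nonneg _
    nlinarith [sq_nonneg (Real.log X)]
  have h8 : 0 ≤ (X : ℝ) / Real.log X ^ 2 := by positivity
  linarith

theorem upper : ∃ c B C : ℝ, 0 < c ∧ 0 < B ∧ 0 < C ∧ ∀ η ε : ℝ, 0 < η → η ≤ 1 → 0 < ε → ε ≤ 1 →
    B * (η * Real.log (2 + Real.log (1 / η))) ≤ ε → ∀ᶠ X : ℕ in atTop, ∀ D : Finset ℕ, (#D : ℝ) ≤ η * (X / Real.log X) →
      ∀ S : Finset ℕ, (∀ n ∈ S, X < n ∧ n ≤ 2 * X ∧ Even n ∧ ¬ (0 < #(reps n) ∧ (#(repsD D n) : ℝ) ≤ ε * #(reps n))) →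
        (#S : ℝ) ≤ C * Real.exp (-Real.exp (c * (ε / η))) * X := by
  classical
  obtain ⟨C₁, hC₁, c₁, hc₁, hmod⟩ := model_bound
  obtain ⟨c₂, hc₂, hc₂1, hres⟩ := few_residues
  refine ⟨c₂ / (80 * C₁), 1 / (2 * (c₂ / (80 * C₁))), 2 + 3 * Real.exp 1 + Real.exp 2, by positivity, by positivity, by positivity, ?_⟩
  intro η ε hη hη1 hε hε1 hB
  set c : ℝ := c₂ / (80 * C₁) with hc
  have hc0 : 0 < c := by positivity
  set κ : ℝ := ε / (40 * C₁) with hκ
  have hκ0 : 0 < κ := by positivity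
  have hL : c₂ * (κ / η) = 2 * (c * (ε / η)) := by
    rw [hκ, hc]; field_simp; ring
  have hL2 : c₂ / 2 * (κ / η) = c * (ε / η) := by
    rw [hκ, hc]; field_simp; ring
  rcases lt_or_ge (Real.exp (c₂ * (κ / η))) 4 with h4 | h4
  · -- trivial range
    filter_upwards [eventually_ge_atTop 1] with X hX
    intro D _ S hS
    have h5 : Real.exp (c * (ε / η)) < 2 := by
      have h6 : Real.exp (c₂ * (κ / η)) = Real.exp (c * (ε / η)) * Real.exp (c * (ε / η)) := by
        rw [hL, ← Real.exp_add]; ring_nf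
      have := Real.exp_pos (c * (ε / η))
      by_contra h
      push Not at h
      nlinarith
    have h6 : (#S : ℝ) ≤ X := by
      have h7 : S ⊆ Ioc X (2 * X) := by
        intro n hn
        have := hS n hn
        rw [mem_Ioc]
        exact ⟨this.1, this.2.1⟩
      have h8 := card_le_card h7
      rw [Nat.card_Ioc] at h8
      exact_mod_cast (by omega : #S ≤ X)
    have h7 : 1 ≤ (2 + 3 * Real.exp 1 + Real.exp 2) * Real.exp (-Real.exp (c * (ε / η))) := by
      have h8 : Real.exp (-2) ≤ Real.exp (-Real.exp (c * (ε / η))) := Real.exp_le_exp.2 (by linarith)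
      have h9 : Real.exp 2 * Real.exp (-2) = 1 := by rw [← Real.exp_add]; norm_num
      have h10 : 0 < Real.exp (-Real.exp (c * (ε / η))) := Real.exp_pos _
      have h11 : 0 < Real.exp 1 := Real.exp_pos _
      have h12 : 0 < Real.exp 2 := Real.exp_pos _
      nlinarith
    have hX0 : (0 : ℝ) ≤ X := Nat.cast_nonneg _
    nlinarith
  · set P : ℝ := Real.exp (-Real.exp (c * (ε / η))) with hP
    have hP0 : 0 < P := Real.exp_pos _
    set ρ : ℝ := min (ε / 40) P with hρ
    have hρ0 : 0 < ρ := by positivity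
    have hρε : ρ ≤ ε / 40 := min_le_left _ _
    have hρP : ρ ≤ P := min_le_right _ _
    obtain ⟨W, hW, τ, hτ, hτ1, htr⟩ := transferG ρ hρ0
    have hWne : NeZero W := ⟨by omega⟩
    filter_upwards [htr, hmod W hW τ hτ hWne, win_all (1 / 10) (by norm_num) ρ hρ0, reps_low, ev_log2,
      ev_sqrt 4 (ε / 20) (by norm_num) (by positivity), eventually_ge_atTop (W + 3)] with X h1 h2 h3 h5 h6 h7 h8
    intro D hD S hS
    obtain ⟨hl1, -⟩ := h6
    have hX0 : (0 : ℝ) < X := by exact_mod_cast (by omega : 0 < X)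
    set D' := D ∩ PP (2 * X) with hD'
    have hD'sub : D' ⊆ PP (2 * X) := inter_subset_right
    obtain ⟨m1, m2, m3⟩ := h2 D' hD'sub
    have t1 := h1 D' hD'sub
    set T : Finset (ZMod W) := univ.filter (fun t => κ < Top (dd c₁ D' X W) t) with hT
    have hcardD' : (#D' : ℝ) ≤ η * (X / Real.log X) := by
      refine le_trans ?_ hD
      exact_mod_cast card_le_card inter_subset_left
    have hsum : ∑ σ : ZMod W, dd c₁ D' X W σ ≤ η * W.totient := by
      rw [m2]
      have hφ : (0 : ℝ) < W.totient := tot_pos W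
      rw [div_le_iff₀ (by positivity)]
      calc (#D' : ℝ) * W.totient * Real.log X ≤ (η * (X / Real.log X)) * W.totient * Real.log X := by gcongr
        _ = (η * W.totient) * (1 * X) := by field_simp
        _ ≤ (η * W.totient) * (c₁ * X) := by gcongr
    have hTs := hres η κ hη hη1 hκ0 h4 (by
      have h9 : Real.log (2 + Real.log (1 / η)) ≤ c₂ * (κ / η) := by
        rw [hL]
        rw [one_div, ← div_eq_inv_mul, div_le_iff₀ (by positivity)] at hB
        have h10 : 2 * (c * (ε / η)) = ε * (2 * c) / η := by ring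
        rw [h10, le_div_iff₀ hη]
        linarith
      have hpos : 0 < 2 + Real.log (1 / η) := by
        have : 0 ≤ Real.log (1 / η) := by
          apply Real.log_nonneg
          rw [le_div_iff₀ hη]; linarith
        linarith
      rw [← Real.exp_log hpos]
      exact Real.exp_le_exp.2 h9) W hWne (dd c₁ D' X W) (fun s => (m1 s).1) (fun s => (m1 s).2.1)
      (fun s hs => (m1 s).2.2 hs) hsum
    rw [hL2] at hTs
    set A₁ := S.filter (fun n => ¬ WinP (1 / 10) 2 n) with hA₁
    set A₂ := (Ioc X (2 * X)).filter (fun n : ℕ => ρ * ((X : ℝ) / Real.log X ^ 2) <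
        |∑ p ∈ D', pk (fun _ => 1) (2 * X) ((n : ℤ) - p) -
          ∑ p ∈ D', u (fun _ => 1) (2 * X) W ⌊τ * X / W⌋₊ ((n : ℤ) - p)|) with hA₂
    set A₃ := (Ioc X (2 * X)).filter (fun n : ℕ => (n : ZMod W) ∈ T) with hA₃
    have b1 : (#A₁ : ℝ) ≤ ρ * X := by
      apply h3 A₁
      intro n hn
      rw [hA₁, mem_filter] at hn
      have := hS n hn.1
      exact ⟨this.1, this.2.1, this.2.2.1, hn.2⟩
    have b3 : (#A₃ : ℝ) ≤ 3 * X * (Real.exp 1 * P) := by
      refine (count_res X W hWne (by omega) T).trans ?_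
      exact mul_le_mul_of_nonneg_left hTs (by positivity)
    have hsub : S ⊆ A₁ ∪ (A₂ ∪ A₃) := by
      intro n hn
      obtain ⟨n1, n2, n3, n4⟩ := hS n hn
      have hnI : n ∈ Ioc X (2 * X) := mem_Ioc.2 ⟨n1, n2⟩
      rw [mem_union, mem_union, hA₁, hA₂, hA₃, mem_filter, mem_filter, mem_filter]
      by_contra hcon
      push Not at hcon
      obtain ⟨q1, q2, q3⟩ := hcon
      have q1' := q1 hn
      have q2' := q2 hnI
      have q3' := q3 hnI
      apply n4
      have r1 := h5 n n1 n2 q1'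
      have hQ : 0 < (X : ℝ) / Real.log X ^ 2 := by positivity
      have r2 : (0 : ℝ) < #(reps n) := by linarith
      refine ⟨by exact_mod_cast r2, ?_⟩
      have r3 := repsD_le X D n n2
      rw [← hD'] at r3
      have r4 : Top (dd c₁ D' X W) ((n : ℕ) : ZMod W) ≤ κ := by
        rw [hT, mem_filter] at q3'
        push Not at q3'
        exact q3' (mem_univ _)
      have r5 := m3 (n : ℤ)
      rw [Int.cast_natCast] at r5
      have r6 : C₁ * (X / Real.log X ^ 2) * Top (dd c₁ D' X W) ((n : ℕ) : ZMod W) ≤ ε / 40 * (X / Real.log X ^ 2) := by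
        calc C₁ * (X / Real.log X ^ 2) * Top (dd c₁ D' X W) ((n : ℕ) : ZMod W) ≤ C₁ * (X / Real.log X ^ 2) * κ :=
              mul_le_mul_of_nonneg_left r4 (by positivity)
          _ = _ := by rw [hκ]; field_simp
      have r7 := (abs_le.1 q2').2
      have r8 : ρ * ((X : ℝ) / Real.log X ^ 2) ≤ ε / 40 * (X / Real.log X ^ 2) := mul_le_mul_of_nonneg_right hρε hQ.le
      have r9 : 4 * ((Nat.sqrt (2 * X) : ℕ) + 1 : ℝ) ≤ ε / 20 * (X / Real.log X ^ 2) := by
        rw [← mul_div_assoc, le_div_iff₀ (by positivity)]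
        exact h7
      have r10 : ε * (1 / 2 * (X / Real.log X ^ 2)) ≤ ε * #(reps n) := mul_le_mul_of_nonneg_left r1 hε.le
      have r11 : 0 < ε * (X / Real.log X ^ 2) := by positivity
      linarith
    have hfin : (#S : ℝ) ≤ #A₁ + (#A₂ + #A₃) := by
      exact_mod_cast (card_le_card hsub).trans ((card_union_le _ _).trans (Nat.add_le_add_left (card_union_le _ _) _))
    have hρX : ρ * X ≤ P * X := mul_le_mul_of_nonneg_right hρP hX0.le
    have h12 : 0 ≤ Real.exp 2 * P * X := by positivity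
    calc (#S : ℝ) ≤ #A₁ + (#A₂ + #A₃) := hfin
      _ ≤ P * X + (P * X + 3 * X * (Real.exp 1 * P)) := by linarith
      _ ≤ (2 + 3 * Real.exp 1 + Real.exp 2) * P * X := by linarith

end Pool.Agent.W5h22.GS
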