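import Mathlib
import Pool.Agent.W5h22.GS.G
import Pool.Agent.W93.HD4

set_option autoImplicit false

/-! The example which shows that the upper bound has the right order. -/

namespace Pool.Agent.W5h22.GS
open Finset Filter
open Pool.Agent.Helper602.MK (PP)
open Pool.Agent.W5h22.PV (mem_PP pk evt_div_log)
open Pool.Agent.W5h22.RB (u E E_mono E_mul tot_pos n_pos)
open Pool.Agent.W93.PG (WinP cnt)
open Pool.Agent.H560R3.GB (sing energy)
open Pool.Agent.H373R2.T7 (pz Vz)

/-- the product of the primes up to `w` -/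
def PM (w : ℕ) : ℕ := ∏ p ∈ pz w, p

lemma pz_prime (w : ℕ) : ∀ p ∈ pz w, p.Prime := fun p hp => by
  rw [pz, mem_filter] at hp; exact hp.2

lemma PM_pos (w : ℕ) : 0 < PM w := prod_pos fun p hp => (pz_prime w p hp).pos

lemma PM_primes (w : ℕ) : (PM w).primeFactors = pz w := Nat.primeFactors_prod (pz_prime w)

lemma PM_le (w : ℕ) : PM w ≤ 4 ^ w := by
  refine le_trans (le_of_eq ?_) (primorial_le_four_pow w)
  unfold PM primorial
  apply prod_congr _ (fun _ _ => rfl)
  ext p
  rw [pz, mem_filter, mem_filter, mem_Icc, mem_range]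
  constructor
  · rintro ⟨⟨_, h1⟩, h2⟩; exact ⟨by omega, h2⟩
  · rintro ⟨h1, h2⟩; exact ⟨⟨h2.one_lt.le, by omega⟩, h2⟩

lemma large_unit (w q : ℕ) (hq : q.Prime) (hw : w < q) : IsUnit ((q : ℕ) : ZMod (PM w)) := by
  rw [ZMod.isUnit_iff_coprime, Nat.Prime.coprime_iff_not_dvd hq]
  intro h
  have h1 : q ∈ (PM w).primeFactors := Nat.mem_primeFactors.2 ⟨hq, h, (PM_pos w).ne'⟩
  rw [PM_primes, pz, mem_filter, mem_Icc] at h1
  omega

/-- the number of the classes `σ` for which `σ` and `2 - σ` are reduced -/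
lemma two_classes (w : ℕ) (hw : 3 ≤ w) (_ : NeZero (PM w)) :
    (#(univ.filter (fun σ : ZMod (PM w) => IsUnit σ ∧ IsUnit (2 - σ))) : ℝ) ≤ 2 * Vz w * (PM w).totient := by
  classical
  set n := PM w with hn
  have hn0 : (0 : ℝ) < n := n_pos
  have h1 := E_unit (n := n) [0, 2]
  have h2 : E (fun t : ZMod n => (([0, 2] : List (ZMod n)).map (fun s => (if IsUnit (t - s) then 1 else 0 : ℝ))).prod) =
      (#(univ.filter (fun σ : ZMod n => IsUnit σ ∧ IsUnit (2 - σ))) : ℝ) / n := by
    unfold E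
    congr 1
    have h3 : ∀ t : ZMod n, (([0, 2] : List (ZMod n)).map (fun s => (if IsUnit (t - s) then 1 else 0 : ℝ))).prod =
        if IsUnit t ∧ IsUnit (2 - t) then 1 else 0 := by
      intro t
      simp only [List.map_cons, List.map_nil, List.prod_cons, List.prod_nil, mul_one, sub_zero]
      have h4 : IsUnit (t - 2) ↔ IsUnit (2 - t) := by
        rw [← neg_sub, IsUnit.neg_iff]
      by_cases h5 : IsUnit t <;> by_cases h6 : IsUnit (2 - t) <;> simp [h4, h5, h6]
    simp_rw [h3]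
    rw [← sum_filter, sum_const, nsmul_eq_mul, mul_one]
  rw [h2] at h1
  have h3 : ∏ q ∈ n.primeFactors, (1 - (#(im q ([0, 2] : List (ZMod n))) : ℝ) / q) ≤
      ∏ q ∈ n.primeFactors, ((1 - 1 / (q : ℝ)) * (if q = 2 then 1 else 1 - 1 / (q : ℝ))) := by
    have hprime : ∀ q ∈ n.primeFactors, q.Prime := fun q hq => Nat.prime_of_mem_primeFactors hq
    apply Finset.prod_le_prod
    · intro q hq
      have hqp := hprime q hq
      have : NeZero q := ⟨hqp.ne_zero⟩
      have hq0 : (0 : ℝ) < q := by exact_mod_cast hqp.pos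
      have h1 : #(im q ([0, 2] : List (ZMod n))) ≤ q := by
        calc #(im q ([0, 2] : List (ZMod n))) ≤ #(univ : Finset (ZMod q)) := card_le_card (subset_univ _)
          _ = q := by rw [card_univ, ZMod.card]
      have h2 : (#(im q ([0, 2] : List (ZMod n))) : ℝ) / q ≤ 1 := by
        rw [div_le_one hq0]; exact_mod_cast h1
      linarith
    · intro q hq
      have hqp := hprime q hq
      have hq2 : (2 : ℝ) ≤ q := by exact_mod_cast hqp.two_le
      have hq0 : (0 : ℝ) < q := by linarith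
      have hdvd := Nat.dvd_of_mem_primeFactors hq
      have hmem0 : (0 : ZMod q) ∈ im q ([0, 2] : List (ZMod n)) := by
        rw [mem_im]
        exact ⟨0, by simp, map_zero (ZMod.castHom hdvd (ZMod q))⟩
      by_cases h2 : q = 2
      · rw [if_pos h2, mul_one]
        have h4 : 1 ≤ #(im q ([0, 2] : List (ZMod n))) := card_pos.2 ⟨0, hmem0⟩
        have h5 : (1 : ℝ) / q ≤ (#(im q ([0, 2] : List (ZMod n))) : ℝ) / q := by
          apply div_le_div_of_nonneg_right _ hq0.le
          exact_mod_cast h4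
        linarith
      · rw [if_neg h2]
        have hmem2 : (2 : ZMod q) ∈ im q ([0, 2] : List (ZMod n)) := by
          rw [mem_im]
          exact ⟨2, by simp, map_ofNat (ZMod.castHom hdvd (ZMod q)) 2⟩
        have hne : (0 : ZMod q) ≠ 2 := by
          intro h
          have h5 : ((2 : ℕ) : ZMod q) = 0 := by rw [h]; norm_cast
          rw [ZMod.natCast_eq_zero_iff] at h5
          have := (Nat.prime_dvd_prime_iff_eq hqp Nat.prime_two).1 h5
          exact h2 this
        have h4 : 2 ≤ #(im q ([0, 2] : List (ZMod n))) := by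
          rw [← card_pair hne]
          apply card_le_card
          intro x hx
          rw [mem_insert, mem_singleton] at hx
          rcases hx with rfl | rfl
          · exact hmem0
          · exact hmem2
        have h5 : (2 : ℝ) / q ≤ (#(im q ([0, 2] : List (ZMod n))) : ℝ) / q := by
          apply div_le_div_of_nonneg_right _ hq0.le
          exact_mod_cast h4
        have h6 : (1 - 1 / (q : ℝ)) * (1 - 1 / (q : ℝ)) = 1 - 2 / q + 1 / q ^ 2 := by
          field_simp; ring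
        have h7 : 0 ≤ 1 / (q : ℝ) ^ 2 := by positivity
        linarith
  rw [prod_mul_distrib] at h3
  have h4 : ∏ q ∈ n.primeFactors, (if q = 2 then (1 : ℝ) else 1 - 1 / (q : ℝ)) = 2 * Vz w := by
    rw [hn, PM_primes]
    unfold Vz
    have h2m : 2 ∈ pz w := by rw [pz, mem_filter, mem_Icc]; exact ⟨⟨by norm_num, by omega⟩, Nat.prime_two⟩
    rw [← mul_prod_erase _ _ h2m, ← mul_prod_erase _ _ h2m, if_pos rfl]
    have h5 : ∏ q ∈ (pz w).erase 2, (if q = 2 then (1 : ℝ) else 1 - 1 / (q : ℝ)) = ∏ q ∈ (pz w).erase 2, (1 - 1 / (q : ℝ)) := by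
      apply prod_congr rfl
      intro q hq
      rw [if_neg (ne_of_mem_erase hq)]
    rw [h5]
    push_cast
    ring
  rw [h4] at h3
  have h5 := tot_prod n
  have h6 : (#(univ.filter (fun σ : ZMod n => IsUnit σ ∧ IsUnit (2 - σ))) : ℝ) / n * n ≤
      ((∏ q ∈ n.primeFactors, (1 - 1 / (q : ℝ))) * (2 * Vz w)) * n := by
    rw [h1]; exact mul_le_mul_of_nonneg_right h3 hn0.le
  rw [div_mul_cancel₀ _ hn0.ne'] at h6
  calc _ ≤ ((∏ q ∈ n.primeFactors, (1 - 1 / (q : ℝ))) * (2 * Vz w)) * n := h6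
    _ = 2 * Vz w * (n * ∏ q ∈ n.primeFactors, (1 - 1 / (q : ℝ))) := by ring
    _ = _ := by rw [h5]

open Classical in
/-- the example -/
noncomputable def DX (w y : ℕ) : Finset ℕ :=
  (Icc 1 y).filter (fun p => p.Prime ∧ (p ≤ w ∨ IsUnit ((2 : ZMod (PM w)) - (p : ZMod (PM w)))))

lemma mem_DX (w y p : ℕ) : p ∈ DX w y ↔ (1 ≤ p ∧ p ≤ y) ∧ p.Prime ∧ (p ≤ w ∨ IsUnit ((2 : ZMod (PM w)) - (p : ZMod (PM w)))) := by
  simp only [DX, mem_filter, mem_Icc]

/-- the size of the example -/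
lemma card_DX : ∃ C : ℝ, 1 ≤ C ∧ ∀ w : ℕ, 3 ≤ w → ∀ᶠ y : ℕ in atTop,
    (#(DX w y) : ℝ) ≤ w + C / Real.log w * (y / Real.log y) := by
  classical
  obtain ⟨C₁, hC₁, hbt⟩ := bt_class
  obtain ⟨C₂, hC₂, hV⟩ := Pool.Agent.W93.HD.Vz_log_le
  refine ⟨2 * C₂ * C₁, by nlinarith, ?_⟩
  intro w hw
  have hne : NeZero (PM w) := ⟨(PM_pos w).ne'⟩
  have hφ : (0 : ℝ) < (PM w).totient := tot_pos _
  have hlw : 0 < Real.log w := Real.log_pos (by exact_mod_cast (by omega : 1 < w))
  filter_upwards [hbt (PM w) (PM_pos w), eventually_ge_atTop 3] with y hy hy3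
  have hly : 0 < Real.log y := Real.log_pos (by exact_mod_cast (by omega : 1 < y))
  have hy0 : (0 : ℝ) < y := by exact_mod_cast (by omega : 0 < y)
  set D₂ := (DX w y).filter (fun p => w < p) with hD₂
  have h1 : #(DX w y) ≤ w + #D₂ := by
    have h2 : DX w y ⊆ Icc 1 w ∪ D₂ := by
      intro p hp
      rw [mem_union, mem_Icc, hD₂, mem_filter]
      have := (mem_DX w y p).1 hp
      by_cases h : p ≤ w
      · exact Or.inl ⟨this.1.1, h⟩
      · exact Or.inr ⟨hp, by omega⟩
    have h3 := (card_le_card h2).trans (card_union_le _ _)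
    rwa [Nat.card_Icc, Nat.add_sub_cancel] at h3
  have hD₂p : ∀ p ∈ D₂, p.Prime ∧ p ≤ y := by
    intro p hp
    rw [hD₂, mem_filter, mem_DX] at hp
    exact ⟨hp.1.2.1, hp.1.1.2⟩
  have h2 : (#D₂ : ℝ) ≤ #(univ.filter (fun σ : ZMod (PM w) => IsUnit σ ∧ IsUnit (2 - σ))) * (C₁ * y / ((PM w).totient * Real.log y)) := by
    have h3 := sum_fib (W := PM w) D₂ (fun _ => 1)
    simp only [sum_const, nsmul_eq_mul, mul_one] at h3
    rw [h3]
    have h4 : ∀ σ : ZMod (PM w), (#(D₂.filter (fun p : ℕ => (p : ZMod (PM w)) = σ)) : ℝ) ≤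
        if IsUnit σ ∧ IsUnit (2 - σ) then C₁ * y / ((PM w).totient * Real.log y) else 0 := by
      intro σ
      split_ifs with h
      · exact hy D₂ hD₂p σ
      · rw [filter_eq_empty_iff.2]
        · simp
        · intro p hp h5
          rw [hD₂, mem_filter, mem_DX] at hp
          apply h
          rw [← h5]
          refine ⟨large_unit w p hp.1.2.1 hp.2, ?_⟩
          rcases hp.1.2.2 with h6 | h6
          · omega
          · exact h6
    refine (sum_le_sum fun σ _ => h4 σ).trans (le_of_eq ?_)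
    rw [← sum_filter, sum_const, nsmul_eq_mul]
  have h3 := two_classes w hw hne
  have h4 : Vz w ≤ C₂ / Real.log w := by
    rw [le_div_iff₀ hlw]; exact hV w hw
  have h5 : (#D₂ : ℝ) ≤ 2 * C₂ * C₁ / Real.log w * (y / Real.log y) := by
    calc (#D₂ : ℝ) ≤ _ := h2
      _ ≤ (2 * Vz w * (PM w).totient) * (C₁ * y / ((PM w).totient * Real.log y)) := mul_le_mul_of_nonneg_right h3 (by positivity)
      _ ≤ (2 * (C₂ / Real.log w) * (PM w).totient) * (C₁ * y / ((PM w).totient * Real.log y)) := by gcongr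
      _ = _ := by field_simp
  have h6 : (#(DX w y) : ℝ) ≤ w + #D₂ := by exact_mod_cast h1
  linarith

/-- the integers `n ≡ 2` modulo `PM w` in `(X, 2 X]` -/
def NX (w X : ℕ) : Finset ℕ := (Ioc (X / PM w) ((2 * X - 2) / PM w)).image (fun i => PM w * i + 2)

lemma NX_mem (w X n : ℕ) (hw : 2 ≤ w) (hX : 1 ≤ X) (hn : n ∈ NX w X) : X < n ∧ n ≤ 2 * X ∧ Even n ∧ (n : ZMod (PM w)) = 2 := by
  rw [NX, mem_image] at hn
  obtain ⟨i, hi, rfl⟩ := hn
  rw [mem_Ioc] at hi
  have hpos := PM_pos w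
  refine ⟨?_, ?_, ?_, ?_⟩
  · have h1 := Nat.lt_mul_div_succ X hpos
    have h2 : PM w * (X / PM w + 1) ≤ PM w * i := Nat.mul_le_mul_left _ hi.1
    omega
  · have h1 : PM w * i ≤ PM w * ((2 * X - 2) / PM w) := Nat.mul_le_mul_left _ hi.2
    have h2 := Nat.mul_div_le (2 * X - 2) (PM w)
    omega
  · have h2 : 2 ∣ PM w := by
      apply dvd_prod_of_mem (fun p => p)
      rw [pz, mem_filter, mem_Icc]
      exact ⟨⟨by norm_num, hw⟩, Nat.prime_two⟩
    exact Even.add ((even_iff_two_dvd.2 h2).mul_right i) even_two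
  · push_cast
    rw [ZMod.natCast_self, zero_mul, zero_add]

lemma PM_two (w : ℕ) (hw : 2 ≤ w) : 2 ≤ PM w := by
  apply Nat.le_of_dvd (PM_pos w)
  apply dvd_prod_of_mem (fun p => p)
  rw [pz, mem_filter, mem_Icc]
  exact ⟨⟨by norm_num, hw⟩, Nat.prime_two⟩

lemma NX_card (w X : ℕ) (hw : 2 ≤ w) (hX : 4 * PM w ≤ X) : (X : ℝ) / (2 * PM w) ≤ #(NX w X) := by
  have hpos := PM_pos w
  have hpos' : (0 : ℝ) < PM w := by exact_mod_cast hpos
  rw [NX, card_image_of_injective, Nat.card_Ioc]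
  · have h1 : X / PM w ≤ (2 * X - 2) / PM w := Nat.div_le_div_right (by omega)
    rw [Nat.cast_sub h1]
    have h3 : ((X / PM w : ℕ) : ℝ) ≤ X / PM w := Nat.cast_div_le
    have h4 : ((2 * X - 2 : ℕ) : ℝ) / PM w ≤ ((2 * X - 2) / PM w : ℕ) + 1 := by
      have h6 := Nat.lt_div_mul_add (a := 2 * X - 2) (b := PM w) hpos
      rw [div_le_iff₀ hpos']
      have h7 : ((2 * X - 2 : ℕ) : ℝ) < ((2 * X - 2) / PM w : ℕ) * PM w + PM w := by exact_mod_cast h6
      linarith
    rw [Nat.cast_sub (by omega)] at h4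
    push_cast at h4
    have h5 : (4 : ℝ) ≤ X / PM w := by
      rw [le_div_iff₀ hpos']; exact_mod_cast hX
    have h6 : (2 * (X : ℝ) - 2) / PM w = 2 * (X / PM w) - 2 / PM w := by ring
    have h7 : 2 / (PM w : ℝ) ≤ 1 := by
      rw [div_le_one hpos']
      exact_mod_cast PM_two w hw
    have h8 : (X : ℝ) / (2 * PM w) = (X / PM w) / 2 := by ring
    rw [h8]
    linarith
  · intro a b hab
    simp only [Nat.add_right_cancel_iff] at hab
    exact Nat.eq_of_mul_eq_mul_left hpos hab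

lemma win_reps (X n : ℕ) (hX : 3 ≤ X) (h1 : X < n) (hl : 1 ≤ Real.log X) (hW : WinP (1 / 10) 2 n) :
    (#(reps n) : ℝ) ≤ 11 / 10 * (sing n * n / Real.log n ^ 2) := by
  have hX0 : (0 : ℝ) < X := by exact_mod_cast (by omega : 0 < X)
  have hn0 : (0 : ℝ) < n := by exact_mod_cast (by omega : 0 < n)
  have hXn : (X : ℝ) ≤ n := by exact_mod_cast h1.le
  have hln1 : 1 ≤ Real.log n := hl.trans (Real.log_le_log hX0 hXn)
  have h2 := hW 0 n (by omega) le_rfl (by
    push_cast
    rw [sub_zero]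
    apply div_le_self hn0.le
    exact one_le_pow₀ hln1)
  push_cast at h2
  rw [sub_zero] at h2
  have h3 : #(reps n) ≤ cnt n 0 n := by
    unfold cnt
    apply card_le_card
    intro p hp
    rw [reps, mem_filter, mem_range] at hp
    rw [mem_filter, mem_Ioc]
    exact ⟨⟨hp.2.1.pos, hp.1.le⟩, hp.2.1, hp.2.2.1⟩
  have h4 : (#(reps n) : ℝ) ≤ cnt n 0 n := by exact_mod_cast h3
  have h5 := (abs_le.1 h2).2
  linarith

/-- for `n ≡ 2` the example captures all representations with `p ≤ y` -/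
lemma captured (w y n : ℕ) (hn : (n : ZMod (PM w)) = 2) : cnt n 0 (min y n) ≤ #(repsD (DX w y) n) + (3 + (w + 1)) := by
  unfold cnt
  have h1 : (Ioc 0 (min y n)).filter (fun p => p.Prime ∧ (n - p).Prime) ⊆ repsD (DX w y) n ∪ ({2, n - 2, n / 2} ∪ (range (w + 1)).image (fun q => n - q)) := by
    intro p hp
    rw [mem_filter, mem_Ioc] at hp
    rw [mem_union, repsD, mem_filter, reps, mem_filter, mem_range, mem_union, mem_insert, mem_insert, mem_singleton]
    by_contra hcon
    push Not at hcon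
    obtain ⟨hc1, ⟨hc2, hc3, hc4⟩, hc5⟩ := hcon
    obtain ⟨⟨h1, h2⟩, h3, h4⟩ := hp
    rw [le_min_iff] at h2
    have h5 : p < n := by
      rcases h2.2.lt_or_eq with h | h
      · exact h
      · rw [h, Nat.sub_self] at h4
        exact absurd h4 Nat.not_prime_zero
    have h6 : w < n - p := by
      by_contra h
      push Not at h
      apply hc5
      rw [mem_image]
      exact ⟨n - p, mem_range.2 (by omega), by omega⟩
    have h7 := large_unit w (n - p) h4 h6
    have h8 : ((n - p : ℕ) : ZMod (PM w)) = 2 - (p : ZMod (PM w)) := by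
      rw [Nat.cast_sub h5.le, hn]
    rw [h8] at h7
    have h9 : p ∈ DX w y := (mem_DX w y p).2 ⟨⟨h1, h2.1⟩, h3, Or.inr h7⟩
    have h10 := hc1 ⟨h5, h3, h4, hc2, by omega, by omega⟩
    exact h10.1 h9
  refine (card_le_card h1).trans ((card_union_le _ _).trans ?_)
  have h2 : #({2, n - 2, n / 2} : Finset ℕ) ≤ 3 := card_le_three
  have h3 : #((range (w + 1)).image (fun q => n - q)) ≤ w + 1 := card_image_le.trans (by rw [card_range])
  have h4 := card_union_le ({2, n - 2, n / 2} : Finset ℕ) ((range (w + 1)).image (fun q => n - q))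
  omega

/-- for `n ≡ 2` and `y ≥ n` the example captures everything -/
lemma captured_all (w y n : ℕ) (hny : n ≤ y) (hn : (n : ZMod (PM w)) = 2) : repsD (DX w y) n = reps n := by
  unfold repsD
  rw [filter_eq_self]
  intro p hp
  rw [reps, mem_filter, mem_range] at hp
  obtain ⟨h1, h2, h3, -⟩ := hp
  by_cases h4 : w < n - p
  · left
    have h7 := large_unit w (n - p) h3 h4
    have h8 : ((n - p : ℕ) : ZMod (PM w)) = 2 - (p : ZMod (PM w)) := by
      rw [Nat.cast_sub h1.le, hn]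
    rw [h8] at h7
    exact (mem_DX w y p).2 ⟨⟨h2.pos, by omega⟩, h2, Or.inr h7⟩
  · right
    exact (mem_DX w y _).2 ⟨⟨h3.pos, by omega⟩, h3, Or.inl (by omega)⟩

end Pool.Agent.W5h22.GS
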