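import Mathlib
import Pool.Agent.W5h22.GS.H

set_option autoImplicit false

/-! Sparse sets of primes which capture a given share of the Goldbach representations of many integers. -/

namespace Pool.Agent.W5h22.GS
open Finset Filter
open Pool.Agent.W93.PG (WinP cnt)
open Pool.Agent.H560R3.GB (sing energy)

/-- the size of the example -/
lemma size_DX : ∃ C : ℝ, 1 ≤ C ∧ ∀ ε η : ℝ, 0 < ε → 0 < η → ∀ w : ℕ, 3 ≤ w → C * (ε / η) ≤ Real.log w →
    ∀ y : ℕ → ℕ, (∀ᶠ X : ℕ in atTop, (y X : ℝ) ≤ 12 * ε * X ∧ (X : ℝ) ^ (1 / 2 : ℝ) ≤ y X) →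
      ∀ᶠ X : ℕ in atTop, (#(DX w (y X)) : ℝ) ≤ η * (X / Real.log X) := by
  obtain ⟨C₁, hC₁, hcard⟩ := card_DX
  refine ⟨48 * C₁, by linarith, ?_⟩
  intro ε η hε hη w hw hlw y hy
  have hlw0 : 0 < Real.log w := Real.log_pos (by exact_mod_cast (by omega : 1 < w))
  have hyt : Tendsto y atTop atTop := by
    rw [tendsto_atTop]
    intro b
    have h1 : ∀ᶠ X : ℕ in atTop, (b : ℝ) ≤ (X : ℝ) ^ (1 / 2 : ℝ) :=
      ((tendsto_rpow_atTop (by norm_num : (0 : ℝ) < 1 / 2)).comp tendsto_natCast_atTop_atTop).eventually_ge_atTop _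
    filter_upwards [h1, hy] with X h2 h3
    exact_mod_cast h2.trans h3.2
  filter_upwards [hyt.eventually (hcard w hw), hy, Pool.Agent.W5h22.PV.evt_div_log (w : ℝ) (η / 2) (by positivity),
    eventually_ge_atTop 3] with X h1 h2 h3 h4
  have hX0 : (0 : ℝ) < X := by exact_mod_cast (by omega : 0 < X)
  have hlX : 0 < Real.log X := Real.log_pos (by exact_mod_cast (by omega : 1 < X))
  have hly : Real.log X / 2 ≤ Real.log (y X) := by
    have h6 := Real.log_le_log (by positivity) h2.2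
    rw [Real.log_rpow hX0] at h6
    linarith
  have h5 : (y X : ℝ) / Real.log (y X) ≤ 12 * ε * X / (Real.log X / 2) := by
    apply div_le_div₀ (by positivity) h2.1 (by positivity) hly
  have h6 : C₁ / Real.log w * ((y X : ℝ) / Real.log (y X)) ≤ η / 2 * (X / Real.log X) := by
    have h7 : C₁ / Real.log w ≤ η / (48 * ε) := by
      rw [div_le_div_iff₀ hlw0 (by positivity)]
      rw [← mul_div_assoc, div_le_iff₀ hη] at hlw
      linarith
    calc C₁ / Real.log w * ((y X : ℝ) / Real.log (y X)) ≤ η / (48 * ε) * (12 * ε * X / (Real.log X / 2)) := by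
          apply mul_le_mul h7 h5 _ (by positivity)
          apply div_nonneg (Nat.cast_nonneg _)
          linarith
      _ = _ := by field_simp; ring
  linarith

theorem lower : ∃ c C : ℝ, 0 < c ∧ 0 < C ∧ ∀ η ε : ℝ, 0 < η → 0 < ε → ε ≤ 1 → ∀ᶠ X : ℕ in atTop, ∃ D : Finset ℕ,
    (∀ p ∈ D, p.Prime) ∧ (#D : ℝ) ≤ η * (X / Real.log X) ∧ ∃ S : Finset ℕ,
      (∀ n ∈ S, X < n ∧ n ≤ 2 * X ∧ Even n ∧ 0 < #(reps n) ∧ ε * (#(reps n) : ℝ) ≤ #(repsD D n)) ∧
      c * Real.exp (-Real.exp (C * (ε / η))) * X ≤ #S := by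
  classical
  obtain ⟨C, hC, hsize⟩ := size_DX
  refine ⟨Real.exp (-9), 2 * C, Real.exp_pos _, by positivity, ?_⟩
  intro η ε hη hε hε1
  set w : ℕ := ⌈Real.exp (C * (ε / η))⌉₊ + 2 with hw
  have hexp := Real.exp_pos (C * (ε / η))
  have hw3 : 3 ≤ w := by
    have : 0 < ⌈Real.exp (C * (ε / η))⌉₊ := Nat.ceil_pos.2 hexp
    omega
  have hwlow : Real.exp (C * (ε / η)) ≤ w := by
    rw [hw]; push_cast
    linarith [Nat.le_ceil (Real.exp (C * (ε / η)))]
  have hwup : (w : ℝ) ≤ Real.exp (C * (ε / η)) + 3 := by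
    rw [hw]; push_cast
    linarith [Nat.ceil_lt_add_one hexp.le]
  have hlw : C * (ε / η) ≤ Real.log w := by
    rw [← Real.log_exp (C * (ε / η))]
    exact Real.log_le_log hexp hwlow
  have hPp : (0 : ℝ) < PM w := by exact_mod_cast PM_pos w
  -- the constant
  have hconst : Real.exp (-9) * Real.exp (-Real.exp (2 * C * (ε / η))) ≤ 1 / (4 * PM w) := by
    have h1 : 4 * (PM w : ℝ) ≤ Real.exp (9 + Real.exp (2 * C * (ε / η))) := by
      have h2 : 4 * (PM w : ℝ) ≤ 4 ^ (w + 1) := by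
        have := PM_le w
        have h3 : (PM w : ℝ) ≤ 4 ^ w := by exact_mod_cast this
        rw [pow_succ]; linarith
      have h3 : (4 : ℝ) ^ (w + 1) ≤ Real.exp (2 * (w + 1)) := by
        have h4 : (4 : ℝ) ≤ Real.exp 2 := by
          have h5 := Real.add_one_le_exp (1 : ℝ)
          have h6 : Real.exp 2 = Real.exp 1 * Real.exp 1 := by rw [← Real.exp_add]; norm_num
          rw [h6]; nlinarith
        calc (4 : ℝ) ^ (w + 1) ≤ Real.exp 2 ^ (w + 1) := pow_le_pow_left₀ (by norm_num) h4 _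
          _ = _ := by
              rw [← Real.exp_nat_mul]
              congr 1
              push_cast; ring
      refine h2.trans (h3.trans (Real.exp_le_exp.2 ?_))
      have h5 : Real.exp (2 * C * (ε / η)) = Real.exp (C * (ε / η)) * Real.exp (C * (ε / η)) := by
        rw [← Real.exp_add]; ring_nf
      rw [h5]
      nlinarith [sq_nonneg (Real.exp (C * (ε / η)) - 1)]
    rw [le_div_iff₀ (by positivity)]
    have h2 : Real.exp (-9) * Real.exp (-Real.exp (2 * C * (ε / η))) = (Real.exp (9 + Real.exp (2 * C * (ε / η))))⁻¹ := by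
      rw [← Real.exp_neg, ← Real.exp_add]; ring_nf
    rw [h2, inv_mul_le_iff₀ (Real.exp_pos _), mul_one]
    exact h1
  -- the common part
  have hmain : ∀ᶠ X : ℕ in atTop, Real.exp (-9) * Real.exp (-Real.exp (2 * C * (ε / η))) * X ≤
      #((NX w X).filter (fun n => WinP (1 / 10) 2 n)) := by
    filter_upwards [win_all (1 / 10) (by norm_num) (1 / (4 * PM w)) (by positivity), eventually_ge_atTop (4 * PM w + 1)] with X h1 h2
    have hX0 : (0 : ℝ) ≤ X := Nat.cast_nonneg _
    have h3 := NX_card w X (by omega) (by omega)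
    have h4 := h1 ((NX w X).filter (fun n => ¬ WinP (1 / 10) 2 n)) (by
      intro n hn
      rw [mem_filter] at hn
      have h5 := NX_mem w X n (by omega) (by omega) hn.1
      exact ⟨h5.1, h5.2.1, h5.2.2.1, hn.2⟩)
    have h5 := card_filter_add_card_filter_not (s := NX w X) (fun n => WinP (1 / 10) 2 n)
    have h6 : (#(NX w X) : ℝ) = #((NX w X).filter (fun n => WinP (1 / 10) 2 n)) + #((NX w X).filter (fun n => ¬ WinP (1 / 10) 2 n)) := by
      exact_mod_cast h5.symm
    have h7 : (X : ℝ) / (2 * PM w) = 2 * (1 / (4 * PM w) * X) := by field_simp; ring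
    have h8 := mul_le_mul_of_nonneg_right hconst hX0
    linarith
  rcases lt_or_ge ε (1 / 6) with hcase | hcase
  · -- few primes are used
    have hy : ∀ᶠ X : ℕ in atTop, ((⌊6 * ε * X⌋₊ : ℕ) : ℝ) ≤ 12 * ε * X ∧ (X : ℝ) ^ (1 / 2 : ℝ) ≤ (⌊6 * ε * X⌋₊ : ℕ) := by
      have h1 : ∀ᶠ X : ℕ in atTop, (1 / ε : ℝ) ≤ (X : ℝ) ^ (1 / 2 : ℝ) :=
        ((tendsto_rpow_atTop (by norm_num : (0 : ℝ) < 1 / 2)).comp tendsto_natCast_atTop_atTop).eventually_ge_atTop _
      filter_upwards [h1, eventually_ge_atTop 1] with X h2 h3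
      have hX0 : (0 : ℝ) < X := by exact_mod_cast h3
      constructor
      · refine (Nat.floor_le (by positivity)).trans ?_
        nlinarith
      · have h4 := Nat.lt_floor_add_one (6 * ε * X)
        have h5 : (X : ℝ) ^ (1 / 2 : ℝ) ≤ ε * X := by
          rw [div_le_iff₀ hε] at h2
          calc (X : ℝ) ^ (1 / 2 : ℝ) = (X : ℝ) ^ (1 / 2 : ℝ) * 1 := (mul_one _).symm
            _ ≤ (X : ℝ) ^ (1 / 2 : ℝ) * (X ^ (1 / 2 : ℝ) * ε) := mul_le_mul_of_nonneg_left h2 (by positivity)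
            _ = ε * (X ^ (1 / 2 : ℝ) * X ^ (1 / 2 : ℝ)) := by ring
            _ = ε * X := by rw [← Real.rpow_add hX0]; norm_num
        have h6 : (1 : ℝ) ≤ X ^ (1 / 2 : ℝ) := Real.one_le_rpow (by exact_mod_cast h3) (by norm_num)
        linarith
    have hel : ∀ᶠ X : ℕ in atTop, (1 : ℝ) / ε ≤ Real.log X :=
      (Real.tendsto_log_atTop.comp tendsto_natCast_atTop_atTop).eventually_ge_atTop _
    filter_upwards [hsize ε η hε hη w hw3 hlw (fun X => ⌊6 * ε * X⌋₊) hy, hmain, reps_low, ev_log2,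
      ev_sqrt (w + 4) (ε / 2) (by positivity) (by positivity), ev_sqrt 1 (ε / 5) (by norm_num) (by positivity), eventually_ge_atTop 3, hel] with X h1 h2 h3 h4 h5 h6 h7 h8e
    obtain ⟨hl1, hl2⟩ := h4
    have hX0 : (0 : ℝ) < X := by exact_mod_cast (by omega : 0 < X)
    refine ⟨DX w ⌊6 * ε * X⌋₊, fun p hp => ((mem_DX _ _ _).1 hp).2.1, h1, (NX w X).filter (fun n => WinP (1 / 10) 2 n), ?_, h2⟩
    intro n hn
    rw [mem_filter] at hn
    obtain ⟨hnN, hnW⟩ := hn
    obtain ⟨n1, n2, n3, n4⟩ := NX_mem w X n (by omega) (by omega) hnN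
    have hn0 : (0 : ℝ) < n := by exact_mod_cast (by omega : 0 < n)
    have hXn : (X : ℝ) ≤ n := by exact_mod_cast n1.le
    have hnX : (n : ℝ) ≤ 2 * X := by exact_mod_cast n2
    have hln1 : 1 ≤ Real.log n := hl1.trans (Real.log_le_log hX0 hXn)
    have hln2 : Real.log n ≤ 11 / 10 * Real.log X := (Real.log_le_log hn0 hnX).trans hl2
    have r1 := h3 n n1 n2 hnW
    have hQ0 : 0 < (X : ℝ) / Real.log X ^ 2 := by positivity
    have r2 : (0 : ℝ) < #(reps n) := by linarith
    refine ⟨n1, n2, n3, by exact_mod_cast r2, ?_⟩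
    set y := ⌊6 * ε * X⌋₊ with hyd
    have hyX : y ≤ X := by
      have h8 : (y : ℝ) ≤ 6 * ε * X := Nat.floor_le (by positivity)
      have h9 : (y : ℝ) ≤ X := by nlinarith
      exact_mod_cast h9
    have hs0 : (0 : ℝ) ≤ (Nat.sqrt (2 * X) : ℕ) := Nat.cast_nonneg _
    have hL2 : (1 : ℝ) ≤ Real.log X ^ 2 := one_le_pow₀ hl1
    have hεX : 1 ≤ ε / 5 * X := by
      refine le_trans ?_ h6
      nlinarith
    have hylow : 29 / 10 * ε * n ≤ y := by
      have h8 := Nat.lt_floor_add_one (6 * ε * X)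
      rw [← hyd] at h8
      nlinarith
    have hy0 : (0 : ℝ) < y := lt_of_lt_of_le (by positivity) hylow
    have hy1 : 0 < y := by exact_mod_cast hy0
    have hs := Pool.Agent.W93.GB.one_le_sing n
    have hwin := hnW 0 y hy1 (by omega) (by
      push_cast
      rw [sub_zero]
      refine le_trans ?_ hylow
      rw [div_le_iff₀ (by positivity)]
      have h9 : Real.log X ≤ Real.log n := Real.log_le_log hX0 hXn
      rw [div_le_iff₀ hε] at h8e
      have h10 : 1 ≤ ε * Real.log n ^ 2 := by nlinarith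
      nlinarith)
    push_cast at hwin
    rw [sub_zero] at hwin
    set Q : ℝ := sing n * n / Real.log n ^ 2 with hQ
    have hQlow : 100 / 121 * ((X : ℝ) / Real.log X ^ 2) ≤ Q := by
      have h8 : (X : ℝ) / (11 / 10 * Real.log X) ^ 2 ≤ (sing n * n) / Real.log n ^ 2 := by
        apply div_le_div₀ (by positivity) _ (by positivity)
        · exact pow_le_pow_left₀ (by linarith) hln2 2
        · nlinarith
      refine le_trans (le_of_eq ?_) h8
      field_simp
      ring
    have hcnt : 9 / 10 * (29 / 10 * ε * Q) ≤ cnt n 0 y := by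
      have h8 := (abs_le.1 hwin).1
      have h9 : 29 / 10 * ε * Q ≤ sing n * y / Real.log n ^ 2 := by
        rw [hQ, ← mul_div_assoc]
        apply div_le_div_of_nonneg_right _ (by positivity)
        have := mul_le_mul_of_nonneg_left hylow (by linarith : 0 ≤ sing n)
        linarith
      linarith
    have hcap := captured w y n n4
    rw [min_eq_left (by omega : y ≤ n)] at hcap
    have hcap' : (cnt n 0 y : ℝ) ≤ #(repsD (DX w y) n) + (w + 4) := by
      have : (cnt n 0 y : ℝ) ≤ ((#(repsD (DX w y) n) + (3 + (w + 1)) : ℕ) : ℝ) := by exact_mod_cast hcap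
      push_cast at this
      linarith
    have hup := win_reps X n h7 n1 hl1 hnW
    rw [← hQ] at hup
    have hw4 : (w : ℝ) + 4 ≤ ε / 2 * (X / Real.log X ^ 2) := by
      rw [← mul_div_assoc, le_div_iff₀ (by positivity)]
      refine le_trans ?_ h5
      have : (0 : ℝ) ≤ (w : ℝ) + 4 := by positivity
      have h8 : (w : ℝ) + 4 ≤ ((w : ℝ) + 4) * (Nat.sqrt (2 * X) + 1) := by nlinarith
      exact mul_le_mul_of_nonneg_right h8 (by positivity)
    have h10 : ε * #(reps n) ≤ ε * (11 / 10 * Q) := mul_le_mul_of_nonneg_left hup hε.le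
    have h11 : ε * (100 / 121 * ((X : ℝ) / Real.log X ^ 2)) ≤ ε * Q := mul_le_mul_of_nonneg_left hQlow hε.le
    have h12 : 0 < ε * ((X : ℝ) / Real.log X ^ 2) := by positivity
    linarith
  · have hy : ∀ᶠ X : ℕ in atTop, ((2 * X : ℕ) : ℝ) ≤ 12 * ε * X ∧ (X : ℝ) ^ (1 / 2 : ℝ) ≤ (2 * X : ℕ) := by
      filter_upwards [eventually_ge_atTop 1] with X h3
      have hX0 : (0 : ℝ) < X := by exact_mod_cast h3
      have hX1 : (1 : ℝ) ≤ X := by exact_mod_cast h3
      constructor
      · push_cast; nlinarith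
      · push_cast
        have : (X : ℝ) ^ (1 / 2 : ℝ) ≤ (X : ℝ) ^ (1 : ℝ) := Real.rpow_le_rpow_of_exponent_le hX1 (by norm_num)
        rw [Real.rpow_one] at this
        linarith
    filter_upwards [hsize ε η hε hη w hw3 hlw (fun X => 2 * X) hy, hmain, reps_low, ev_log2, eventually_ge_atTop 3] with X h1 h2 h3 h4 h7
    have hX0 : (0 : ℝ) < X := by exact_mod_cast (by omega : 0 < X)
    refine ⟨DX w (2 * X), fun p hp => ((mem_DX _ _ _).1 hp).2.1, h1, (NX w X).filter (fun n => WinP (1 / 10) 2 n), ?_, h2⟩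
    intro n hn
    rw [mem_filter] at hn
    obtain ⟨hnN, hnW⟩ := hn
    obtain ⟨n1, n2, n3, n4⟩ := NX_mem w X n (by omega) (by omega) hnN
    have r1 := h3 n n1 n2 hnW
    have hl1 := h4.1
    have hQ0 : 0 < (X : ℝ) / Real.log X ^ 2 := by positivity
    have r2 : (0 : ℝ) < #(reps n) := by linarith
    refine ⟨n1, n2, n3, by exact_mod_cast r2, ?_⟩
    rw [captured_all w (2 * X) n n2 n4]
    nlinarith

end Pool.Agent.W5h22.GS
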