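import Mathlib
import Pool.Agent.W5h22.GS.I

set_option autoImplicit false

/-! The final form. -/

namespace Pool.Agent.W5h22.GS
open Finset Filter

/-- `n` is a sum of two distinct odd primes which are not in `D` -/
def SumOutside (D : Finset ℕ) (n : ℕ) : Prop :=
  ∃ p q : ℕ, p.Prime ∧ q.Prime ∧ p ≠ 2 ∧ q ≠ 2 ∧ p ≠ q ∧ p ∉ D ∧ q ∉ D ∧ n = p + q

lemma sum_of_lt (D : Finset ℕ) (n : ℕ) (h : #(repsD D n) < #(reps n)) : SumOutside D n := by
  obtain ⟨p, hp, hp2⟩ : ∃ p ∈ reps n, p ∉ repsD D n := by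
    by_contra hcon
    push Not at hcon
    exact absurd (card_le_card hcon) (not_le.2 h)
  rw [repsD, mem_filter] at hp2
  push Not at hp2
  obtain ⟨h1, h2⟩ := hp2 hp
  rw [reps, mem_filter, mem_range] at hp
  obtain ⟨h3, h4, h5, h6, h7, h8⟩ := hp
  exact ⟨p, n - p, h4, h5, h6, h7, h8, h1, h2, by omega⟩

lemma not_sum_of_le (D : Finset ℕ) (n : ℕ) (h : #(reps n) ≤ #(repsD D n)) : ¬ SumOutside D n := by
  rintro ⟨p, q, h1, h2, h3, h4, h5, h6, h7, h8⟩
  have h9 : repsD D n = reps n := eq_of_subset_of_card_le (filter_subset _ _) h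
  have h10 : p ∈ reps n := by
    rw [reps, mem_filter, mem_range]
    have e : n - p = q := by omega
    rw [e]
    exact ⟨by have := h2.pos; omega, h1, h2, h3, h4, h5⟩
  rw [← h9, repsD, mem_filter] at h10
  have e : n - p = q := by omega
  rw [e] at h10
  rcases h10.2 with h | h
  · exact h6 h
  · exact h7 h

lemma small_eta (C η : ℝ) (hC : 0 < C) (hη : 0 < η) (hη1 : η ≤ 1) (h : 1 / 2 < C * (η * Real.log (2 + Real.log (1 / η)))) :
    1 / η ≤ 36 * C ^ 2 := by
  have hx : 0 ≤ Real.log (1 / η) := by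
    apply Real.log_nonneg
    rw [le_div_iff₀ hη]; linarith
  have h1 : Real.log (2 + Real.log (1 / η)) ≤ 1 + Real.log (1 / η) := by
    have := Real.log_le_sub_one_of_pos (show 0 < 2 + Real.log (1 / η) by linarith)
    linarith
  set s := Real.sqrt (1 / η) with hs
  have hs0 : 0 < s := Real.sqrt_pos.2 (by positivity)
  have hs2 : s * s = 1 / η := Real.mul_self_sqrt (by positivity)
  have hs1 : 1 ≤ s := by
    rw [hs, Real.one_le_sqrt, le_div_iff₀ hη]; linarith
  have h2 : Real.log (1 / η) ≤ 2 * s := by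
    rw [← hs2, Real.log_mul hs0.ne' hs0.ne']
    have := Real.log_le_sub_one_of_pos hs0
    linarith
  have h3 : η * (s * s) = 1 := by rw [hs2]; field_simp
  have h4 : C * (η * Real.log (2 + Real.log (1 / η))) ≤ C * (η * (3 * s)) := by
    apply mul_le_mul_of_nonneg_left _ hC.le
    apply mul_le_mul_of_nonneg_left _ hη.le
    linarith
  have h5 : s < 6 * C := by
    have h6 : 1 / 2 < C * (η * (3 * s)) := h.trans_le h4
    have h7 : 1 / 2 * s < C * (η * (3 * s)) * s := mul_lt_mul_of_pos_right h6 hs0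
    have h8 : C * (η * (3 * s)) * s = 3 * C * (η * (s * s)) := by ring
    rw [h8, h3] at h7
    linarith
  rw [← hs2]
  nlinarith

theorem final : ∃ c C : ℝ, 0 < c ∧ 0 < C ∧
    (∀ η ε : ℝ, 0 < η → η ≤ 1 → 0 < ε → ε ≤ 1 → ∃ X₀ : ℕ, ∀ X : ℕ, X₀ ≤ X →
      (C * (η * Real.log (2 + Real.log (1 / η))) ≤ ε → ∀ D : Finset ℕ, (#D : ℝ) ≤ η * (X / Real.log X) →
        ∀ S : Finset ℕ, (∀ n ∈ S, X < n ∧ n ≤ 2 * X ∧ Even n ∧ ¬ (0 < #(reps n) ∧ (#(repsD D n) : ℝ) ≤ ε * #(reps n))) →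
          (#S : ℝ) ≤ C * Real.exp (-Real.exp (c * (ε / η))) * X) ∧
      ∃ D : Finset ℕ, (∀ p ∈ D, p.Prime) ∧ (#D : ℝ) ≤ η * (X / Real.log X) ∧ ∃ S : Finset ℕ,
        (∀ n ∈ S, X < n ∧ n ≤ 2 * X ∧ Even n ∧ 0 < #(reps n) ∧ ε * (#(reps n) : ℝ) ≤ #(repsD D n)) ∧
          c * Real.exp (-Real.exp (C * (ε / η))) * X ≤ #S) ∧
    (∀ η : ℝ, 0 < η → η ≤ 1 → ∃ X₀ : ℕ, ∀ X : ℕ, X₀ ≤ X →
      (∀ D : Finset ℕ, (#D : ℝ) ≤ η * (X / Real.log X) →
        ∀ S : Finset ℕ, (∀ n ∈ S, X < n ∧ n ≤ 2 * X ∧ Even n ∧ ¬ SumOutside D n) →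
          (#S : ℝ) ≤ C * Real.exp (-Real.exp (c / η)) * X) ∧
      ∃ D : Finset ℕ, (∀ p ∈ D, p.Prime) ∧ (#D : ℝ) ≤ η * (X / Real.log X) ∧ ∃ S : Finset ℕ,
        (∀ n ∈ S, X < n ∧ n ≤ 2 * X ∧ Even n ∧ 0 < #(reps n) ∧ ¬ SumOutside D n) ∧
          c * Real.exp (-Real.exp (C / η)) * X ≤ #S) := by
  obtain ⟨c₁, B, C₁, hc₁, hB, hC₁, hup⟩ := upper
  obtain ⟨c₂, C₂, hc₂, hC₂, hlow⟩ := lower
  set c : ℝ := min (c₁ / 2) c₂ with hc
  have hc0 : 0 < c := by positivity
  have hcc1 : c ≤ c₁ / 2 := min_le_left _ _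
  have hcc1' : c ≤ c₁ := by linarith
  have hcc2 : c ≤ c₂ := min_le_right _ _
  set C : ℝ := B + C₁ + C₂ + Real.exp (Real.exp (36 * B ^ 2 * c)) with hC
  have hCB : B ≤ C := by rw [hC]; have := Real.exp_pos (Real.exp (36 * B ^ 2 * c)); linarith
  have hCC1 : C₁ ≤ C := by rw [hC]; have := Real.exp_pos (Real.exp (36 * B ^ 2 * c)); linarith
  have hCC2 : C₂ ≤ C := by rw [hC]; have := Real.exp_pos (Real.exp (36 * B ^ 2 * c)); linarith
  have hCe : Real.exp (Real.exp (36 * B ^ 2 * c)) ≤ C := by rw [hC]; linarith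
  have hC0 : 0 < C := by linarith
  have hlog : ∀ η : ℝ, 0 < η → η ≤ 1 → 0 ≤ η * Real.log (2 + Real.log (1 / η)) := by
    intro η hη hη1
    have hx : 0 ≤ Real.log (1 / η) := by
      apply Real.log_nonneg
      rw [le_div_iff₀ hη]; linarith
    exact mul_nonneg hη.le (Real.log_nonneg (by linarith))
  have mono1 : ∀ t X : ℝ, 0 ≤ t → 0 ≤ X → C₁ * Real.exp (-Real.exp (c₁ * t)) * X ≤ C * Real.exp (-Real.exp (c * t)) * X := by
    intro t X ht hX
    apply mul_le_mul_of_nonneg_right _ hX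
    apply mul_le_mul hCC1 _ (Real.exp_pos _).le hC0.le
    apply Real.exp_le_exp.2
    apply neg_le_neg
    apply Real.exp_le_exp.2
    exact mul_le_mul_of_nonneg_right hcc1' ht
  have mono2 : ∀ t X : ℝ, 0 ≤ t → 0 ≤ X → c * Real.exp (-Real.exp (C * t)) * X ≤ c₂ * Real.exp (-Real.exp (C₂ * t)) * X := by
    intro t X ht hX
    apply mul_le_mul_of_nonneg_right _ hX
    apply mul_le_mul hcc2 _ (Real.exp_pos _).le hc₂.le
    apply Real.exp_le_exp.2
    apply neg_le_neg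
    apply Real.exp_le_exp.2
    exact mul_le_mul_of_nonneg_right hCC2 ht
  refine ⟨c, C, hc0, hC0, ?_, ?_⟩
  · intro η ε hη hη1 hε hε1
    obtain ⟨X₂, h2⟩ := eventually_atTop.1 (hlow η ε hη hε hε1)
    by_cases hcond : B * (η * Real.log (2 + Real.log (1 / η))) ≤ ε
    · obtain ⟨X₁, h1⟩ := eventually_atTop.1 (hup η ε hη hη1 hε hε1 hcond)
      refine ⟨max X₁ X₂, fun X hX => ⟨?_, ?_⟩⟩
      · intro _ D hD S hS
        exact (h1 X (le_trans (le_max_left _ _) hX) D hD S hS).trans (mono1 _ _ (by positivity) (Nat.cast_nonneg _))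
      · obtain ⟨D, hD1, hD2, S, hS1, hS2⟩ := h2 X (le_trans (le_max_right _ _) hX)
        exact ⟨D, hD1, hD2, S, hS1, (mono2 _ _ (by positivity) (Nat.cast_nonneg _)).trans hS2⟩
    · refine ⟨X₂, fun X hX => ⟨?_, ?_⟩⟩
      · intro hcon
        exfalso
        apply hcond
        refine le_trans ?_ hcon
        exact mul_le_mul_of_nonneg_right hCB (hlog η hη hη1)
      · obtain ⟨D, hD1, hD2, S, hS1, hS2⟩ := h2 X hX
        exact ⟨D, hD1, hD2, S, hS1, (mono2 _ _ (by positivity) (Nat.cast_nonneg _)).trans hS2⟩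
  · intro η hη hη1
    obtain ⟨X₂, h2⟩ := eventually_atTop.1 (hlow η 1 hη one_pos le_rfl)
    have hex : ∃ X₁ : ℕ, ∀ X : ℕ, X₁ ≤ X → ∀ D : Finset ℕ, (#D : ℝ) ≤ η * (X / Real.log X) →
        ∀ S : Finset ℕ, (∀ n ∈ S, X < n ∧ n ≤ 2 * X ∧ Even n ∧ ¬ SumOutside D n) →
          (#S : ℝ) ≤ C * Real.exp (-Real.exp (c / η)) * X := by
      by_cases hcond : B * (η * Real.log (2 + Real.log (1 / η))) ≤ 1 / 2
      · obtain ⟨X₁, h1⟩ := eventually_atTop.1 (hup η (1 / 2) hη hη1 (by norm_num) (by norm_num) hcond)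
        refine ⟨X₁, fun X hX D hD S hS => ?_⟩
        refine (h1 X hX D hD S ?_).trans ?_
        · intro n hn
          obtain ⟨n1, n2, n3, n4⟩ := hS n hn
          refine ⟨n1, n2, n3, ?_⟩
          rintro ⟨h3, h4⟩
          apply n4
          apply sum_of_lt
          have h5 : (0 : ℝ) < #(reps n) := by exact_mod_cast h3
          have h6 : (#(repsD D n) : ℝ) < #(reps n) := by linarith
          exact_mod_cast h6
        · apply mul_le_mul_of_nonneg_right _ (Nat.cast_nonneg _)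
          apply mul_le_mul hCC1 _ (Real.exp_pos _).le hC0.le
          apply Real.exp_le_exp.2
          apply neg_le_neg
          apply Real.exp_le_exp.2
          have e : c₁ * (1 / 2 / η) = (c₁ / 2) / η := by ring
          rw [e]
          exact div_le_div_of_nonneg_right hcc1 hη.le
      · push Not at hcond
        have h3 := small_eta B η hB hη hη1 hcond
        refine ⟨1, fun X hX D _ S hS => ?_⟩
        have h6 : (#S : ℝ) ≤ X := by
          have h7 : S ⊆ Ioc X (2 * X) := by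
            intro n hn
            have := hS n hn
            rw [mem_Ioc]
            exact ⟨this.1, this.2.1⟩
          have h8 := card_le_card h7
          rw [Nat.card_Ioc] at h8
          exact_mod_cast (by omega : #S ≤ X)
        have h7 : 1 ≤ C * Real.exp (-Real.exp (c / η)) := by
          have h8 : c / η ≤ 36 * B ^ 2 * c := by
            have : c / η = c * (1 / η) := by ring
            rw [this]
            nlinarith
          have h9 : Real.exp (-Real.exp (36 * B ^ 2 * c)) ≤ Real.exp (-Real.exp (c / η)) :=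
            Real.exp_le_exp.2 (neg_le_neg (Real.exp_le_exp.2 h8))
          calc (1 : ℝ) = Real.exp (Real.exp (36 * B ^ 2 * c)) * Real.exp (-Real.exp (36 * B ^ 2 * c)) := by
                rw [← Real.exp_add]; simp
            _ ≤ C * Real.exp (-Real.exp (c / η)) := mul_le_mul hCe h9 (Real.exp_pos _).le hC0.le
        have hX0 : (0 : ℝ) ≤ X := Nat.cast_nonneg _
        nlinarith
    obtain ⟨X₁, h1⟩ := hex
    refine ⟨max X₁ X₂, fun X hX => ⟨h1 X (le_trans (le_max_left _ _) hX), ?_⟩⟩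
    obtain ⟨D, hD1, hD2, S, hS1, hS2⟩ := h2 X (le_trans (le_max_right _ _) hX)
    refine ⟨D, hD1, hD2, S, ?_, ?_⟩
    · intro n hn
      obtain ⟨n1, n2, n3, n4, n5⟩ := hS1 n hn
      rw [one_mul] at n5
      exact ⟨n1, n2, n3, n4, not_sum_of_le D n (by exact_mod_cast n5)⟩
    · refine le_trans ?_ hS2
      have h3 := mono2 (1 / η) X (by positivity) (Nat.cast_nonneg _)
      have e : C * (1 / η) = C / η := by ring
      rw [e] at h3
      exact h3

end Pool.Agent.W5h22.GS
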