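import Mathlib
import Pool.Agent.W5h22.GS.K

set_option autoImplicit false

/-! Goldbach representations whose primes have their indices in a set of density near one. -/

namespace Pool.Agent.W5h22.GS
open Finset Filter
open Pool.Agent.W93.PG (WinP cnt)
open Pool.Agent.H560R3.GB (sing energy)

/-- `2n` is a sum of two primes, the index of the first one lies in `K` -/
def Rep (K : Set ℕ) (n : ℕ) : Prop :=
  ∃ p, p.Prime ∧ p < 2 * n ∧ Nat.primeCounting p ∈ K ∧ (2 * n - p).Prime

/-- `2n` is a sum of two primes, both indices lie in `K` -/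
def Both (K : Set ℕ) (n : ℕ) : Prop :=
  ∃ p, p.Prime ∧ p < 2 * n ∧ Nat.primeCounting p ∈ K ∧ (2 * n - p).Prime ∧ Nat.primeCounting (2 * n - p) ∈ K

open Classical in
/-- the number of the positive integers up to `t` missing from `K` -/
noncomputable def miss (K : Set ℕ) (t : ℕ) : ℕ := #((Icc 1 t).filter (fun k => k ∉ K))

open Classical in
/-- the number of the exceptions up to `x` -/
noncomputable def fails (P : ℕ → Prop) (x : ℕ) : ℕ := #((Icc 1 x).filter (fun n => ¬ P n))

lemma pc_eq (p : ℕ) (hp : p.Prime) : Nat.primeCounting p = Nat.count Nat.Prime p + 1 := by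
  rw [Nat.primeCounting, Nat.primeCounting', Nat.count_succ, if_pos hp]

lemma pc_inj {p q : ℕ} (hp : p.Prime) (hq : q.Prime) (h : Nat.primeCounting p = Nat.primeCounting q) : p = q := by
  rw [pc_eq p hp, pc_eq q hq] at h
  exact Nat.count_injective hp hq (by omega)

lemma pc_nth (t : ℕ) (ht : 1 ≤ t) : Nat.primeCounting (Nat.nth Nat.Prime (t - 1)) = t := by
  have h1 : (Nat.nth Nat.Prime (t - 1)).Prime := Nat.prime_nth_prime _
  rw [pc_eq _ h1]
  have h2 : Nat.count Nat.Prime (Nat.nth Nat.Prime (t - 1)) = t - 1 := Nat.primeCounting'_nth_eq (t - 1)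
  omega

/-- the number of primes up to `2X` -/
lemma pc_upper : ∀ᶠ X : ℕ in atTop, (Nat.primeCounting (2 * X) : ℝ) ≤ 4 * (X / Real.log X) := by
  have h1 := Chebyshev.eventually_primeCounting_le (ε := 1 / 10) (by norm_num)
  have ht : Tendsto (fun X : ℕ => (2 : ℝ) * (X : ℝ)) atTop atTop :=
    Tendsto.const_mul_atTop (by norm_num) tendsto_natCast_atTop_atTop
  filter_upwards [ht.eventually h1, eventually_ge_atTop 3] with X hX hX3
  have e : ⌊(2 : ℝ) * (X : ℝ)⌋₊ = 2 * X := by
    have : (2 : ℝ) * (X : ℝ) = ((2 * X : ℕ) : ℝ) := by push_cast; ring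
    rw [this, Nat.floor_natCast]
  rw [e] at hX
  refine hX.trans ?_
  have hX0 : (0 : ℝ) < X := by exact_mod_cast (by omega : 0 < X)
  have hX1 : (1 : ℝ) < X := by exact_mod_cast (by omega : 1 < X)
  have hl : 0 < Real.log X := Real.log_pos hX1
  have hl2 : Real.log X ≤ Real.log (2 * X) := Real.log_le_log hX0 (by linarith)
  have h4 : Real.log 4 ≤ 1.4 := by
    have : Real.log 4 = 2 * Real.log 2 := by
      rw [show (4 : ℝ) = 2 ^ 2 by norm_num, Real.log_pow]; norm_num
    rw [this]
    have := Real.log_two_lt_d9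
    linarith
  have h5 : (0 : ℝ) ≤ Real.log 4 := Real.log_nonneg (by norm_num)
  calc (Real.log 4 + 1 / 10) * (2 * X) / Real.log (2 * X) ≤ (3 / 2) * (2 * X) / Real.log X := by
        apply div_le_div₀ (by positivity) _ hl hl2
        apply mul_le_mul_of_nonneg_right _ (by positivity)
        linarith
    _ = 3 * (X / Real.log X) := by ring
    _ ≤ _ := by
        apply mul_le_mul_of_nonneg_right (by norm_num) (by positivity)

lemma pc_lower : ∀ᶠ y : ℕ in atTop, (1 / 2 : ℝ) * (y / Real.log y) ≤ (Nat.primeCounting y : ℝ) := by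
  have h1 : ∀ᶠ y : ℕ in atTop, Real.log y ≤ 1 / 100 * (y : ℝ) := by
    have := Real.isLittleO_log_id_atTop.bound (show (0 : ℝ) < 1 / 100 by norm_num)
    filter_upwards [tendsto_natCast_atTop_atTop (R := ℝ) |>.eventually this, eventually_ge_atTop 1] with y hy hy1
    have hy0 : (0 : ℝ) ≤ y := Nat.cast_nonneg _
    rw [Real.norm_of_nonneg (Real.log_nonneg (by exact_mod_cast hy1)), id, Real.norm_of_nonneg hy0] at hy
    exact hy
  filter_upwards [h1, eventually_ge_atTop 100] with y hy hy2
  have hy0 : (0 : ℝ) < y := by exact_mod_cast (by omega : 0 < y)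
  have hy100 : (100 : ℝ) ≤ y := by exact_mod_cast hy2
  have hl : 0 < Real.log y := Real.log_pos (by linarith)
  refine le_trans ?_ (Chebyshev.pi_ge y)
  rw [← mul_div_assoc]
  apply div_le_div_of_nonneg_right _ hl.le
  have h2 : Real.log (y + 1) ≤ Real.log y + 1 := by
    have h3 : Real.log (y + 1) ≤ Real.log (2 * y) := Real.log_le_log (by linarith) (by linarith)
    rw [Real.log_mul (by norm_num) hy0.ne'] at h3
    have := Real.log_two_lt_d9
    linarith
  have h3 := Real.log_two_gt_d9
  nlinarith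

open Classical in
/-- a dyadic decomposition -/
lemma dyadic (P : ℕ → Prop) (X₀ : ℕ) (δ : ℝ) (hδ : 0 ≤ δ)
    (h : ∀ X : ℕ, X₀ ≤ X → (#((Ioc (X / 2) X).filter (fun n => ¬ P n)) : ℝ) ≤ δ * X) :
    ∀ x : ℕ, (fails P x : ℝ) ≤ X₀ + 2 * δ * x := by
  intro x
  induction x using Nat.strong_induction_on with
  | _ x ih =>
    by_cases hx : x < X₀ ∨ x = 0
    · have h1 : fails P x ≤ x := by
        unfold fails
        exact (card_filter_le _ _).trans (by rw [Nat.card_Icc]; omega)
      have h2 : (fails P x : ℝ) ≤ X₀ := by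
        have : fails P x ≤ X₀ := by omega
        exact_mod_cast this
      have : 0 ≤ 2 * δ * (x : ℝ) := by positivity
      linarith
    · push Not at hx
      have h1 := ih (x / 2) (by omega)
      have h2 := h x hx.1
      have h3 : fails P x ≤ fails P (x / 2) + #((Ioc (x / 2) x).filter (fun n => ¬ P n)) := by
        unfold fails
        rw [← card_union_of_disjoint]
        · apply card_le_card
          intro n hn
          rw [mem_filter, mem_Icc] at hn
          rw [mem_union, mem_filter, mem_filter, mem_Icc, mem_Ioc]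
          by_cases h4 : n ≤ x / 2
          · exact Or.inl ⟨⟨hn.1.1, h4⟩, hn.2⟩
          · exact Or.inr ⟨⟨by omega, hn.1.2⟩, hn.2⟩
        · rw [disjoint_left]
          intro n hn hn2
          rw [mem_filter, mem_Icc] at hn
          rw [mem_filter, mem_Ioc] at hn2
          omega
      have h4 : (fails P x : ℝ) ≤ fails P (x / 2) + (#((Ioc (x / 2) x).filter (fun n => ¬ P n)) : ℝ) := by exact_mod_cast h3
      have h5 : ((x / 2 : ℕ) : ℝ) ≤ x / 2 := Nat.cast_div_le
      have h6 : 2 * δ * ((x / 2 : ℕ) : ℝ) ≤ 2 * δ * (x / 2) := mul_le_mul_of_nonneg_left h5 (by positivity)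
      linarith

open Classical in
/-- the primes with an index outside `K` -/
noncomputable def outside (K : Set ℕ) (y : ℕ) : Finset ℕ := (Icc 1 y).filter (fun p => p.Prime ∧ Nat.primeCounting p ∉ K)

lemma outside_card (K : Set ℕ) (y : ℕ) : #(outside K y) ≤ miss K (Nat.primeCounting y) := by
  classical
  unfold miss
  apply card_le_card_of_injOn Nat.primeCounting
  · intro p hp
    rw [mem_coe, outside, mem_filter, mem_Icc] at hp
    rw [mem_coe, mem_filter, mem_Icc]
    refine ⟨⟨?_, Nat.monotone_primeCounting hp.1.2⟩, hp.2.2⟩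
    rw [pc_eq p hp.2.1]
    omega
  · intro p hp q hq h
    rw [mem_coe, outside, mem_filter] at hp hq
    exact pc_inj hp.2.1 hq.2.1 h

/-- index sets of lower density at least `1 - η` -/
theorem index_upper : ∃ c C : ℝ, 0 < c ∧ 0 < C ∧ ∀ η : ℝ, 0 < η → η ≤ 1 → ∀ K : Set ℕ,
    (∀ᶠ t : ℕ in atTop, (miss K t : ℝ) ≤ η * t) →
      ∀ᶠ x : ℕ in atTop, (fails (Both K) x : ℝ) ≤ C * Real.exp (-Real.exp (c / η)) * x := by
  classical
  obtain ⟨c, C, hc, hC, -, hfin⟩ := final
  refine ⟨c / 4, 3 * C + Real.exp (Real.exp c), by positivity, by positivity, ?_⟩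
  intro η hη hη1 K hK
  have hcη : c / (4 * η) = c / 4 / η := by field_simp
  by_cases h4 : 4 * η ≤ 1
  · obtain ⟨X₁, h1⟩ := hfin (4 * η) (by positivity) h4
    have hpc : ∀ᶠ X : ℕ in atTop, (miss K (Nat.primeCounting (2 * X)) : ℝ) ≤ η * Nat.primeCounting (2 * X) := by
      have ht : Tendsto (fun X : ℕ => Nat.primeCounting (2 * X)) atTop atTop :=
        Nat.tendsto_primeCounting.comp (tendsto_id.const_mul_atTop' (by norm_num))
      exact ht.eventually hK
    obtain ⟨X₂, h2⟩ := eventually_atTop.1 (hpc.and pc_upper)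
    set δ : ℝ := C * Real.exp (-Real.exp (c / (4 * η))) with hδ
    have hδ0 : 0 < δ := by positivity
    have key : ∀ X : ℕ, max X₁ X₂ ≤ X → (#((Ioc (X / 2) X).filter (fun n => ¬ Both K n)) : ℝ) ≤ δ * X := by
      intro X hX
      obtain ⟨h3, h5⟩ := h2 X (le_trans (le_max_right _ _) hX)
      have h6 := (h1 X (le_trans (le_max_left _ _) hX)).1 (outside K (2 * X)) (by
        have h7 : (#(outside K (2 * X)) : ℝ) ≤ miss K (Nat.primeCounting (2 * X)) := by exact_mod_cast outside_card K (2 * X)
        calc (#(outside K (2 * X)) : ℝ) ≤ _ := h7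
          _ ≤ η * Nat.primeCounting (2 * X) := h3
          _ ≤ η * (4 * (X / Real.log X)) := mul_le_mul_of_nonneg_left h5 hη.le
          _ = _ := by ring)
        (((Ioc (X / 2) X).filter (fun n => ¬ Both K n)).image (fun n => 2 * n)) (by
        intro m hm
        rw [mem_image] at hm
        obtain ⟨n, hn, rfl⟩ := hm
        rw [mem_filter, mem_Ioc] at hn
        refine ⟨by omega, by omega, even_two_mul n, ?_⟩
        rintro ⟨p, q, p1, q1, -, -, -, p2, q2, hpq⟩
        apply hn.2
        have hp0 := p1.pos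
        have hq0 := q1.pos
        have e : 2 * n - p = q := by omega
        refine ⟨p, p1, by omega, ?_, by rw [e]; exact q1, ?_⟩
        · by_contra hcon
          apply p2
          rw [outside, mem_filter, mem_Icc]
          exact ⟨⟨hp0, by omega⟩, p1, hcon⟩
        · rw [e]
          by_contra hcon
          apply q2
          rw [outside, mem_filter, mem_Icc]
          exact ⟨⟨hq0, by omega⟩, q1, hcon⟩)
      rw [card_image_of_injective _ (fun a b hab => by simpa using hab)] at h6
      exact h6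
    have h3 := dyadic (Both K) (max X₁ X₂) δ hδ0.le key
    filter_upwards [(tendsto_natCast_atTop_atTop (R := ℝ)).eventually_ge_atTop (((max X₁ X₂ : ℕ) : ℝ) / δ)] with x hx
    have h5 := h3 x
    rw [div_le_iff₀ hδ0] at hx
    have h6 : (fails (Both K) x : ℝ) ≤ 3 * δ * x := by linarith
    refine h6.trans ?_
    apply mul_le_mul_of_nonneg_right _ (Nat.cast_nonneg _)
    rw [hδ, hcη, ← mul_assoc]
    apply mul_le_mul_of_nonneg_right _ (Real.exp_pos _).le
    linarith [Real.exp_pos (Real.exp c)]
  · push Not at h4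
    filter_upwards with x
    have h1 : fails (Both K) x ≤ x := by
      unfold fails
      exact (card_filter_le _ _).trans (by rw [Nat.card_Icc]; omega)
    have h1' : (fails (Both K) x : ℝ) ≤ x := by exact_mod_cast h1
    have hx0 : (0 : ℝ) ≤ x := Nat.cast_nonneg _
    have h2 : c / 4 / η ≤ c := by
      rw [div_le_iff₀ hη]
      nlinarith
    have h3 : Real.exp (-Real.exp c) ≤ Real.exp (-Real.exp (c / 4 / η)) :=
      Real.exp_le_exp.2 (neg_le_neg (Real.exp_le_exp.2 h2))
    have h5 : 1 ≤ (3 * C + Real.exp (Real.exp c)) * Real.exp (-Real.exp (c / 4 / η)) := by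
      calc (1 : ℝ) = Real.exp (Real.exp c) * Real.exp (-Real.exp c) := by
            rw [← Real.exp_add]; simp
        _ ≤ (3 * C + Real.exp (Real.exp c)) * Real.exp (-Real.exp (c / 4 / η)) := by
            apply mul_le_mul (by linarith) h3 (Real.exp_pos _).le (by positivity)
    nlinarith

lemma pm_const (s : ℝ) (w : ℕ) (hwup : (w : ℝ) ≤ Real.exp s + 3) :
    Real.exp (-9) * Real.exp (-Real.exp (2 * s)) ≤ 1 / (4 * PM w) := by
  have hPp : (0 : ℝ) < PM w := by exact_mod_cast PM_pos w
  have h1 : 4 * (PM w : ℝ) ≤ Real.exp (9 + Real.exp (2 * s)) := by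
    have h2 : 4 * (PM w : ℝ) ≤ 4 ^ (w + 1) := by
      have := PM_le w
      have h3 : (PM w : ℝ) ≤ 4 ^ w := by exact_mod_cast this
      rw [pow_succ]; linarith
    have h3 : (4 : ℝ) ^ (w + 1) ≤ Real.exp (2 * (w + 1)) := by
      have h4 : (4 : ℝ) ≤ Real.exp 2 := by
        have h5 := Real.add_one_le_exp (1 : ℝ)
        have h6 : Real.exp 2 = Real.exp 1 * Real.exp 1 := by rw [← Real.exp_add]; norm_num
        rw [h6]; nlinarith
      calc (4 : ℝ) ^ (w + 1) ≤ Real.exp 2 ^ (w + 1) := pow_le_pow_left₀ (by norm_num) h4 _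
        _ = _ := by
            rw [← Real.exp_nat_mul]
            congr 1
            push_cast; ring
    refine h2.trans (h3.trans (Real.exp_le_exp.2 ?_))
    have h5 : Real.exp (2 * s) = Real.exp s * Real.exp s := by
      rw [← Real.exp_add]; ring_nf
    rw [h5]
    nlinarith [sq_nonneg (Real.exp s - 1)]
  rw [le_div_iff₀ (by positivity)]
  have h2 : Real.exp (-9) * Real.exp (-Real.exp (2 * s)) = (Real.exp (9 + Real.exp (2 * s)))⁻¹ := by
    rw [← Real.exp_neg, ← Real.exp_add]; ring_nf
  rw [h2, inv_mul_le_iff₀ (Real.exp_pos _), mul_one]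
  exact h1

/-- the index set of the example -/
def KX (w : ℕ) : Set ℕ :=
  {k | ∀ p : ℕ, p.Prime → Nat.primeCounting p = k → ¬ (p ≤ w ∨ IsUnit ((2 : ZMod (PM w)) - (p : ZMod (PM w))))}

lemma miss_KX (w t : ℕ) (ht : 1 ≤ t) : miss (KX w) t ≤ #(DX w (Nat.nth Nat.Prime (t - 1))) := by
  classical
  unfold miss
  apply card_le_card_of_injOn (fun k => Nat.nth Nat.Prime (k - 1))
  · intro k hk
    rw [mem_coe, mem_filter, mem_Icc] at hk
    obtain ⟨⟨k1, k2⟩, k3⟩ := hk
    rw [KX, Set.mem_ofPred_eq] at k3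
    push Not at k3
    obtain ⟨p, hp, hpk, h⟩ := k3
    have hnp : (Nat.nth Nat.Prime (k - 1)).Prime := Nat.prime_nth_prime _
    have e : p = Nat.nth Nat.Prime (k - 1) := pc_inj hp hnp (by rw [hpk, pc_nth k k1])
    rw [mem_coe]
    show Nat.nth Nat.Prime (k - 1) ∈ _
    rw [mem_DX, ← e]
    refine ⟨⟨hp.pos, ?_⟩, hp, h⟩
    rw [e]
    exact Nat.nth_monotone Nat.infinite_setOfPred_prime (by omega)
  · intro a ha b hb h
    rw [mem_coe, mem_filter, mem_Icc] at ha hb
    have h1 := congrArg Nat.primeCounting h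
    simp only at h1
    rw [pc_nth a ha.1.1, pc_nth b hb.1.1] at h1
    exact h1

/-- the sharpness -/
theorem index_lower : ∃ c C : ℝ, 0 < c ∧ 0 < C ∧ ∀ η : ℝ, 0 < η → η ≤ 1 → ∃ K : Set ℕ,
    (∀ᶠ t : ℕ in atTop, (miss K t : ℝ) ≤ η * t) ∧
      ∀ᶠ x : ℕ in atTop, ∃ S : Finset ℕ, (∀ n ∈ S, 1 ≤ n ∧ n ≤ x ∧ ¬ Rep K n ∧ Rep Set.univ n) ∧
        c * Real.exp (-Real.exp (C / η)) * x ≤ #S := by
  classical
  obtain ⟨C, hC, hcard⟩ := card_DX
  refine ⟨Real.exp (-9), 2 * (4 * C), Real.exp_pos _, by positivity, ?_⟩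
  intro η hη hη1
  set s : ℝ := 4 * C / η with hs
  have hs0 : 0 < s := by positivity
  set w : ℕ := ⌈Real.exp s⌉₊ + 2 with hw
  have hexp := Real.exp_pos s
  have hw3 : 3 ≤ w := by
    have : 0 < ⌈Real.exp s⌉₊ := Nat.ceil_pos.2 hexp
    omega
  have hwlow : Real.exp s ≤ w := by
    rw [hw]; push_cast
    linarith [Nat.le_ceil (Real.exp s)]
  have hwup : (w : ℝ) ≤ Real.exp s + 3 := by
    rw [hw]; push_cast
    linarith [Nat.ceil_lt_add_one hexp.le]
  have hlw : s ≤ Real.log w := by
    rw [← Real.log_exp s]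
    exact Real.log_le_log hexp hwlow
  have hlw0 : 0 < Real.log w := hs0.trans_le hlw
  have hPp : (0 : ℝ) < PM w := by exact_mod_cast PM_pos w
  refine ⟨KX w, ?_, ?_⟩
  · have hy : Tendsto (fun t : ℕ => Nat.nth Nat.Prime (t - 1)) atTop atTop := by
      apply tendsto_atTop_mono' atTop (f₁ := fun t : ℕ => t - 1)
      · filter_upwards with t
        exact Nat.le_nth (fun h => absurd h (by simpa using Nat.infinite_setOfPred_prime))
      · exact tendsto_sub_atTop_nat 1
    filter_upwards [hy.eventually (hcard w hw3), hy.eventually pc_lower, eventually_ge_atTop 1,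
      (tendsto_natCast_atTop_atTop (R := ℝ)).eventually_ge_atTop ((w : ℝ) / (η / 2))] with t h1 h2 h3 h4
    have h5 : (miss (KX w) t : ℝ) ≤ #(DX w (Nat.nth Nat.Prime (t - 1))) := by exact_mod_cast miss_KX w t h3
    rw [pc_nth t h3] at h2
    rw [div_le_iff₀ (by positivity)] at h4
    have h6 : C / Real.log w ≤ η / 4 := by
      rw [div_le_div_iff₀ hlw0 (by norm_num)]
      rw [hs, div_le_iff₀ hη] at hlw
      linarith
    have hq0 : (0 : ℝ) ≤ (Nat.nth Nat.Prime (t - 1) : ℝ) / Real.log (Nat.nth Nat.Prime (t - 1)) := by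
      apply div_nonneg (Nat.cast_nonneg _)
      apply Real.log_nonneg
      exact_mod_cast (Nat.prime_nth_prime _).one_lt.le
    have h7 : C / Real.log w * ((Nat.nth Nat.Prime (t - 1) : ℝ) / Real.log (Nat.nth Nat.Prime (t - 1))) ≤
        η / 4 * (2 * t) := by
      apply mul_le_mul h6 (by linarith) hq0 (by positivity)
    linarith
  · filter_upwards [win_all (1 / 10) (by norm_num) (1 / (8 * PM w)) (by positivity), pc_upper, reps_low,
      Pool.Agent.W5h22.PV.evt_div_log 1 1 one_pos, eventually_ge_atTop (4 * PM w + 1),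
      (Real.tendsto_log_atTop.comp (tendsto_natCast_atTop_atTop (R := ℝ))).eventually_ge_atTop (32 * (w + 1) * PM w)]
      with x h1 h2 h2r h2e h3 h4
    simp only [Function.comp_apply] at h4
    have hx0 : (0 : ℝ) < x := by exact_mod_cast (by omega : 0 < x)
    have hxl : 0 < Real.log x := lt_of_lt_of_le (by positivity) h4
    set B : Finset ℕ := ((range (w + 1)) ×ˢ ((Icc 1 (2 * x)).filter Nat.Prime)).image (fun z => z.1 + z.2) with hB
    have hBc : (#B : ℝ) ≤ 1 / (8 * PM w) * x := by
      have h5 : #B ≤ (w + 1) * Nat.primeCounting (2 * x) := by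
        refine card_image_le.trans ?_
        rw [card_product, card_range]
        apply Nat.mul_le_mul_left
        rw [Nat.primeCounting, Nat.primeCounting', Nat.count_eq_card_filter_range]
        apply card_le_card
        intro p hp
        rw [mem_filter, mem_Icc] at hp
        rw [mem_filter, mem_range]
        exact ⟨by omega, hp.2⟩
      have h6 : (#B : ℝ) ≤ (w + 1) * Nat.primeCounting (2 * x) := by exact_mod_cast h5
      refine h6.trans ?_
      have hw1 : (0 : ℝ) ≤ (w : ℝ) + 1 := by positivity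
      calc ((w : ℝ) + 1) * Nat.primeCounting (2 * x) ≤ (w + 1) * (4 * (x / Real.log x)) := mul_le_mul_of_nonneg_left h2 hw1
        _ = (4 * (w + 1)) * x / Real.log x := by ring
        _ ≤ _ := by
            rw [div_le_iff₀ hxl]
            have h8 : 1 / (8 * (PM w : ℝ)) * x * (32 * (w + 1) * PM w) ≤ 1 / (8 * PM w) * x * Real.log x :=
              mul_le_mul_of_nonneg_left h4 (by positivity)
            have h9 : 1 / (8 * (PM w : ℝ)) * x * (32 * (w + 1) * PM w) = 4 * (w + 1) * x := by field_simp; ring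
            linarith
    have h5 := NX_card w x (by omega) (by omega)
    set G : Finset ℕ := ((NX w x).filter (fun n => WinP (1 / 10) 2 n)) \ B with hG
    have hNWc := h1 ((NX w x).filter (fun n => ¬ WinP (1 / 10) 2 n)) (by
      intro n hn
      rw [mem_filter] at hn
      have h5 := NX_mem w x n (by omega) (by omega) hn.1
      exact ⟨h5.1, h5.2.1, h5.2.2.1, hn.2⟩)
    have hcard1 := card_filter_add_card_filter_not (s := NX w x) (fun n => WinP (1 / 10) 2 n)
    have hcard2 : (#(NX w x) : ℝ) = #((NX w x).filter (fun n => WinP (1 / 10) 2 n)) + #((NX w x).filter (fun n => ¬ WinP (1 / 10) 2 n)) := by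
      exact_mod_cast hcard1.symm
    have hcard3 : #((NX w x).filter (fun n => WinP (1 / 10) 2 n)) ≤ #G + #B := by
      rw [hG]
      have := card_le_card_sdiff_add_card (s := (NX w x).filter (fun n => WinP (1 / 10) 2 n)) (t := B)
      exact this
    have hcard4 : (#((NX w x).filter (fun n => WinP (1 / 10) 2 n)) : ℝ) ≤ #G + #B := by exact_mod_cast hcard3
    have hGc : 1 / (4 * (PM w : ℝ)) * x ≤ #G := by
      have e1 : (x : ℝ) / (2 * PM w) = 1 / (4 * PM w) * x + 1 / (8 * PM w) * x + 1 / (8 * PM w) * x := by field_simp; ring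
      linarith
    refine ⟨G.image (fun m => m / 2), ?_, ?_⟩
    · intro n hn
      rw [mem_image] at hn
      obtain ⟨m, hm, rfl⟩ := hn
      rw [hG, Finset.mem_sdiff, mem_filter] at hm
      obtain ⟨⟨m1, m2⟩, m3⟩ := hm
      obtain ⟨n1, n2, n3, n4⟩ := NX_mem w x m (by omega) (by omega) m1
      obtain ⟨k, hk⟩ := n3
      have e2 : 2 * (m / 2) = m := by omega
      refine ⟨by omega, by omega, ?_, ?_⟩
      · rintro ⟨p, p1, p2, p3, p4⟩
        rw [e2] at p2 p4
        have p5 := p3 p p1 rfl
        push Not at p5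
        have h6 : w < m - p := by
          by_contra hcon
          push Not at hcon
          apply m3
          rw [hB, mem_image]
          refine ⟨(m - p, p), ?_, by simp only; omega⟩
          rw [mem_product, mem_range, mem_filter, mem_Icc]
          exact ⟨by simp only; omega, ⟨p1.pos, by simp only; omega⟩, p1⟩
        have h7 := large_unit w (m - p) p4 h6
        have h8 : ((m - p : ℕ) : ZMod (PM w)) = 2 - (p : ZMod (PM w)) := by
          rw [Nat.cast_sub p2.le, n4]
        rw [h8] at h7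
        exact p5.2 h7
      · have r1 := h2r m n1 n2 m2
        have hQ0 : 0 < (x : ℝ) / Real.log x ^ 2 := by positivity
        have r2 : (0 : ℝ) < #(reps m) := by linarith
        have r3 : 0 < #(reps m) := by exact_mod_cast r2
        obtain ⟨p, hp⟩ := card_pos.1 r3
        rw [reps, mem_filter, mem_range] at hp
        refine ⟨p, hp.2.1, by rw [e2]; exact hp.1, trivial, by rw [e2]; exact hp.2.2.1⟩
    · rw [card_image_of_injOn]
      · refine le_trans ?_ hGc
        apply mul_le_mul_of_nonneg_right _ hx0.le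
        have := pm_const s w hwup
        have e : 2 * (4 * C) / η = 2 * s := by rw [hs]; ring
        rw [e]
        exact this
      · intro a ha b hb hab
        rw [mem_coe, hG, Finset.mem_sdiff, mem_filter] at ha hb
        obtain ⟨a1, a2, ⟨k, hk⟩, a4⟩ := NX_mem w x a (by omega) (by omega) ha.1.1
        obtain ⟨b1, b2, ⟨l, hl⟩, b4⟩ := NX_mem w x b (by omega) (by omega) hb.1.1
        simp only at hab
        omega

end Pool.Agent.W5h22.GS
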