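import Mathlib
import Pool.Agent.W5h22.PV.D
import Pool.Agent.W5h22.RB.M1
import Pool.Agent.H373R2.NB.SupE
import Pool.Agent.H373R2.NB.ModelB
import Pool.Agent.W5h22.JW.A
import Pool.Agent.W5h22.GS.L

set_option autoImplicit false

/-! The transference principle for the representations `n = p + q` with an arbitrary weight on `p`. -/

namespace Pool.Agent.W5h22.GS
open Finset
open Pool.Agent.Helper602.MK
open Pool.Agent.H373R2.NB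
open Pool.Agent.W5h22.PV
open Pool.Agent.W5h22.RB (u u_sup u_nonunit)
open Pool.Agent.W5h22.JW (second_w)

/-- the second moment of the error term -/
theorem second_f : ∃ C : ℝ, 0 < C ∧ ∀ κ : ℝ, 0 < κ → ∃ W₀ : ℕ, 1 ≤ W₀ ∧ ∃ τ₀ : ℝ, 0 < τ₀ ∧ ∃ k0 : ℕ, 2 ≤ k0 ∧ ∀ k : ℕ, k0 ≤ k →
    ∀ M : ℕ, [NeZero M] → k < M → M ≤ 100 * k → ∀ W J : ℕ, 1 ≤ J → W₀ ∣ W → ((J * W : ℕ) : ℝ) ≤ τ₀ * k → 
    ∀ f : ℕ → ℝ, (∀ p, |f p| ≤ 1) → 
      ∑ n : ZMod M, (∑ p ∈ PP k, f p * df W J (wZ (fun _ => 1) k M) (n - (p : ZMod M))) ^ 2 ≤ C * κ * ((k : ℝ) / Real.log k) ^ 4 / M := by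
  obtain ⟨C₁, hC₁, k1, hk1, h1⟩ := restr_w (1 / 2) (by norm_num) (by norm_num)
  refine ⟨9 * C₁, by positivity, ?_⟩
  intro κ hκ
  obtain ⟨W₀, hW₀, τ₀, hτ₀, k0, hk0, hsup⟩ := sup_small (κ ^ 2) (by positivity)
  refine ⟨W₀, hW₀, τ₀, hτ₀, max k0 k1, le_trans hk0 (le_max_left _ _), ?_⟩
  intro k hk M hM hkM hM100 W J hJ hWW hJW f hf1
  have hkk0 : k0 ≤ k := le_trans (le_max_left _ _) hk
  have hkk1 : k1 ≤ k := le_trans (le_max_right _ _) hk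
  have hk2 : 2 ≤ k := hk0.trans hkk0
  have hkpos : (0 : ℝ) < k := by exact_mod_cast (by omega : 0 < k)
  have hlk : 0 < Real.log k := Real.log_pos (by exact_mod_cast hk2)
  have hM0 : (0 : ℝ) < M := by exact_mod_cast (by omega : 0 < M)
  set v : ZMod M → ℝ := df W J (wZ (fun _ => 1) k M) with hv
  have hid := second_w v (PP k) f (fun p => -((p : ℕ) : ZMod M))
  have ha1 : ∀ p : ℕ, |(fun _ : ℕ => (1 : ℝ)) p| ≤ 1 := by intro p; norm_num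
  have haw : ∀ ξ : ZMod M, hat (aZ k M) ξ = hat (wZ (fun _ => 1) k M) ξ := by
    intro ξ; congr 1
  set g : ZMod M → ℝ := fun ξ => ‖hat (wZ f k M) ξ‖ ^ 2 * (Real.log k / k) ^ 2 with hg
  set G : ZMod M → ℝ := fun ξ => ‖hat v ξ‖ ^ 2 * (Real.log k / k) ^ 2 with hG
  have hg0 : ∀ ξ, 0 ≤ g ξ := fun ξ => by positivity
  have hG0 : ∀ ξ, 0 ≤ G ξ := fun ξ => by positivity
  have hGκ : ∀ ξ, G ξ ≤ κ ^ 2 := by
    intro ξ
    have h2 := hsup k hkk0 M hkM W J hJ hWW hJW ξ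
    rw [hat_EZ, norm_mul, haw] at h2
    simp only [hG, hv]
    rw [norm_hat_df]
    exact h2
  have hGa : ∀ ξ, G ξ ≤ 4 * (‖hat (wZ (fun _ => 1) k M) ξ‖ ^ 2 * (Real.log k / k) ^ 2) := by
    intro ξ
    simp only [hG, hv]
    rw [norm_hat_df]
    have h2 := one_sub_nuZ_two (M := M) W J hJ ξ
    have h3 : ‖1 - nuZ W J ξ‖ ^ 2 ≤ 4 := by
      have := norm_nonneg (1 - nuZ W J ξ)
      nlinarith
    calc (‖1 - nuZ W J ξ‖ * ‖hat (wZ (fun _ => 1) k M) ξ‖) ^ 2 * (Real.log k / k) ^ 2 = ‖1 - nuZ W J ξ‖ ^ 2 * (‖hat (wZ (fun _ => 1) k M) ξ‖ ^ 2 * (Real.log k / k) ^ 2) := by ring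
      _ ≤ _ := mul_le_mul_of_nonneg_right h3 (by positivity)
  have hs1 : ∑ ξ, g ξ ^ (3 / 2 : ℝ) ≤ C₁ := by
    have := h1 k hkk1 M hkM hM100 f hf1
    norm_num at this ⊢
    exact this
  have hs2 : ∑ ξ, G ξ ^ (3 / 2 : ℝ) ≤ 8 * C₁ := by
    have h2 := h1 k hkk1 M hkM hM100 (fun _ => 1) ha1
    have h3 : ∑ ξ : ZMod M, (‖hat (wZ (fun _ => 1) k M) ξ‖ ^ 2 * (Real.log k / k) ^ 2) ^ (3 / 2 : ℝ) ≤ C₁ := by
      norm_num at h2 ⊢
      exact h2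
    calc ∑ ξ, G ξ ^ (3 / 2 : ℝ) ≤ ∑ ξ, 8 * (‖hat (wZ (fun _ => 1) k M) ξ‖ ^ 2 * (Real.log k / k) ^ 2) ^ (3 / 2 : ℝ) := by
          apply sum_le_sum
          intro ξ _
          calc G ξ ^ (3 / 2 : ℝ) ≤ (4 * (‖hat (wZ (fun _ => 1) k M) ξ‖ ^ 2 * (Real.log k / k) ^ 2)) ^ (3 / 2 : ℝ) :=
                Real.rpow_le_rpow (hG0 ξ) (hGa ξ) (by norm_num)
            _ = _ := by
                rw [Real.mul_rpow (by norm_num) (by positivity)]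
                congr 1
                rw [show (4 : ℝ) = 2 ^ (2 : ℝ) by norm_num, ← Real.rpow_mul (by norm_num)]
                norm_num
      _ = 8 * ∑ ξ : ZMod M, (‖hat (wZ (fun _ => 1) k M) ξ‖ ^ 2 * (Real.log k / k) ^ 2) ^ (3 / 2 : ℝ) := by rw [mul_sum]
      _ ≤ _ := by linarith
  have hterm : ∀ ξ, G ξ * g ξ ≤ κ * (g ξ ^ (3 / 2 : ℝ) + G ξ ^ (3 / 2 : ℝ)) := by
    intro ξ
    have k1 := hg0 ξ
    have k2 := hG0 ξ
    have k3 : G ξ ^ (1 / 2 : ℝ) ≤ κ := by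
      calc G ξ ^ (1 / 2 : ℝ) ≤ (κ ^ 2) ^ (1 / 2 : ℝ) := Real.rpow_le_rpow k2 (hGκ ξ) (by norm_num)
        _ = κ := by
            rw [← Real.sqrt_eq_rpow, Real.sqrt_sq hκ.le]
    have k4 : G ξ = G ξ ^ (1 / 2 : ℝ) * G ξ ^ (1 / 2 : ℝ) := by
      rw [← Real.rpow_add_of_nonneg k2 (by norm_num) (by norm_num)]; norm_num
    have k5 : 0 ≤ G ξ ^ (1 / 2 : ℝ) := Real.rpow_nonneg k2 _
    have k6 : G ξ ^ (1 / 2 : ℝ) * g ξ ≤ g ξ ^ (3 / 2 : ℝ) + G ξ ^ (3 / 2 : ℝ) := by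
      have k7 : 0 ≤ g ξ ^ (3 / 2 : ℝ) := Real.rpow_nonneg k1 _
      have k8 : 0 ≤ G ξ ^ (3 / 2 : ℝ) := Real.rpow_nonneg k2 _
      rcases le_or_gt (G ξ) (g ξ) with h | h
      · have k9 : G ξ ^ (1 / 2 : ℝ) * g ξ ≤ g ξ ^ (3 / 2 : ℝ) := by
          calc G ξ ^ (1 / 2 : ℝ) * g ξ ≤ g ξ ^ (1 / 2 : ℝ) * g ξ := mul_le_mul_of_nonneg_right (Real.rpow_le_rpow k2 h (by norm_num)) k1
            _ = g ξ ^ (3 / 2 : ℝ) := by
                rw [show (3 / 2 : ℝ) = 1 / 2 + 1 by norm_num, Real.rpow_add_of_nonneg k1 (by norm_num) (by norm_num), Real.rpow_one]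
        linarith
      · have k9 : G ξ ^ (1 / 2 : ℝ) * g ξ ≤ G ξ ^ (3 / 2 : ℝ) := by
          calc G ξ ^ (1 / 2 : ℝ) * g ξ ≤ G ξ ^ (1 / 2 : ℝ) * G ξ := mul_le_mul_of_nonneg_left h.le k5
            _ = G ξ ^ (3 / 2 : ℝ) := by
                rw [show (3 / 2 : ℝ) = 1 / 2 + 1 by norm_num, Real.rpow_add_of_nonneg k2 (by norm_num) (by norm_num), Real.rpow_one]
        linarith
    calc G ξ * g ξ = (G ξ ^ (1 / 2 : ℝ) * G ξ ^ (1 / 2 : ℝ)) * g ξ := by rw [← k4]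
      _ = G ξ ^ (1 / 2 : ℝ) * (G ξ ^ (1 / 2 : ℝ) * g ξ) := by ring
      _ ≤ κ * (g ξ ^ (3 / 2 : ℝ) + G ξ ^ (3 / 2 : ℝ)) := mul_le_mul k3 k6 (mul_nonneg k5 k1) hκ.le
  have hsum : ∑ ξ, G ξ * g ξ ≤ 9 * C₁ * κ := by
    calc ∑ ξ, G ξ * g ξ ≤ ∑ ξ, κ * (g ξ ^ (3 / 2 : ℝ) + G ξ ^ (3 / 2 : ℝ)) := sum_le_sum fun ξ _ => hterm ξ
      _ = κ * (∑ ξ, g ξ ^ (3 / 2 : ℝ) + ∑ ξ, G ξ ^ (3 / 2 : ℝ)) := by rw [← mul_sum, sum_add_distrib]
      _ ≤ κ * (C₁ + 8 * C₁) := by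
          apply mul_le_mul_of_nonneg_left _ hκ.le
          linarith
      _ = _ := by ring
  -- the exponential sum over the primes
  have hexp : ∀ ξ : ZMod M, ‖∑ p ∈ PP k, (f p : ℂ) * (ZMod.stdAddChar (ξ * -((p : ℕ) : ZMod M)) : ℂ)‖ = ‖hat (wZ f k M) ξ‖ := by
    intro ξ
    rw [hat_wZ f k hkM]
    have h3 : ∑ p ∈ PP k, (f p : ℂ) * (ZMod.stdAddChar (ξ * -((p : ℕ) : ZMod M)) : ℂ) =
        (starRingEnd ℂ) (∑ p ∈ PP k, (f p : ℂ) * ee ((ξ.val : ℝ) * p / M)) := by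
      rw [map_sum]
      apply sum_congr rfl
      intro p _
      have e1 : ∀ z : ℂ, (starRingEnd ℂ) ((f p : ℂ) * z) = (f p : ℂ) * (starRingEnd ℂ) z := fun z => by
        rw [map_mul, Complex.conj_ofReal]
      rw [e1, ← chi_eq, chi_conj, mul_neg]
    rw [h3, RCLike.norm_conj]
  have hkey : (M : ℝ) * ∑ n : ZMod M, (∑ p ∈ PP k, f p * v (n - (p : ZMod M))) ^ 2 ≤ 9 * C₁ * κ * ((k : ℝ) / Real.log k) ^ 4 := by
    have h2 : ∑ n : ZMod M, (∑ p ∈ PP k, f p * v (n - (p : ZMod M))) ^ 2 = ∑ n : ZMod M, (∑ p ∈ PP k, f p * v (n + -(p : ZMod M))) ^ 2 := by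
      simp_rw [sub_eq_add_neg]
    rw [h2, hid]
    have h3 : ∀ ξ : ZMod M, ‖hat v ξ‖ ^ 2 * ‖∑ p ∈ PP k, (f p : ℂ) * (ZMod.stdAddChar (ξ * -((p : ℕ) : ZMod M)) : ℂ)‖ ^ 2 =
        (G ξ * g ξ) * ((k : ℝ) / Real.log k) ^ 4 := by
      intro ξ
      rw [hexp ξ]
      simp only [hG, hg]
      have : Real.log k ≠ 0 := hlk.ne'
      field_simp
    rw [sum_congr rfl fun ξ _ => h3 ξ, ← sum_mul]
    exact mul_le_mul_of_nonneg_right hsum (by positivity)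
  rw [le_div_iff₀ hM0, mul_comm]
  exact hkey

open Filter in
/-- **Transference**: for almost all `n` the weighted number of representations is close to its local average. -/
theorem transferF (ρ : ℝ) (hρ : 0 < ρ) : ∃ W₀ : ℕ, 1 ≤ W₀ ∧ ∃ τ₀ : ℝ, 0 < τ₀ ∧ τ₀ ≤ 1 ∧ ∀ W : ℕ, 1 ≤ W → W₀ ∣ W →
    ∀ τ : ℝ, 0 < τ → τ ≤ τ₀ → ∀ᶠ X : ℕ in atTop, ∀ f : ℕ → ℝ, (∀ p, |f p| ≤ 1) →
      (#((Ioc X (2 * X)).filter (fun n : ℕ => ρ * ((X : ℝ) / Real.log X ^ 2) <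
        |∑ p ∈ PP (2 * X), f p * pk (fun _ => 1) (2 * X) ((n : ℤ) - p) -
          ∑ p ∈ PP (2 * X), f p * u (fun _ => 1) (2 * X) W ⌊τ * X / W⌋₊ ((n : ℤ) - p)|)) : ℝ) ≤ ρ * X := by
  obtain ⟨C, hC, hsec⟩ := second_f
  obtain ⟨W₀, hW₀, τ₀, hτ₀, k0, hk0, hs⟩ := hsec (ρ ^ 3 / (4 * C)) (by positivity)
  refine ⟨W₀, hW₀, min τ₀ 1, by positivity, min_le_right _ _, ?_⟩
  intro W hW hWW τ hτ0 hττ'
  have hτ1 : τ ≤ 1 := hττ'.trans (min_le_right _ _)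
  have hττ : τ ≤ τ₀ := hττ'.trans (min_le_left _ _)
  have hW0r : (1 : ℝ) ≤ W := by exact_mod_cast hW
  have hW0p : (0 : ℝ) < W := by linarith
  have hevN : ∀ᶠ N : ℕ in atTop, 2 * W / τ ≤ N := tendsto_natCast_atTop_atTop.eventually_ge_atTop _
  filter_upwards [hevN, eventually_ge_atTop (k0 + 4)] with X hX1 hX2
  intro f hf1
  have hX3 : (3 : ℝ) ≤ X := by exact_mod_cast (by omega : 3 ≤ X)
  have hX0 : (0 : ℝ) < X := by linarith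
  have hlX : 0 < Real.log X := Real.log_pos (by linarith)
  have : NeZero (5 * X) := ⟨by omega⟩
  set J : ℕ := ⌊τ * X / W⌋₊ with hJ
  have hJle : (J : ℝ) ≤ τ * X / W := Nat.floor_le (by positivity)
  have hge2 : 2 ≤ τ * X / W := by
    rw [le_div_iff₀ hW0p]
    rw [div_le_iff₀ hτ0] at hX1
    linarith
  have hJ1 : 1 ≤ J := by
    rw [hJ, Nat.one_le_floor_iff]
    linarith
  have hJW : ((J * W : ℕ) : ℝ) ≤ τ * X := by
    push_cast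
    rw [le_div_iff₀ hW0p] at hJle
    exact hJle
  have hJWN : J * W ≤ X := by
    have : ((J * W : ℕ) : ℝ) ≤ X := hJW.trans (by nlinarith)
    exact_mod_cast this
  have h1 := hs (2 * X) (by omega) (5 * X) (by omega) (by omega) W J hJ1 hWW (by
        push_cast
        push_cast at hJW
        calc (J : ℝ) * W ≤ τ * X := hJW
          _ ≤ τ₀ * (2 * X) := by nlinarith) f hf1
  set H : ZMod (5 * X) → ℝ := fun n => (∑ p ∈ PP (2 * X), f p * df W J (wZ (fun _ => 1) (2 * X) (5 * X)) (n - (p : ZMod (5 * X)))) ^ 2 with hH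
  have hH0 : ∀ n, 0 ≤ H n := fun n => sq_nonneg _
  have h2 : ∑ n ∈ Ioc X (2 * X), H ((n : ℕ) : ZMod (5 * X)) ≤ ∑ n : ZMod (5 * X), H n := by
    rw [← sum_image (s := Ioc X (2 * X)) (g := fun n : ℕ => (n : ZMod (5 * X))) (f := H)]
    · exact sum_le_sum_of_subset_of_nonneg (subset_univ _) (fun n _ _ => hH0 n)
    · intro a ha b hb hab
      rw [mem_coe, mem_Ioc] at ha hb
      simp only at hab
      have e1 := congrArg ZMod.val hab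
      rwa [ZMod.val_natCast_of_lt (by omega), ZMod.val_natCast_of_lt (by omega)] at e1
  have h3 : ∀ n ∈ Ioc X (2 * X), H ((n : ℕ) : ZMod (5 * X)) = (∑ p ∈ PP (2 * X), f p * pk (fun _ => 1) (2 * X) ((n : ℤ) - p) -
          ∑ p ∈ PP (2 * X), f p * u (fun _ => 1) (2 * X) W J ((n : ℤ) - p)) ^ 2 := by
    intro n hn
    rw [mem_Ioc] at hn
    simp only [hH]
    rw [← sum_sub_distrib]
    congr 1
    apply sum_congr rfl
    intro p hp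
    have hp2 := ((mem_PP _ _).1 hp).1
    have h4 := df_int (M := 5 * X) (fun _ => 1) (2 * X) W J ((n : ℤ) - p) (by push_cast; omega) (by
      have h5 : ((J * W : ℕ) : ℤ) ≤ X := by exact_mod_cast hJWN
      push_cast at *
      omega)
    unfold u
    rw [← mul_sub, ← h4]
    congr 2
    push_cast; ring
  set lam : ℝ := ρ * ((X : ℝ) / Real.log X ^ 2) with hlam
  have hlam0 : 0 < lam := by positivity
  have h4 := markov (Ioc X (2 * X)) (fun n => H ((n : ℕ) : ZMod (5 * X))) (lam ^ 2) (fun n _ => hH0 _)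
  have h5 : (Ioc X (2 * X)).filter (fun n : ℕ => lam <
        |∑ p ∈ PP (2 * X), f p * pk (fun _ => 1) (2 * X) ((n : ℤ) - p) -
          ∑ p ∈ PP (2 * X), f p * u (fun _ => 1) (2 * X) W J ((n : ℤ) - p)|) ⊆ (Ioc X (2 * X)).filter (fun n => lam ^ 2 < H ((n : ℕ) : ZMod (5 * X))) := by
    intro n hn
    rw [mem_filter] at hn ⊢
    refine ⟨hn.1, ?_⟩
    rw [h3 n hn.1, ← sq_abs (∑ p ∈ PP (2 * X), f p * pk (fun _ => 1) (2 * X) ((n : ℤ) - p) - _)]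
    exact pow_lt_pow_left₀ hn.2 hlam0.le (by norm_num)
  have h6 : (#((Ioc X (2 * X)).filter (fun n => lam ^ 2 < H ((n : ℕ) : ZMod (5 * X)))) : ℝ) * lam ^ 2 ≤ (ρ * X) * lam ^ 2 := by
    refine h4.trans (h2.trans (h1.trans ?_))
    have hl2 : Real.log X ≤ Real.log (2 * X) := Real.log_le_log hX0 (by linarith)
    have h7 : (((2 * X : ℕ) : ℝ) / Real.log ((2 * X : ℕ) : ℝ)) ^ 4 ≤ (2 * X / Real.log X) ^ 4 := by
      push_cast
      apply pow_le_pow_left₀ (div_nonneg (by positivity) (hlX.le.trans hl2))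
      exact div_le_div_of_nonneg_left (by positivity) hlX hl2
    calc C * (ρ ^ 3 / (4 * C)) * (((2 * X : ℕ) : ℝ) / Real.log ((2 * X : ℕ) : ℝ)) ^ 4 / ((5 * X : ℕ) : ℝ) ≤
        C * (ρ ^ 3 / (4 * C)) * (2 * X / Real.log X) ^ 4 / ((5 * X : ℕ) : ℝ) := by gcongr
      _ = (4 / 5) * (ρ ^ 3 * X ^ 3 / Real.log X ^ 4) := by
          push_cast
          field_simp
          ring
      _ ≤ ρ ^ 3 * X ^ 3 / Real.log X ^ 4 := by
          have : 0 ≤ ρ ^ 3 * X ^ 3 / Real.log X ^ 4 := by positivity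
          linarith
      _ = (ρ * X) * lam ^ 2 := by
          rw [hlam]
          field_simp
  have h7 := le_of_mul_le_mul_right h6 (pow_pos hlam0 2)
  refine le_trans ?_ h7
  exact_mod_cast card_le_card h5

end Pool.Agent.W5h22.GS
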