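import Mathlib
import Pool.Agent.W5h22.GS.M

set_option autoImplicit false

/-! The local-to-global principle: for almost all `n` the number of the representations `n = p + q` with a
weight on `p` is close to what the residue classes predict. -/

namespace Pool.Agent.W5h22.GS
open Finset Filter
open Pool.Agent.Helper602.MK
open Pool.Agent.H373R2.NB (bZ aZ model_b)
open Pool.Agent.W5h22.PV (mem_PP pk evt_div_log)
open Pool.Agent.W5h22.RB (u u_sup u_nonneg tot_pos n_pos)

lemma u_bZ (K W J m : ℕ) (h : m + (J + 1) * W ≤ K) :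
    u (fun _ => 1) K W J (m : ℤ) = bZ K (K + 1) W J ((m + (J + 1) * W : ℕ) : ZMod (K + 1)) := by
  unfold u bZ
  congr 1
  apply sum_nbij' (fun j => J + 1 - j) (fun j => J + 1 - j)
  · intro j hj; rw [mem_Icc] at hj ⊢; omega
  · intro j hj; rw [mem_Icc] at hj ⊢; omega
  · intro j hj; rw [mem_Icc] at hj; omega
  · intro j hj; rw [mem_Icc] at hj; omega
  · intro j hj
    rw [mem_Icc] at hj
    have e0 : (J + 1) * W = j * W + (J + 1 - j) * W := by rw [← add_mul]; congr 1; omega
    have e1 : m + (J + 1) * W = (m + j * W) + (J + 1 - j) * W := by omega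
    have e2 : ((m + (J + 1) * W : ℕ) : ZMod (K + 1)) - (((J + 1 - j) * W : ℕ) : ZMod (K + 1)) = ((m + j * W : ℕ) : ZMod (K + 1)) := by
      rw [e1, Nat.cast_add (m + j * W), add_sub_cancel_right]
    unfold pk aZ
    rw [e2, ZMod.val_natCast_of_lt (by omega)]
    have e3 : ((m : ℤ) + (j * W : ℕ)).toNat = m + j * W := by
      have : ((m : ℤ) + (j * W : ℕ)) = ((m + j * W : ℕ) : ℤ) := by push_cast; ring
      rw [this, Int.toNat_natCast]
    rw [e3]

lemma u_asym (W : ℕ) (hW : 1 ≤ W) (τ ε : ℝ) (hτ : 0 < τ) (hτ1 : τ ≤ 1) (hε : 0 < ε) :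
    ∀ᶠ X : ℕ in atTop, ∀ m : ℕ, 2 * τ * X ≤ m → (m : ℝ) + 2 * τ * X ≤ 2 * X →
      (Nat.Coprime m W → |u (fun _ => 1) (2 * X) W ⌊τ * X / W⌋₊ (m : ℤ) - (W / W.totient) / Real.log (2 * X : ℕ)| ≤
        ε * ((W / W.totient) / Real.log (2 * X : ℕ))) ∧
      (¬ Nat.Coprime m W → u (fun _ => 1) (2 * X) W ⌊τ * X / W⌋₊ (m : ℤ) = 0) := by
  obtain ⟨K₀, hK₀⟩ := model_b W hW (τ / 2) τ ε (by linarith) (by linarith) hτ1 hε
  have hW0 : (0 : ℝ) < W := by exact_mod_cast hW
  have hev : ∀ᶠ X : ℕ in atTop, 2 * W / τ ≤ (X : ℝ) := tendsto_natCast_atTop_atTop.eventually_ge_atTop _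
  filter_upwards [hev, eventually_ge_atTop K₀] with X hX1 hX2
  intro m hm1 hm2
  rw [div_le_iff₀ hτ] at hX1
  have hX0 : (0 : ℝ) ≤ X := Nat.cast_nonneg _
  set J := ⌊τ * X / W⌋₊ with hJ
  have hJ1 : ((J * W : ℕ) : ℝ) ≤ τ * X := by
    have := Nat.floor_le (show 0 ≤ τ * X / W by positivity)
    rw [← hJ, le_div_iff₀ hW0] at this
    push_cast; exact this
  have hJ2 : τ * X - W ≤ ((J * W : ℕ) : ℝ) := by
    have := Nat.lt_floor_add_one (τ * X / W)
    rw [← hJ, div_lt_iff₀ hW0] at this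
    push_cast; linarith
  have hm3 : ((m + (J + 1) * W : ℕ) : ℝ) ≤ ((2 * X : ℕ) : ℝ) := by
    push_cast
    push_cast at hJ1
    linarith
  have hm4 : m + (J + 1) * W ≤ 2 * X := by exact_mod_cast hm3
  rw [u_bZ (2 * X) W J m hm4]
  have h1 := hK₀ (2 * X) (by omega) J (by push_cast at *; linarith) (by push_cast at *; linarith) (2 * X + 1) (by omega)
    (m + (J + 1) * W) (by push_cast at *; nlinarith) hm4
  have h2 : Nat.Coprime (m + (J + 1) * W) W ↔ Nat.Coprime m W := Nat.coprime_add_mul_right_left _ _ _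
  rw [h2] at h1
  refine ⟨fun h => ?_, fun h => h1.2 h⟩
  obtain ⟨h3, h4⟩ := h1.1 h
  rw [abs_le]
  constructor <;> linarith

lemma ev_J (W : ℕ) (hW : 1 ≤ W) (τ : ℝ) (hτ : 0 < τ) : ∀ᶠ X : ℕ in atTop, 2 ≤ ⌊τ * X / W⌋₊ ∧
    1 / 2 * Real.log X ≤ Real.log ⌊τ * X / W⌋₊ := by
  have hW0 : (0 : ℝ) < W := by exact_mod_cast hW
  have e1 : ∀ᶠ X : ℕ in atTop, 2 * W / τ ≤ (X : ℝ) ^ (1 / 2 : ℝ) :=
    ((tendsto_rpow_atTop (by norm_num : (0 : ℝ) < 1 / 2)).comp tendsto_natCast_atTop_atTop).eventually_ge_atTop _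
  have e2 : ∀ᶠ X : ℕ in atTop, (2 : ℝ) ≤ (X : ℝ) ^ (1 / 2 : ℝ) :=
    ((tendsto_rpow_atTop (by norm_num : (0 : ℝ) < 1 / 2)).comp tendsto_natCast_atTop_atTop).eventually_ge_atTop _
  filter_upwards [e1, e2, eventually_ge_atTop 1] with X h1 h2 hX
  have hX0 : (0 : ℝ) < X := by exact_mod_cast hX
  set s := (X : ℝ) ^ (1 / 2 : ℝ) with hs
  have hss : s * s = X := by rw [hs, ← Real.rpow_add hX0]; norm_num
  have hs0 : 0 < s := by linarith
  have h3 : 2 * s ≤ τ * X / W := by
    rw [le_div_iff₀ hW0, ← hss]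
    rw [div_le_iff₀ hτ] at h1
    nlinarith
  have h4 : s ≤ (⌊τ * X / W⌋₊ : ℝ) := by
    have := Nat.lt_floor_add_one (τ * X / W)
    linarith
  constructor
  · have : (2 : ℝ) ≤ (⌊τ * X / W⌋₊ : ℝ) := h2.trans h4
    exact_mod_cast this
  · calc 1 / 2 * Real.log X = Real.log s := by rw [hs, Real.log_rpow hX0]
      _ ≤ _ := Real.log_le_log hs0 h4

lemma primes_short : ∃ C : ℝ, 1 ≤ C ∧ ∀ θ : ℝ, 0 < θ → ∀ᶠ X : ℕ in atTop, ∀ a : ℕ, ∀ S : Finset ℕ,
    (∀ p ∈ S, p.Prime ∧ a ≤ p ∧ (p : ℝ) ≤ a + θ * X) → (#S : ℝ) ≤ C * θ * (X / Real.log X) := by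
  obtain ⟨C, hC, hJ3⟩ := N_J3.J3
  refine ⟨4 * C, by linarith, ?_⟩
  intro θ hθ
  have e1 := ev_J 1 le_rfl θ hθ
  have e2 : ∀ᶠ X : ℕ in atTop, 1 / θ ≤ (X : ℝ) := tendsto_natCast_atTop_atTop.eventually_ge_atTop _
  filter_upwards [e1, e2, eventually_ge_atTop 3] with X h1 h2 hX
  intro a S hS
  simp only [Nat.cast_one, div_one] at h1
  have hX0 : (0 : ℝ) < X := by exact_mod_cast (by omega : 0 < X)
  have hlX : 0 < Real.log X := Real.log_pos (by exact_mod_cast (by omega : 1 < X))
  set N := ⌊θ * X⌋₊ + 1 with hN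
  have hN0 : (0 : ℝ) < ⌊θ * X⌋₊ := by exact_mod_cast (by omega : 0 < ⌊θ * X⌋₊)
  have h3 := hJ3 a 1 N le_rfl (by omega)
  have h4 : #S ≤ #((range N).filter (fun t => (a + t * 1).Prime)) := by
    apply card_le_card_of_injOn (fun p => p - a)
    · intro p hp
      rw [mem_coe] at hp
      obtain ⟨hp1, hp2, hp3⟩ := hS p hp
      rw [mem_coe, mem_filter, mem_range]
      dsimp only
      constructor
      · have h5 : ((p - a : ℕ) : ℝ) ≤ θ * X := by
          rw [Nat.cast_sub hp2]; linarith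
        have := Nat.le_floor h5
        omega
      · rw [mul_one, show a + (p - a) = p by omega]
        exact hp1
    · intro p hp q hq hpq
      rw [mem_coe] at hp hq
      have := (hS p hp).2.1
      have := (hS q hq).2.1
      simp only at hpq
      omega
  have h5 : (N : ℝ) ≤ 2 * (θ * X) := by
    rw [hN]
    push_cast
    have := Nat.floor_le (show 0 ≤ θ * X by positivity)
    rw [div_le_iff₀ hθ] at h2
    linarith
  have h6 : 1 / 2 * Real.log X ≤ Real.log N := h1.2.trans (Real.log_le_log hN0 (by rw [hN]; push_cast; linarith))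
  have h7 : (#S : ℝ) ≤ C * N / Real.log N := by
    refine le_trans (by exact_mod_cast h4) (h3.trans (le_of_eq ?_))
    simp
  refine h7.trans ?_
  calc C * N / Real.log N ≤ C * (2 * (θ * X)) / (1 / 2 * Real.log X) := by
        apply div_le_div₀ (by positivity) _ (by positivity) h6
        exact mul_le_mul_of_nonneg_left h5 (by linarith)
    _ = _ := by field_simp; ring

lemma log_gap (ε : ℝ) (hε : 0 < ε) : ∀ᶠ X : ℕ in atTop, 1 / Real.log X - 1 / Real.log (2 * X : ℕ) ≤ ε / Real.log X := by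
  have h1 : ∀ᶠ X : ℕ in atTop, (1 / ε : ℝ) ≤ Real.log X :=
    (Real.tendsto_log_atTop.comp tendsto_natCast_atTop_atTop).eventually_ge_atTop _
  filter_upwards [h1, eventually_ge_atTop 3] with X hX hX3
  have hX0 : (0 : ℝ) < X := by exact_mod_cast (by omega : 0 < X)
  have hlX : 0 < Real.log X := Real.log_pos (by exact_mod_cast (by omega : 1 < X))
  have h2 : Real.log (2 * X : ℕ) = Real.log 2 + Real.log X := by
    push_cast
    rw [Real.log_mul (by norm_num) hX0.ne']
  have h3 : 0 < Real.log 2 := Real.log_pos (by norm_num)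
  have h4 : Real.log 2 ≤ 1 := by have := Real.log_two_lt_d9; linarith
  rw [h2]
  have h5 : 1 / Real.log X - 1 / (Real.log 2 + Real.log X) = (Real.log 2 / (Real.log 2 + Real.log X)) / Real.log X := by
    field_simp
    ring
  rw [h5]
  apply div_le_div_of_nonneg_right _ hlX.le
  rw [div_le_iff₀ (by positivity)]
  rw [div_le_iff₀ hε] at hX
  nlinarith

lemma u_neg (W J K : ℕ) (m : ℤ) (h : m + (J * W : ℕ) ≤ 0) : u (fun _ => 1) K W J m = 0 := by
  unfold u
  rw [sum_eq_zero, mul_zero]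
  intro j hj
  rw [mem_Icc] at hj
  unfold pk
  rw [if_neg]
  intro h1
  rw [mem_PP] at h1
  have h2 := h1.2.1.pos
  have h3 : ((j * W : ℕ) : ℤ) ≤ (J * W : ℕ) := by exact_mod_cast Nat.mul_le_mul_right W hj.2
  omega

/-- the averages are close to the densities -/
lemma model_cmp (W : ℕ) (hW : 1 ≤ W) (ρ : ℝ) (hρ : 0 < ρ) : ∃ τ₁ : ℝ, 0 < τ₁ ∧ ∀ τ : ℝ, 0 < τ → τ ≤ τ₁ → ∀ᶠ X : ℕ in atTop,
    ∀ f : ℕ → ℝ, (∀ p, |f p| ≤ 1) → ∀ n : ℕ, X < n → n ≤ 2 * X →
      |∑ p ∈ PP (2 * X), f p * u (fun _ => 1) (2 * X) W ⌊τ * X / W⌋₊ ((n : ℤ) - p) -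
        (W / W.totient : ℝ) / Real.log X * ∑ p ∈ (range n).filter (fun p => p.Prime ∧ Nat.Coprime (n - p) W), f p| ≤
        ρ * (X / Real.log X ^ 2) := by
  obtain ⟨C₁, hC₁, hps⟩ := primes_short
  obtain ⟨C₂, hC₂, hus⟩ := u_sup
  have hNZ : NeZero W := ⟨by omega⟩
  have hW0 : (0 : ℝ) < W := by exact_mod_cast hW
  have hφ : (0 : ℝ) < W.totient := tot_pos W
  set A : ℝ := W / W.totient with hA
  have hA0 : 0 < A := by positivity
  refine ⟨min 1 (ρ / (20 * C₁ * (2 * C₂ + 1) * A)), by positivity, ?_⟩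
  intro τ hτ hττ
  have hτ1 : τ ≤ 1 := hττ.trans (min_le_left _ _)
  have hτ2 : 5 * C₁ * τ * ((2 * C₂ + 1) * A) ≤ ρ / 4 := by
    have := hττ.trans (min_le_right _ _)
    rw [le_div_iff₀ (by positivity)] at this
    linarith
  set ε₁ : ℝ := ρ / (32 * A) with hε₁
  have hε₁0 : 0 < ε₁ := by positivity
  filter_upwards [u_asym W hW τ ε₁ hτ hτ1 hε₁0, ev_J W hW τ hτ, log_gap ε₁ hε₁0, hps (3 * τ) (by linarith), hps (2 * τ) (by linarith),
    pc_upper, ev_sqrt A (ρ / 2) hA0 (by linarith), ev_log2, eventually_ge_atTop 3] with X hua hJ hgap hs1 hs2 hpc hsq hl2 hX3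
  intro f hf n hn1 hn2
  have hX0 : (0 : ℝ) < X := by exact_mod_cast (by omega : 0 < X)
  have hlX : 0 < Real.log X := Real.log_pos (by exact_mod_cast (by omega : 1 < X))
  have hl1 : 1 ≤ Real.log X := hl2.1
  set J := ⌊τ * X / W⌋₊ with hJd
  have hJW : ((J * W : ℕ) : ℝ) ≤ τ * X := by
    have := Nat.floor_le (show 0 ≤ τ * X / W by positivity)
    rw [← hJd, le_div_iff₀ hW0] at this
    push_cast; exact this
  have hlJ : 0 < Real.log J := lt_of_lt_of_le (by positivity) hJ.2
  have hXL : (X : ℝ) / Real.log X ^ 2 = (X / Real.log X) / Real.log X := by field_simp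
  -- the local densities
  set v : ℕ → ℝ := fun p => if p < n ∧ Nat.Coprime (n - p) W then A / Real.log X else 0 with hv
  have hv0 : ∀ p, 0 ≤ v p := by intro p; simp only [hv]; split_ifs; positivity; exact le_rfl
  have hv1 : ∀ p, v p ≤ A / Real.log X := by intro p; simp only [hv]; split_ifs; exact le_rfl; positivity
  -- the small primes
  set L := (range n).filter (fun p => p.Prime ∧ Nat.Coprime (n - p) W) with hL
  have hsplit : A / Real.log X * ∑ p ∈ L, f p = ∑ p ∈ PP (2 * X), f p * v p + A / Real.log X * ∑ p ∈ L.filter (fun p => p ∉ PP (2 * X)), f p := by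
    rw [← sum_filter_add_sum_filter_not L (fun p => p ∈ PP (2 * X)), mul_add]
    congr 1
    rw [mul_sum]
    have h1 : L.filter (fun p => p ∈ PP (2 * X)) = (PP (2 * X)).filter (fun p => p < n ∧ Nat.Coprime (n - p) W) := by
      ext p
      simp only [hL, mem_filter, mem_range, mem_PP]
      tauto
    rw [h1, sum_filter]
    apply sum_congr rfl
    intro p _
    simp only [hv]
    split_ifs <;> ring
  have hsmall : |A / Real.log X * ∑ p ∈ L.filter (fun p => p ∉ PP (2 * X)), f p| ≤ ρ / 2 * (X / Real.log X ^ 2) := by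
    have h1 : |∑ p ∈ L.filter (fun p => p ∉ PP (2 * X)), f p| ≤ Nat.sqrt (2 * X) + 1 := by
      calc |∑ p ∈ L.filter (fun p => p ∉ PP (2 * X)), f p| ≤ ∑ p ∈ L.filter (fun p => p ∉ PP (2 * X)), |f p| := abs_sum_le_sum_abs _ _
        _ ≤ ∑ p ∈ L.filter (fun p => p ∉ PP (2 * X)), 1 := sum_le_sum fun p _ => hf p
        _ = #(L.filter (fun p => p ∉ PP (2 * X))) := by rw [sum_const, nsmul_eq_mul, mul_one]
        _ ≤ #(range (Nat.sqrt (2 * X) + 1)) := by
            have : L.filter (fun p => p ∉ PP (2 * X)) ⊆ range (Nat.sqrt (2 * X) + 1) := by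
              intro p hp
              rw [mem_filter, hL, mem_filter, mem_range, mem_PP] at hp
              rw [mem_range, Nat.lt_succ_iff, Nat.le_sqrt, ← sq]
              obtain ⟨⟨h2, h3, _⟩, h4⟩ := hp
              by_contra h5
              exact h4 ⟨by omega, h3, by omega⟩
            exact_mod_cast card_le_card this
        _ = _ := by rw [card_range]; push_cast; ring
    rw [abs_mul, abs_of_nonneg (show 0 ≤ A / Real.log X by positivity)]
    calc A / Real.log X * |∑ p ∈ L.filter (fun p => p ∉ PP (2 * X)), f p| ≤ A / Real.log X * (Nat.sqrt (2 * X) + 1) :=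
          mul_le_mul_of_nonneg_left h1 (by positivity)
      _ = (A * (Nat.sqrt (2 * X) + 1) * Real.log X ^ 2) / Real.log X ^ 3 := by field_simp
      _ ≤ (ρ / 2 * X) / Real.log X ^ 2 := by
          apply div_le_div₀ (by positivity) hsq (by positivity)
          exact pow_le_pow_right₀ hl1 (by norm_num)
      _ = _ := by ring
  -- the edges
  set E : Finset ℕ := (PP (2 * X)).filter (fun p => ((n : ℝ) - 2 * τ * X < p ∧ (p : ℝ) ≤ n + τ * X) ∨ (p : ℝ) < 2 * τ * X) with hE
  have hEc : (#E : ℝ) ≤ 5 * C₁ * τ * (X / Real.log X) := by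
    set E₁ : Finset ℕ := (PP (2 * X)).filter (fun p : ℕ => (n : ℝ) - 2 * τ * X < p ∧ (p : ℝ) ≤ n + τ * X) with hE₁
    set E₂ : Finset ℕ := (PP (2 * X)).filter (fun p : ℕ => (p : ℝ) < 2 * τ * X) with hE₂
    have h1 : E ⊆ E₁ ∪ E₂ := by
      intro p hp
      rw [hE, mem_filter] at hp
      rw [mem_union, hE₁, hE₂, mem_filter, mem_filter]
      tauto
    have h2 := (card_le_card h1).trans (card_union_le _ _)
    have h3 := hs1 (n - ⌊2 * τ * X⌋₊) E₁ (by
      intro p hp
      rw [hE₁, mem_filter, mem_PP] at hp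
      obtain ⟨⟨_, hp1, _⟩, hp2, hp3⟩ := hp
      have hfl := Nat.floor_le (show 0 ≤ 2 * τ * X by positivity)
      have hfl2 := Nat.lt_floor_add_one (2 * τ * X)
      refine ⟨hp1, ?_, ?_⟩
      · have h4 : (n : ℝ) < p + (⌊2 * τ * X⌋₊ + 1) := by linarith
        have h5 : n < p + (⌊2 * τ * X⌋₊ + 1) := by exact_mod_cast h4
        omega
      · have h4 : (n : ℝ) ≤ ((n - ⌊2 * τ * X⌋₊ : ℕ) : ℝ) + ⌊2 * τ * X⌋₊ := by
          exact_mod_cast (by omega : n ≤ (n - ⌊2 * τ * X⌋₊) + ⌊2 * τ * X⌋₊)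
        linarith)
    have h4 := hs2 0 E₂ (by
      intro p hp
      rw [hE₂, mem_filter, mem_PP] at hp
      exact ⟨hp.1.2.1, Nat.zero_le _, by push_cast; linarith [hp.2]⟩)
    have h5 : (#E : ℝ) ≤ #E₁ + #E₂ := by exact_mod_cast h2
    linarith
  -- the pointwise comparison
  have hpt : ∀ p ∈ PP (2 * X), |u (fun _ => 1) (2 * X) W J ((n : ℤ) - p) - v p| ≤ 2 * ε₁ * (A / Real.log X) +
      (if p ∈ E then (2 * C₂ + 1) * (A / Real.log X) else 0) := by
    intro p hp
    have hu0 := u_nonneg (fun _ => 1) (fun _ => zero_le_one) (2 * X) W J ((n : ℤ) - p)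
    have hu1 := hus (fun _ => 1) (fun _ => zero_le_one) (fun _ => le_rfl) (2 * X) W J hW hJ.1 ((n : ℤ) - p)
    have hbase : 0 ≤ 2 * ε₁ * (A / Real.log X) := by positivity
    by_cases hpE : p ∈ E
    · rw [if_pos hpE]
      have h1 : C₂ * A / Real.log J ≤ 2 * C₂ * (A / Real.log X) := by
        calc C₂ * A / Real.log J ≤ C₂ * A / (1 / 2 * Real.log X) := div_le_div_of_nonneg_left (by positivity) (by positivity) hJ.2
          _ = _ := by field_simp
      have h2 := hv0 p
      have h3 := hv1 p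
      rw [abs_le]
      have h4 : (2 * C₂ + 1) * (A / Real.log X) = 2 * C₂ * (A / Real.log X) + A / Real.log X := by ring
      constructor
      · have : 0 ≤ 2 * C₂ * (A / Real.log X) := by positivity
        linarith
      · linarith
    · rw [if_neg hpE, add_zero]
      rw [hE, mem_filter] at hpE
      push Not at hpE
      obtain ⟨hp1, hp2⟩ := hpE hp
      by_cases hp3 : (n : ℝ) - 2 * τ * X < p
      · -- beyond `n`
        have hp4 := hp1 hp3
        have h1 : (n : ℤ) - p + (J * W : ℕ) ≤ 0 := by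
          have h2 : ((n : ℝ)) + ((J * W : ℕ) : ℝ) ≤ p := by linarith
          have h3 : n + J * W ≤ p := by exact_mod_cast h2
          have h4 : ((n + J * W : ℕ) : ℤ) ≤ (p : ℤ) := by exact_mod_cast h3
          push_cast at h4 ⊢
          linarith
        have h2 : ¬ (p < n ∧ Nat.Coprime (n - p) W) := by
          intro h3
          have h4 : (p : ℝ) < n := by exact_mod_cast h3.1
          have h5 : 0 ≤ τ * (X : ℝ) := by positivity
          linarith
        rw [u_neg W J (2 * X) _ h1]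
        simp only [hv]
        rw [if_neg h2, sub_zero, abs_zero]
        exact hbase
      · push Not at hp3
        have hτX : 0 < τ * (X : ℝ) := by positivity
        have hpn : p < n := by
          have : (p : ℝ) < n := by linarith
          exact_mod_cast this
        have hm : ((n : ℤ) - p) = ((n - p : ℕ) : ℤ) := by omega
        rw [hm]
        have h1 := hua (n - p) (by rw [Nat.cast_sub hpn.le]; linarith) (by
          rw [Nat.cast_sub hpn.le]
          have : (n : ℝ) ≤ 2 * X := by exact_mod_cast hn2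
          linarith)
        by_cases hcop : Nat.Coprime (n - p) W
        · have h2 := h1.1 hcop
          simp only [hv]
          rw [if_pos ⟨hpn, hcop⟩]
          have hlX2 : Real.log X ≤ Real.log (2 * X : ℕ) := Real.log_le_log hX0 (by push_cast; linarith)
          have h3 : A / Real.log (2 * X : ℕ) ≤ A / Real.log X := div_le_div_of_nonneg_left hA0.le hlX hlX2
          have h4 : A / Real.log X - A / Real.log (2 * X : ℕ) ≤ ε₁ * (A / Real.log X) := by
            have := mul_le_mul_of_nonneg_left hgap hA0.le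
            calc A / Real.log X - A / Real.log (2 * X : ℕ) = A * (1 / Real.log X - 1 / Real.log (2 * X : ℕ)) := by ring
              _ ≤ A * (ε₁ / Real.log X) := this
              _ = _ := by ring
          have h5 : ε₁ * (A / Real.log (2 * X : ℕ)) ≤ ε₁ * (A / Real.log X) := mul_le_mul_of_nonneg_left h3 hε₁0.le
          rw [abs_le] at h2 ⊢
          constructor <;> linarith [h2.1, h2.2]
        · rw [h1.2 hcop]
          simp only [hv]
          rw [if_neg (fun h => hcop h.2), sub_zero, abs_zero]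
          exact hbase
  have hPPc : (#(PP (2 * X)) : ℝ) ≤ 4 * (X / Real.log X) := by
    refine le_trans ?_ hpc
    have : #(PP (2 * X)) ≤ Nat.primeCounting (2 * X) := by
      rw [Nat.primeCounting, Nat.primeCounting', Nat.count_eq_card_filter_range]
      apply card_le_card
      intro p hp
      rw [mem_PP] at hp
      rw [mem_filter, mem_range]
      exact ⟨by omega, hp.2.1⟩
    exact_mod_cast this
  have hmain : |∑ p ∈ PP (2 * X), f p * u (fun _ => 1) (2 * X) W J ((n : ℤ) - p) - ∑ p ∈ PP (2 * X), f p * v p| ≤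
      ρ / 2 * (X / Real.log X ^ 2) := by
    rw [← sum_sub_distrib]
    calc |∑ p ∈ PP (2 * X), (f p * u (fun _ => 1) (2 * X) W J ((n : ℤ) - p) - f p * v p)| ≤
        ∑ p ∈ PP (2 * X), |f p * u (fun _ => 1) (2 * X) W J ((n : ℤ) - p) - f p * v p| := abs_sum_le_sum_abs _ _
      _ ≤ ∑ p ∈ PP (2 * X), (2 * ε₁ * (A / Real.log X) + (if p ∈ E then (2 * C₂ + 1) * (A / Real.log X) else 0)) := by
          apply sum_le_sum
          intro p hp
          rw [← mul_sub, abs_mul]
          calc |f p| * |u (fun _ => 1) (2 * X) W J ((n : ℤ) - p) - v p| ≤ 1 * |u (fun _ => 1) (2 * X) W J ((n : ℤ) - p) - v p| :=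
                mul_le_mul_of_nonneg_right (hf p) (abs_nonneg _)
            _ ≤ _ := by rw [one_mul]; exact hpt p hp
      _ = #(PP (2 * X)) * (2 * ε₁ * (A / Real.log X)) + #E * ((2 * C₂ + 1) * (A / Real.log X)) := by
          rw [sum_add_distrib, sum_const, nsmul_eq_mul, ← sum_filter]
          have : (PP (2 * X)).filter (fun p => p ∈ E) = E := by
            ext p
            rw [mem_filter]
            exact ⟨fun h => h.2, fun h => ⟨(mem_filter.1 h).1, h⟩⟩
          rw [this, sum_const, nsmul_eq_mul]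
      _ ≤ (4 * (X / Real.log X)) * (2 * ε₁ * (A / Real.log X)) + (5 * C₁ * τ * (X / Real.log X)) * ((2 * C₂ + 1) * (A / Real.log X)) := by
          apply add_le_add
          · exact mul_le_mul_of_nonneg_right hPPc (by positivity)
          · exact mul_le_mul_of_nonneg_right hEc (by positivity)
      _ = (8 * ε₁ * A + 5 * C₁ * τ * ((2 * C₂ + 1) * A)) * (X / Real.log X ^ 2) := by rw [hXL]; ring
      _ ≤ _ := by
          apply mul_le_mul_of_nonneg_right _ (by positivity)
          have : 8 * ε₁ * A = ρ / 4 := by rw [hε₁]; field_simp; ring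
          linarith
  rw [hsplit, ← sub_sub]
  calc _ ≤ |∑ p ∈ PP (2 * X), f p * u (fun _ => 1) (2 * X) W J ((n : ℤ) - p) - ∑ p ∈ PP (2 * X), f p * v p| +
        |A / Real.log X * ∑ p ∈ L.filter (fun p => p ∉ PP (2 * X)), f p| := abs_sub _ _
    _ ≤ ρ / 2 * (X / Real.log X ^ 2) + ρ / 2 * (X / Real.log X ^ 2) := add_le_add hmain hsmall
    _ = _ := by ring

end Pool.Agent.W5h22.GS
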