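import Mathlib
import Pool.Agent.W5h22.GS.N

set_option autoImplicit false

/-! The local-to-global principle. -/

namespace Pool.Agent.W5h22.GS
open Finset Filter
open Pool.Agent.Helper602.MK (PP)
open Pool.Agent.W5h22.PV (mem_PP pk evt_div_log)
open Pool.Agent.W5h22.RB (u u_sup u_nonneg tot_pos n_pos)

/-- the primes `p` with `n - p` prime -/
def G1 (n : ℕ) : Finset ℕ := (range n).filter (fun p => p.Prime ∧ (n - p).Prime)

/-- the primes `p` with `n - p` coprime to `W` -/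
def G2 (W n : ℕ) : Finset ℕ := (range n).filter (fun p => p.Prime ∧ Nat.Coprime (n - p) W)

lemma rep_cmp (ρ : ℝ) (hρ : 0 < ρ) : ∀ᶠ X : ℕ in atTop, ∀ f : ℕ → ℝ, (∀ p, |f p| ≤ 1) → ∀ n : ℕ, X < n → n ≤ 2 * X →
    |∑ p ∈ G1 n, f p - ∑ p ∈ PP (2 * X), f p * pk (fun _ => 1) (2 * X) ((n : ℤ) - p)| ≤ ρ * (X / Real.log X ^ 2) := by
  filter_upwards [ev_sqrt 2 ρ (by norm_num) hρ, eventually_ge_atTop 3] with X hsq hX3
  intro f hf n hn1 hn2
  have hX0 : (0 : ℝ) < X := by exact_mod_cast (by omega : 0 < X)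
  have hlX : 0 < Real.log X := Real.log_pos (by exact_mod_cast (by omega : 1 < X))
  set s := Nat.sqrt (2 * X) with hs
  have h1 : ∑ p ∈ PP (2 * X), f p * pk (fun _ => 1) (2 * X) ((n : ℤ) - p) =
      ∑ p ∈ (G1 n).filter (fun p => p ∈ PP (2 * X) ∧ n - p ∈ PP (2 * X)), f p := by
    have h2 : (G1 n).filter (fun p => p ∈ PP (2 * X) ∧ n - p ∈ PP (2 * X)) =
        (PP (2 * X)).filter (fun p : ℕ => ((n : ℤ) - p).toNat ∈ PP (2 * X)) := by
      ext p
      have e : ((n : ℤ) - p).toNat = n - p := by omega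
      simp only [G1, mem_filter, mem_range, e, mem_PP]
      constructor
      · tauto
      · rintro ⟨h3, h4⟩
        have := h4.2.1.pos
        have h5 : p < n := by omega
        tauto
    rw [h2, sum_filter]
    apply sum_congr rfl
    intro p _
    unfold pk
    split_ifs <;> ring
  have h2 : ∑ p ∈ G1 n, f p - ∑ p ∈ (G1 n).filter (fun p => p ∈ PP (2 * X) ∧ n - p ∈ PP (2 * X)), f p =
      ∑ p ∈ (G1 n).filter (fun p => ¬ (p ∈ PP (2 * X) ∧ n - p ∈ PP (2 * X))), f p := by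
    rw [← sum_filter_add_sum_filter_not (G1 n) (fun p => p ∈ PP (2 * X) ∧ n - p ∈ PP (2 * X))]
    ring
  rw [h1, h2]
  have h3 : (G1 n).filter (fun p => ¬ (p ∈ PP (2 * X) ∧ n - p ∈ PP (2 * X))) ⊆ range (s + 1) ∪ (range (s + 1)).image (fun q => n - q) := by
    intro p hp
    simp only [G1, mem_filter, mem_range, mem_PP] at hp
    obtain ⟨⟨h3, h4, h5⟩, h6⟩ := hp
    rw [mem_union, mem_range, mem_image]
    by_cases h7 : 2 * X < p ^ 2
    · right
      have h8 : ¬ (2 * X < (n - p) ^ 2) := by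
        intro h8
        exact h6 ⟨⟨by omega, h4, h7⟩, ⟨by omega, h5, h8⟩⟩
      refine ⟨n - p, ?_, by omega⟩
      rw [mem_range, Nat.lt_succ_iff, hs, Nat.le_sqrt, ← sq]
      omega
    · left
      rw [Nat.lt_succ_iff, hs, Nat.le_sqrt, ← sq]
      omega
  have h4 : #((G1 n).filter (fun p => ¬ (p ∈ PP (2 * X) ∧ n - p ∈ PP (2 * X)))) ≤ 2 * (s + 1) := by
    refine (card_le_card h3).trans ((card_union_le _ _).trans ?_)
    have := card_image_le (s := range (s + 1)) (f := fun q => n - q)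
    rw [card_range] at this ⊢
    omega
  calc |∑ p ∈ (G1 n).filter (fun p => ¬ (p ∈ PP (2 * X) ∧ n - p ∈ PP (2 * X))), f p| ≤
      ∑ p ∈ (G1 n).filter (fun p => ¬ (p ∈ PP (2 * X) ∧ n - p ∈ PP (2 * X))), |f p| := abs_sum_le_sum_abs _ _
    _ ≤ ∑ p ∈ (G1 n).filter (fun p => ¬ (p ∈ PP (2 * X) ∧ n - p ∈ PP (2 * X))), 1 := sum_le_sum fun p _ => hf p
    _ = #((G1 n).filter (fun p => ¬ (p ∈ PP (2 * X) ∧ n - p ∈ PP (2 * X)))) := by rw [sum_const, nsmul_eq_mul, mul_one]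
    _ ≤ 2 * (s + 1) := by exact_mod_cast h4
    _ ≤ _ := by
        rw [← mul_div_assoc, le_div_iff₀ (by positivity)]
        exact hsq

lemma W_same (W₀ w : ℕ) (hW₀ : 1 ≤ W₀) (hw : W₀ ≤ w) : (W₀ * PM w).primeFactors = (PM w).primeFactors := by
  have hP := PM_pos w
  rw [Nat.primeFactors_mul (by omega) (by omega)]
  apply union_eq_right.2
  intro p hp
  rw [PM_primes]
  have h1 := Nat.prime_of_mem_primeFactors hp
  have h2 := Nat.le_of_dvd (by omega) (Nat.dvd_of_mem_primeFactors hp)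
  rw [Pool.Agent.H373R2.T7.pz, mem_filter, mem_Icc]
  exact ⟨⟨h1.one_le, by omega⟩, h1⟩

lemma cop_same (W W' m : ℕ) (hW : 1 ≤ W) (hW' : 1 ≤ W') (hm : 1 ≤ m) (h : W.primeFactors = W'.primeFactors) :
    m.Coprime W ↔ m.Coprime W' := by
  rw [← Nat.disjoint_primeFactors (by omega) (by omega), ← Nat.disjoint_primeFactors (by omega) (by omega), h]

theorem ltg (ε : ℝ) (hε : 0 < ε) : ∃ w₀ : ℕ, ∀ w : ℕ, w₀ ≤ w → ∀ᶠ X : ℕ in atTop, ∀ f : ℕ → ℝ, (∀ p, |f p| ≤ 1) →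
    (#((Ioc X (2 * X)).filter (fun n : ℕ => ε * ((X : ℝ) / Real.log X ^ 2) <
      |∑ p ∈ G1 n, f p - ((PM w : ℕ) / (PM w).totient : ℝ) / Real.log X * ∑ p ∈ G2 (PM w) n, f p|)) : ℝ) ≤ ε * X := by
  obtain ⟨W₀, hW₀, τ₀, hτ₀, hτ₀1, htr⟩ := transferF (ε / 3) (by linarith)
  refine ⟨W₀, ?_⟩
  intro w hw
  have hP := PM_pos w
  have hW1 : 1 ≤ W₀ * PM w := Nat.mul_pos hW₀ hP
  have hNZ1 : NeZero (W₀ * PM w) := ⟨by omega⟩
  have hNZ2 : NeZero (PM w) := ⟨by omega⟩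
  have hsame := W_same W₀ w hW₀ hw
  obtain ⟨τ₁, hτ₁, hmod⟩ := model_cmp (W₀ * PM w) hW1 (ε / 3) (by linarith)
  have hratio : (((W₀ * PM w : ℕ) : ℝ) / ((W₀ * PM w).totient : ℝ)) = ((PM w : ℕ) : ℝ) / ((PM w).totient : ℝ) := by
    rw [tot_eq, tot_eq, hsame]
  filter_upwards [htr (W₀ * PM w) hW1 (dvd_mul_right _ _) (min τ₀ τ₁) (by positivity) (min_le_left _ _),
    hmod (min τ₀ τ₁) (by positivity) (min_le_right _ _), rep_cmp (ε / 3) (by linarith), eventually_ge_atTop 1] with X h1 h2 h3 hX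
  intro f hf
  have hX0 : (0 : ℝ) < X := by exact_mod_cast hX
  refine le_trans ?_ ((h1 f hf).trans (by nlinarith))
  have hsub : (Ioc X (2 * X)).filter (fun n : ℕ => ε * ((X : ℝ) / Real.log X ^ 2) <
      |∑ p ∈ G1 n, f p - ((PM w : ℕ) / (PM w).totient : ℝ) / Real.log X * ∑ p ∈ G2 (PM w) n, f p|) ⊆
      (Ioc X (2 * X)).filter (fun n : ℕ => ε / 3 * ((X : ℝ) / Real.log X ^ 2) <
        |∑ p ∈ PP (2 * X), f p * pk (fun _ => 1) (2 * X) ((n : ℤ) - p) -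
          ∑ p ∈ PP (2 * X), f p * u (fun _ => 1) (2 * X) (W₀ * PM w) ⌊(min τ₀ τ₁) * X / ((W₀ * PM w : ℕ) : ℝ)⌋₊ ((n : ℤ) - p)|) := by
    intro n hn
    rw [mem_filter] at hn ⊢
    refine ⟨hn.1, ?_⟩
    have hn1 := mem_Ioc.1 hn.1
    have k2 := h2 f hf n hn1.1 hn1.2
    have k3 := h3 f hf n hn1.1 hn1.2
    have hG2 : (range n).filter (fun p => p.Prime ∧ Nat.Coprime (n - p) (W₀ * PM w)) = G2 (PM w) n := by
      unfold G2
      apply filter_congr
      intro p hp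
      rw [mem_range] at hp
      rw [cop_same (W₀ * PM w) (PM w) (n - p) hW1 hP (by omega) hsame]
    rw [hG2, hratio] at k2
    by_contra h4
    push Not at h4
    have h5 := hn.2
    set a := ∑ p ∈ G1 n, f p
    set b := ∑ p ∈ PP (2 * X), f p * pk (fun _ => 1) (2 * X) ((n : ℤ) - p)
    set c := ∑ p ∈ PP (2 * X), f p * u (fun _ => 1) (2 * X) (W₀ * PM w) ⌊(min τ₀ τ₁) * X / ((W₀ * PM w : ℕ) : ℝ)⌋₊ ((n : ℤ) - p)
    set d := ((PM w : ℕ) / (PM w).totient : ℝ) / Real.log X * ∑ p ∈ G2 (PM w) n, f p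
    have h6 : |a - d| ≤ |a - b| + |b - c| + |c - d| := by
      calc |a - d| = |(a - b) + (b - c) + (c - d)| := by ring_nf
        _ ≤ |(a - b) + (b - c)| + |c - d| := abs_add_le _ _
        _ ≤ _ := by linarith [abs_add_le (a - b) (b - c)]
    linarith
  exact_mod_cast card_le_card hsub

end Pool.Agent.W5h22.GS
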