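import Mathlib
import Pool.Agent.W5h22.GS.L

set_option autoImplicit false

/-! The first moment bound for the captured shares. -/

namespace Pool.Agent.W5h22.GS
open Finset Filter
open Pool.Agent.W93.PG (WinP cnt)

/-- the members of `D` with prime complement -/
def mD (D : Finset ℕ) (n : ℕ) : Finset ℕ := D.filter (fun d => d < n ∧ (n - d).Prime)

lemma repsD_two (D : Finset ℕ) (n : ℕ) : #(repsD D n) ≤ 2 * #(mD D n) := by
  have h1 : repsD D n ⊆ mD D n ∪ (mD D n).image (fun d => n - d) := by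
    intro p hp
    rw [repsD, mem_filter, reps, mem_filter, mem_range] at hp
    obtain ⟨⟨h1, h2, h3, -⟩, h4⟩ := hp
    rw [mem_union, mem_image]
    rcases h4 with h4 | h4
    · left
      rw [mD, mem_filter]
      exact ⟨h4, h1, h3⟩
    · right
      have := h2.pos
      refine ⟨n - p, ?_, by omega⟩
      rw [mD, mem_filter]
      refine ⟨h4, by omega, ?_⟩
      have h5 : n - (n - p) = p := by omega
      rw [h5]; exact h2
  have h2 := (card_le_card h1).trans (card_union_le _ _)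
  have h3 := card_image_le (s := mD D n) (f := fun d => n - d)
  omega

lemma sum_mD (D S : Finset ℕ) (K : ℕ) (hS : ∀ n ∈ S, n ≤ K) : ∑ n ∈ S, #(mD D n) ≤ #D * Nat.primeCounting K := by
  have h1 : ∑ n ∈ S, #(mD D n) = ∑ d ∈ D, #(S.filter (fun n => d < n ∧ (n - d).Prime)) := by
    unfold mD
    simp only [card_eq_sum_ones, sum_filter]
    exact sum_comm
  rw [h1]
  have h2 : ∀ d ∈ D, #(S.filter (fun n => d < n ∧ (n - d).Prime)) ≤ Nat.primeCounting K := by
    intro d _
    rw [Nat.primeCounting, Nat.primeCounting', Nat.count_eq_card_filter_range]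
    apply card_le_card_of_injOn (fun n => n - d)
    · intro n hn
      rw [mem_coe, mem_filter] at hn
      have := hS n hn.1
      rw [mem_coe, mem_filter, mem_range]
      refine ⟨?_, hn.2.2⟩
      dsimp only
      omega
    · intro a ha b hb hab
      rw [mem_coe, mem_filter] at ha hb
      simp only at hab
      omega
  calc ∑ d ∈ D, #(S.filter (fun n => d < n ∧ (n - d).Prime)) ≤ ∑ _d ∈ D, Nat.primeCounting K := sum_le_sum h2
    _ = _ := by rw [sum_const, smul_eq_mul]

/-- few integers have a share `ε` captured -/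
theorem upper2 : ∃ C : ℝ, 0 < C ∧ ∀ η ε : ℝ, 0 < η → 0 < ε → ∀ᶠ X : ℕ in atTop, ∀ D : Finset ℕ, (#D : ℝ) ≤ η * (X / Real.log X) →
      ∀ S : Finset ℕ, (∀ n ∈ S, X < n ∧ n ≤ 2 * X ∧ Even n ∧ ¬ (0 < #(reps n) ∧ (#(repsD D n) : ℝ) ≤ ε * #(reps n))) →
        (#S : ℝ) ≤ C * (η / ε) * X := by
  classical
  refine ⟨17, by norm_num, ?_⟩
  intro η ε hη hε
  filter_upwards [win_all (1 / 10) (by norm_num) (η / ε) (by positivity), reps_low, pc_upper, eventually_ge_atTop 3] with X h1 h2 h3 hX3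
  intro D hD S hS
  have hX0 : (0 : ℝ) < X := by exact_mod_cast (by omega : 0 < X)
  have hlX : 0 < Real.log X := Real.log_pos (by exact_mod_cast (by omega : 1 < X))
  set S₁ := S.filter (fun n => ¬ WinP (1 / 10) 2 n) with hS₁
  set S₂ := S.filter (fun n => WinP (1 / 10) 2 n) with hS₂
  have h4 : (#S₁ : ℝ) ≤ (η / ε) * X := h1 S₁ (by
    intro n hn
    rw [hS₁, mem_filter] at hn
    have := hS n hn.1
    exact ⟨this.1, this.2.1, this.2.2.1, hn.2⟩)
  have h5 : #S = #S₁ + #S₂ := by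
    rw [hS₁, hS₂, add_comm]
    exact (card_filter_add_card_filter_not _).symm
  have h6 : ∀ n ∈ S₂, ε * (1 / 2 * (X / Real.log X ^ 2)) ≤ (#(repsD D n) : ℝ) := by
    intro n hn
    rw [hS₂, mem_filter] at hn
    obtain ⟨k1, k2, k3, k4⟩ := hS n hn.1
    have k5 := h2 n k1 k2 hn.2
    have k6 : 0 < #(reps n) := by
      have : (0 : ℝ) < #(reps n) := lt_of_lt_of_le (by positivity) k5
      exact_mod_cast this
    have k7 : ε * #(reps n) < (#(repsD D n) : ℝ) := by
      by_contra h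
      push Not at h
      exact k4 ⟨k6, h⟩
    exact (mul_le_mul_of_nonneg_left k5 hε.le).trans k7.le
  have h7 : ∑ n ∈ S₂, (#(repsD D n) : ℝ) ≤ 8 * η * (X / Real.log X) ^ 2 := by
    have k1 : ∑ n ∈ S₂, #(repsD D n) ≤ 2 * (#D * Nat.primeCounting (2 * X)) := by
      calc ∑ n ∈ S₂, #(repsD D n) ≤ ∑ n ∈ S₂, 2 * #(mD D n) := sum_le_sum fun n _ => repsD_two D n
        _ = 2 * ∑ n ∈ S₂, #(mD D n) := by rw [mul_sum]
        _ ≤ _ := Nat.mul_le_mul_left _ (sum_mD D S₂ (2 * X) (fun n hn => (hS n (mem_filter.1 hn).1).2.1))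
    have k2 : ∑ n ∈ S₂, (#(repsD D n) : ℝ) ≤ 2 * (#D * Nat.primeCounting (2 * X)) := by exact_mod_cast k1
    refine k2.trans ?_
    calc 2 * ((#D : ℝ) * Nat.primeCounting (2 * X)) ≤ 2 * ((η * (X / Real.log X)) * (4 * (X / Real.log X))) := by
          apply mul_le_mul_of_nonneg_left _ (by norm_num)
          exact mul_le_mul hD h3 (Nat.cast_nonneg _) (by positivity)
      _ = _ := by ring
  have h8 : (#S₂ : ℝ) * (ε * (1 / 2 * (X / Real.log X ^ 2))) ≤ 8 * η * (X / Real.log X) ^ 2 := by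
    refine le_trans ?_ h7
    rw [← nsmul_eq_mul]
    exact card_nsmul_le_sum S₂ _ _ h6
  have h9 : (#S₂ : ℝ) ≤ 16 * (η / ε) * X := by
    have k1 : 8 * η * ((X : ℝ) / Real.log X) ^ 2 = (16 * (η / ε) * X) * (ε * (1 / 2 * (X / Real.log X ^ 2))) := by
      field_simp
      ring
    rw [k1] at h8
    exact le_of_mul_le_mul_right h8 (by positivity)
  have h10 : (#S : ℝ) = #S₁ + #S₂ := by exact_mod_cast h5
  rw [h10]
  linarith

end Pool.Agent.W5h22.GS
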