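import Mathlib
import Pool.Agent.W5h22.GS.O
import Pool.Agent.W5h22.GS.P

set_option autoImplicit false

/-! Counting residues. -/

namespace Pool.Agent.W5h22.GS
open Finset Filter
open Pool.Agent.H373R2.T7 (pz Vz)
open Pool.Agent.W5h22.RB (E tot_pos n_pos)

/-- the number of the residues with prescribed local behaviour -/
lemma count_loc (n : ℕ) [NeZero n] (P : ZMod n → Prop) [DecidablePred P] (h : (l : ℕ) → ZMod l → ℝ)
    (hP : ∀ t, (if P t then (1 : ℝ) else 0) = ∏ l ∈ n.primeFactors, h l (t.cast : ZMod l)) :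
    (#(univ.filter P) : ℝ) = n * ∏ l ∈ n.primeFactors, ((∑ x ∈ range l, h l (x : ZMod l)) / l) := by
  have h1 := E_primes n inferInstance h
  have hn : (0 : ℝ) < n := by exact_mod_cast Nat.pos_of_ne_zero (NeZero.ne n)
  rw [← h1]
  unfold E
  rw [mul_div_cancel₀ _ hn.ne']
  rw [← sum_congr rfl (fun t _ => hP t), ← sum_filter, sum_const, nsmul_eq_mul, mul_one]

/-- the local factor -/
lemma inner_count (l : ℕ) (hl : l.Prime) (y : ZMod l) :
    ∑ x ∈ range l, (if (x : ZMod l) ≠ 0 ∧ y + (x : ZMod l) - 1 ≠ 0 then (1 : ℝ) else 0) = if y = 1 then (l : ℝ) - 1 else l - 2 := by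
  classical
  have : NeZero l := ⟨hl.ne_zero⟩
  have : Fact l.Prime := ⟨hl⟩
  rw [sum_range_zmod l (fun x : ZMod l => if x ≠ 0 ∧ y + x - 1 ≠ 0 then (1 : ℝ) else 0)]
  rw [← sum_filter, sum_const, nsmul_eq_mul, mul_one]
  have h1 : (univ : Finset (ZMod l)).filter (fun x => x ≠ 0 ∧ y + x - 1 ≠ 0) = univ \ {0, 1 - y} := by
    ext x
    rw [mem_filter, Finset.mem_sdiff, mem_insert, mem_singleton]
    have : y + x - 1 = 0 ↔ x = 1 - y := by
      constructor
      · intro h; linear_combination h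
      · intro h; rw [h]; ring
    rw [Ne, Ne, this]
    simp
  rw [h1, card_sdiff_of_subset (subset_univ _), card_univ, ZMod.card]
  split_ifs with h2
  · rw [h2, sub_self, pair_eq_singleton, card_singleton, Nat.cast_sub hl.one_le]
    push_cast; ring
  · rw [card_pair (fun h => h2 (by linear_combination h)), Nat.cast_sub hl.two_le]
    push_cast; ring

lemma outer_count (l : ℕ) (hl : l.Prime) :
    ∑ y ∈ range l, (if (y : ZMod l) ≠ 0 then (if (y : ZMod l) = 1 then (l : ℝ) - 1 else l - 2) else 0) = (l : ℝ) ^ 2 - 3 * l + 3 := by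
  classical
  have : NeZero l := ⟨hl.ne_zero⟩
  have : Fact l.Prime := ⟨hl⟩
  rw [sum_range_zmod l (fun y : ZMod l => if y ≠ 0 then (if y = 1 then (l : ℝ) - 1 else l - 2) else 0)]
  have h1 : ∀ y : ZMod l, (if y ≠ 0 then (if y = 1 then (l : ℝ) - 1 else l - 2) else 0) =
      ((l : ℝ) - 2) - (if y = 0 then (l : ℝ) - 2 else 0) + (if y = 1 then 1 else 0) := by
    intro y
    by_cases h0 : y = 0
    · have : ¬ y = 1 := by rw [h0]; exact zero_ne_one
      simp only [h0, ne_eq, not_true_eq_false, if_false, if_true]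
      rw [if_neg (zero_ne_one)]; ring
    · by_cases h2 : y = 1
      · rw [if_pos h0, if_pos h2, if_neg h0, if_pos h2]; ring
      · rw [if_pos h0, if_neg h2, if_neg h0, if_neg h2]; ring
  rw [sum_congr rfl (fun y _ => h1 y), sum_add_distrib, sum_sub_distrib, sum_const, sum_ite_eq', sum_ite_eq',
    if_pos (mem_univ _), if_pos (mem_univ _), card_univ, ZMod.card, nsmul_eq_mul]
  ring

open Classical in
/-- the number of the pairs of units whose sum minus one is a unit -/
lemma pairs_count (n : ℕ) [NeZero n] :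
    (∑ a : ZMod n, if IsUnit a then (#(univ.filter (fun b : ZMod n => IsUnit b ∧ IsUnit (a + b - 1))) : ℝ) else 0) =
      (n : ℝ) ^ 2 * ∏ l ∈ n.primeFactors, (((l : ℝ) ^ 2 - 3 * l + 3) / l ^ 2) := by
  have hcast : ∀ (l : ℕ) (hl : l ∈ n.primeFactors) (a b : ZMod n), ((a + b - 1 : ZMod n).cast : ZMod l) = (a.cast : ZMod l) + (b.cast : ZMod l) - 1 := by
    intro l hl a b
    have h := Nat.dvd_of_mem_primeFactors hl
    rw [ZMod.cast_sub h, ZMod.cast_add h, ZMod.cast_one h]
  have h1 : ∀ a : ZMod n, (#(univ.filter (fun b : ZMod n => IsUnit b ∧ IsUnit (a + b - 1))) : ℝ) =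
      n * ∏ l ∈ n.primeFactors, ((if (a.cast : ZMod l) = 1 then (l : ℝ) - 1 else l - 2) / l) := by
    intro a
    rw [count_loc n (fun b : ZMod n => IsUnit b ∧ IsUnit (a + b - 1))
      (fun l x => if x ≠ 0 ∧ (a.cast : ZMod l) + x - 1 ≠ 0 then (1 : ℝ) else 0)]
    · congr 1
      apply prod_congr rfl
      intro l hl
      rw [inner_count l (Nat.prime_of_mem_primeFactors hl)]
    · intro b
      rw [Finset.prod_ite_zero, prod_const_one]
      congr 1
      rw [unit_iff, unit_iff, eq_iff_iff]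
      constructor
      · rintro ⟨h2, h3⟩ l hl
        exact ⟨h2 l hl, by rw [← hcast l hl]; exact h3 l hl⟩
      · intro h2
        exact ⟨fun l hl => (h2 l hl).1, fun l hl => by rw [hcast l hl]; exact (h2 l hl).2⟩
  have h2 : ∀ a : ZMod n, (if IsUnit a then (#(univ.filter (fun b : ZMod n => IsUnit b ∧ IsUnit (a + b - 1))) : ℝ) else 0) =
      n * ∏ l ∈ n.primeFactors, ((if (a.cast : ZMod l) ≠ 0 then (if (a.cast : ZMod l) = 1 then (l : ℝ) - 1 else l - 2) else 0) / l) := by
    intro a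
    rw [h1 a]
    by_cases ha : IsUnit a
    · rw [if_pos ha]
      rw [unit_iff] at ha
      congr 1
      apply prod_congr rfl
      intro l hl
      rw [if_pos (ha l hl)]
    · rw [if_neg ha]
      rw [unit_iff] at ha
      push Not at ha
      obtain ⟨l, hl, hl2⟩ := ha
      rw [prod_eq_zero hl, mul_zero]
      rw [if_neg (by simpa using hl2), zero_div]
  rw [sum_congr rfl (fun a _ => h2 a), ← mul_sum]
  have h3 := E_primes n inferInstance (fun l y => (if y ≠ 0 then (if y = 1 then (l : ℝ) - 1 else l - 2) else 0) / l)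
  unfold E at h3
  have hn : (0 : ℝ) < n := by exact_mod_cast Nat.pos_of_ne_zero (NeZero.ne n)
  rw [div_eq_iff hn.ne'] at h3
  rw [h3]
  have h4 : ∏ l ∈ n.primeFactors, ((∑ x ∈ range l, (if (x : ZMod l) ≠ 0 then (if (x : ZMod l) = 1 then (l : ℝ) - 1 else l - 2) else 0) / l) / l) =
      ∏ l ∈ n.primeFactors, (((l : ℝ) ^ 2 - 3 * l + 3) / l ^ 2) := by
    apply prod_congr rfl
    intro l hl
    rw [← sum_div, outer_count l (Nat.prime_of_mem_primeFactors hl), div_div, sq]
  rw [h4]
  ring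

/-- the singular series of the pairs is bounded by the density -/
lemma prod_pairs (v : ℕ) : ∏ l ∈ pz v, (((l : ℝ) ^ 2 - 3 * l + 3) / (l - 1) ^ 2) ≤ Real.exp 2 * Vz v := by
  have h1 : ∀ l ∈ pz v, ((l : ℝ) ^ 2 - 3 * l + 3) / (l - 1) ^ 2 = (1 + 1 / ((l : ℝ) - 1) ^ 3) * (1 - 1 / (l : ℝ)) := by
    intro l hl
    rw [pz, mem_filter] at hl
    have h2 : (2 : ℝ) ≤ l := by exact_mod_cast hl.2.two_le
    have h3 : (l : ℝ) - 1 ≠ 0 := by linarith
    have h4 : (l : ℝ) ≠ 0 := by linarith
    field_simp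
    ring
  rw [prod_congr rfl h1, prod_mul_distrib]
  apply mul_le_mul_of_nonneg_right _ (Pool.Agent.H373R2.T7.Vz_pos v).le
  have h2 : ∏ l ∈ pz v, (1 + 1 / ((l : ℝ) - 1) ^ 3) ≤ Real.exp (∑ l ∈ pz v, 1 / ((l : ℝ) - 1) ^ 3) := by
    rw [Real.exp_sum]
    apply Finset.prod_le_prod
    · intro l hl
      rw [pz, mem_filter] at hl
      have h2 : (2 : ℝ) ≤ l := by exact_mod_cast hl.2.two_le
      have h3 : 0 < (l : ℝ) - 1 := by linarith
      positivity
    · intro l _
      rw [add_comm]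
      exact Real.add_one_le_exp _
  refine h2.trans (Real.exp_le_exp.2 ?_)
  have h3 := tail_sum ((pz v).filter (fun l => 2 < l)) 2 (by norm_num) (fun q hq => (mem_filter.1 hq).2)
  have h4 : ∑ l ∈ pz v, 1 / ((l : ℝ) - 1) ^ 3 ≤ ∑ l ∈ (pz v).filter (fun l => 2 < l), 1 / ((l : ℝ) * (l - 1)) + ∑ l ∈ (pz v).filter (fun l => ¬ 2 < l), 1 := by
    rw [← sum_filter_add_sum_filter_not (pz v) (fun l => 2 < l)]
    apply add_le_add
    · apply sum_le_sum
      intro l hl
      rw [mem_filter] at hl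
      have h5 : (3 : ℝ) ≤ l := by exact_mod_cast hl.2
      apply one_div_le_one_div_of_le (by nlinarith)
      have h6 : (l : ℝ) ≤ (l - 1) ^ 2 := by nlinarith
      calc (l : ℝ) * (l - 1) ≤ (l - 1) ^ 2 * (l - 1) := mul_le_mul_of_nonneg_right h6 (by linarith)
        _ = _ := by ring
    · apply sum_le_sum
      intro l hl
      rw [mem_filter, pz, mem_filter] at hl
      have h5 : (2 : ℝ) ≤ l := by exact_mod_cast hl.1.2.two_le
      rw [div_le_one (by
        have : 0 < (l : ℝ) - 1 := by linarith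
        positivity)]
      exact one_le_pow₀ (by linarith)
  have h5 : ∑ l ∈ (pz v).filter (fun l => ¬ 2 < l), (1 : ℝ) ≤ 1 := by
    rw [sum_const, nsmul_eq_mul, mul_one]
    have : (pz v).filter (fun l => ¬ 2 < l) ⊆ {2} := by
      intro l hl
      rw [mem_filter, pz, mem_filter] at hl
      rw [mem_singleton]
      have := hl.1.2.two_le
      omega
    exact_mod_cast (card_le_card this).trans (by rw [card_singleton])
  rw [Nat.cast_ofNat] at h3
  linarith

/-- lower bound for the number of the integers in given residue classes -/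
lemma count_res_ge (X W : ℕ) (hW : NeZero W) (hWX : 4 * W ≤ X) (T : Finset (ZMod W)) :
    (X : ℝ) * #T / (2 * W) ≤ #((Ioc X (2 * X)).filter (fun n : ℕ => (n : ZMod W) ∈ T)) := by
  have hWp : 0 < W := Nat.pos_of_ne_zero (NeZero.ne W)
  have hW0 : (0 : ℝ) < W := by exact_mod_cast hWp
  have h1 : #(T ×ˢ Ioc (X / W) (2 * X / W - 1)) ≤ #((Ioc X (2 * X)).filter (fun n : ℕ => (n : ZMod W) ∈ T)) := by
    apply card_le_card_of_injOn (fun q : ZMod W × ℕ => W * q.2 + q.1.val)
    · rintro ⟨t, i⟩ hq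
      rw [mem_coe, mem_product, mem_Ioc] at hq
      obtain ⟨h2, h3, h4⟩ := hq
      dsimp only at h2 h3 h4
      rw [mem_coe, mem_filter, mem_Ioc]
      dsimp only
      have ht := ZMod.val_lt t
      refine ⟨⟨?_, ?_⟩, ?_⟩
      · have h5 := Nat.lt_mul_div_succ X hWp
        have h6 : W * (X / W + 1) ≤ W * i := Nat.mul_le_mul_left _ h3
        omega
      · have k1 := Nat.zero_le (X / W)
        have h5 : W * (i + 1) ≤ W * (2 * X / W) := Nat.mul_le_mul_left _ (by omega)
        have h6 := Nat.mul_div_le (2 * X) W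
        have h7 : W * (i + 1) = W * i + W := by ring
        omega
      · push_cast
        rw [ZMod.natCast_self, zero_mul, zero_add, ZMod.natCast_zmod_val]
        exact h2
    · rintro ⟨t, i⟩ _ ⟨t', i'⟩ _ hab
      dsimp only at hab
      have ht := ZMod.val_lt t
      have ht' := ZMod.val_lt t'
      have h3 : t.val = t'.val := by
        have := congrArg (fun z => z % W) hab
        simp only [Nat.mul_add_mod] at this
        rwa [Nat.mod_eq_of_lt ht, Nat.mod_eq_of_lt ht'] at this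
      have h4 : W * i = W * i' := by omega
      rw [Nat.eq_of_mul_eq_mul_left hWp h4, ZMod.val_injective W h3]
  rw [card_product, Nat.card_Ioc] at h1
  have h2 : (X : ℝ) / (2 * W) ≤ ((2 * X / W - 1 - X / W : ℕ) : ℝ) := by
    have h3 : ((X / W : ℕ) : ℝ) ≤ X / W := Nat.cast_div_le
    have h4 : (2 * (X : ℝ)) / W ≤ (2 * X / W : ℕ) + 1 := by
      have h6 := Nat.lt_div_mul_add (a := 2 * X) (b := W) hWp
      rw [div_le_iff₀ hW0]
      have h7 : ((2 * X : ℕ) : ℝ) < (2 * X / W : ℕ) * W + W := by exact_mod_cast h6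
      push_cast at h7
      linarith
    have h5 : (4 : ℝ) ≤ X / W := by
      rw [le_div_iff₀ hW0]; exact_mod_cast hWX
    have h6 : 1 + X / W ≤ 2 * X / W := by
      have h8 : X / W + X / W ≤ 2 * X / W := by
        have : X / W + X / W ≤ (X + X) / W := Nat.div_add_div_le_add_div
        rwa [← two_mul X] at this
      have h9 : 1 ≤ X / W := (Nat.one_le_div_iff hWp).2 (by omega)
      omega
    have k1 := Nat.zero_le (X / W)
    rw [Nat.cast_sub (by omega), Nat.cast_sub (by omega)]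
    push_cast
    have h7 : 2 * (X : ℝ) / W = 2 * (X / W) := by ring
    have h8 : (X : ℝ) / (2 * W) = (X / W) / 2 := by ring
    rw [h8]
    linarith
  calc (X : ℝ) * #T / (2 * W) = #T * (X / (2 * W)) := by ring
    _ ≤ #T * ((2 * X / W - 1 - X / W : ℕ) : ℝ) := mul_le_mul_of_nonneg_left h2 (Nat.cast_nonneg _)
    _ ≤ _ := by exact_mod_cast h1

end Pool.Agent.W5h22.GS
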