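import Mathlib
import Pool.Agent.W5h22.GS.Q

set_option autoImplicit false

/-! The lower bound for the number of integers of which a sparse set captures a small share. -/

namespace Pool.Agent.W5h22.GS
open Finset Filter
open Pool.Agent.H373R2.T7 (pz Vz Vz_pos)
open Pool.Agent.W5h22.RB (E tot_pos n_pos)

lemma tot_Vz (v : ℕ) : ((PM v).totient : ℝ) = PM v * Vz v := by
  have : NeZero (PM v) := ⟨(PM_pos v).ne'⟩
  rw [← tot_prod (PM v), PM_primes]
  rfl

/-- the regular residues -/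
noncomputable def NV (v X : ℕ) : Finset ℕ := by
  classical
  exact (Ioc X (2 * X)).filter (fun n : ℕ => IsUnit ((n : ZMod (PM v)) - 1))

lemma mem_NV (v X n : ℕ) : n ∈ NV v X ↔ (X < n ∧ n ≤ 2 * X) ∧ IsUnit ((n : ZMod (PM v)) - 1) := by
  classical
  unfold NV
  rw [mem_filter, mem_Ioc]

lemma card_units (W : ℕ) [NeZero W] [DecidablePred (fun t : ZMod W => IsUnit t)] :
    #(univ.filter (fun t : ZMod W => IsUnit t)) = W.totient := by
  classical
  rw [← ZMod.card_units_eq_totient, ← card_univ (α := (ZMod W)ˣ), ← card_image_of_injective (s := (univ : Finset (ZMod W)ˣ)) (f := fun u : (ZMod W)ˣ => (u : ZMod W)) Units.val_injective]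
  congr 1
  ext t
  simp only [mem_filter, mem_univ, true_and, mem_image]
  exact ⟨fun h => ⟨h.unit, h.unit_spec⟩, fun ⟨u, hu⟩ => hu ▸ u.isUnit⟩

lemma card_NV (v X : ℕ) (hX : 4 * PM v ≤ X) : (X : ℝ) * Vz v / 2 ≤ #(NV v X) := by
  classical
  have hNZ : NeZero (PM v) := ⟨(PM_pos v).ne'⟩
  have hW0 : (0 : ℝ) < PM v := by exact_mod_cast PM_pos v
  set T : Finset (ZMod (PM v)) := univ.filter (fun t => IsUnit (t - 1)) with hT
  have h1 : #T = (PM v).totient := by
    rw [← card_units (PM v)]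
    refine card_bij' (fun t _ => t - 1) (fun t _ => t + 1) ?_ ?_ ?_ ?_
    · intro t ht
      rw [hT, mem_filter] at ht
      rw [mem_filter]
      exact ⟨mem_univ _, ht.2⟩
    · intro t ht
      rw [mem_filter] at ht
      rw [hT, mem_filter]
      refine ⟨mem_univ _, ?_⟩
      rw [add_sub_cancel_right]; exact ht.2
    · intro t _; ring
    · intro t _; ring
  have h2 := count_res_ge X (PM v) hNZ hX T
  rw [h1, tot_Vz] at h2
  have h3 : (X : ℝ) * (PM v * Vz v) / (2 * PM v) = X * Vz v / 2 := by field_simp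
  rw [h3] at h2
  refine h2.trans (le_of_eq ?_)
  congr 2
  ext n
  rw [mem_NV, mem_filter, mem_Ioc, hT, mem_filter]
  simp only [mem_univ, true_and]

/-- the average number of representations of the regular integers -/
lemma reps_avg : ∃ K : ℝ, 1 ≤ K ∧ ∀ v : ℕ, ∀ᶠ X : ℕ in atTop,
    ∑ n ∈ NV v X, (#(reps n) : ℝ) ≤ K * (Vz v * (X / Real.log X) ^ 2) := by
  classical
  obtain ⟨C, hC, hbt⟩ := bt_class
  refine ⟨4 * C ^ 2 * Real.exp 2 + 1, by have := Real.exp_pos 2; nlinarith [mul_pos (pow_pos (lt_of_lt_of_le one_pos hC) 2) this], ?_⟩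
  intro v
  set W := PM v with hWd
  have hWpos : 0 < W := PM_pos v
  have hNZ : NeZero W := ⟨hWpos.ne'⟩
  have hW0 : (0 : ℝ) < W := by exact_mod_cast hWpos
  have hφ : (0 : ℝ) < W.totient := tot_pos W
  have hV := Vz_pos v
  have ht2 : Tendsto (fun X : ℕ => 2 * X) atTop atTop := Filter.tendsto_id.const_mul_atTop' (by norm_num)
  filter_upwards [ht2.eventually (hbt W hWpos), ev_sqrt (2 * (v + 1) / Vz v) 1 (by positivity) (by norm_num), eventually_ge_atTop 3] with X hX1 hX2 hX3
  have hX0 : (0 : ℝ) < X := by exact_mod_cast (by omega : 0 < X)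
  have hlX : 0 < Real.log X := Real.log_pos (by exact_mod_cast (by omega : 1 < X))
  set P := (Icc 1 (2 * X)).filter (fun p => p.Prime ∧ v < p) with hP
  have hPp : ∀ p ∈ P, p.Prime ∧ p ≤ 2 * X := fun p hp => by
    rw [hP, mem_filter, mem_Icc] at hp; exact ⟨hp.2.1, hp.1.2⟩
  set B : ℝ := C * ((2 * X : ℕ) : ℝ) / (W.totient * Real.log ((2 * X : ℕ) : ℝ)) with hB
  have hPB : ∀ σ : ZMod W, (#(P.filter (fun p : ℕ => (p : ZMod W) = σ)) : ℝ) ≤ if IsUnit σ then B else 0 := by
    intro σ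
    split_ifs with h
    · exact hX1 P hPp σ
    · rw [filter_eq_empty_iff.2]
      · simp
      · intro p hp h5
        rw [hP, mem_filter] at hp
        apply h
        rw [← h5]
        exact large_unit v p hp.2.1 hp.2.2
  have hB0 : 0 ≤ B := by
    have : 0 ≤ Real.log ((2 * X : ℕ) : ℝ) := Real.log_natCast_nonneg _
    positivity
  -- the pairs
  have h1 : ∀ n ∈ NV v X, #(reps n) ≤ #((P ×ˢ P).filter (fun q => q.1 + q.2 = n)) + 2 * (v + 1) := by
    intro n hn
    rw [mem_NV] at hn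
    have h2 : reps n ⊆ ((P ×ˢ P).filter (fun q => q.1 + q.2 = n)).image (fun q => q.1) ∪ (range (v + 1) ∪ (range (v + 1)).image (fun q => n - q)) := by
      intro p hp
      rw [reps, mem_filter, mem_range] at hp
      obtain ⟨h3, h4, h5, -⟩ := hp
      rw [mem_union, mem_union]
      by_cases h6 : p ≤ v
      · right; left; rw [mem_range]; omega
      · by_cases h7 : n - p ≤ v
        · right; right
          rw [mem_image]
          exact ⟨n - p, mem_range.2 (by omega), by omega⟩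
        · left
          rw [mem_image]
          refine ⟨(p, n - p), ?_, rfl⟩
          rw [mem_filter, mem_product, hP, mem_filter, mem_filter, mem_Icc, mem_Icc]
          have := h4.pos
          have := h5.pos
          dsimp only
          exact ⟨⟨⟨⟨by omega, by omega⟩, h4, by omega⟩, ⟨⟨by omega, by omega⟩, h5, by omega⟩⟩, by omega⟩
    refine (card_le_card h2).trans ((card_union_le _ _).trans ?_)
    have h3 := card_image_le (s := (P ×ˢ P).filter (fun q => q.1 + q.2 = n)) (f := fun q => q.1)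
    have h4 := card_union_le (range (v + 1)) ((range (v + 1)).image (fun q => n - q))
    have h5 := card_image_le (s := range (v + 1)) (f := fun q => n - q)
    rw [card_range] at h4 h5
    omega
  have h2 : ∑ n ∈ NV v X, #((P ×ˢ P).filter (fun q => q.1 + q.2 = n)) ≤ #((P ×ˢ P).filter (fun q => IsUnit ((q.1 : ZMod W) + (q.2 : ZMod W) - 1))) := by
    rw [← card_biUnion]
    · apply card_le_card
      intro q hq
      rw [mem_biUnion] at hq
      obtain ⟨n, hn, hq⟩ := hq
      rw [mem_filter] at hq ⊢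
      refine ⟨hq.1, ?_⟩
      have h3 := ((mem_NV v X n).1 hn).2
      rw [← hq.2] at h3
      push_cast at h3
      exact h3
    · intro a _ b _ hab
      rw [Function.onFun, disjoint_left]
      intro q hq1 hq2
      rw [mem_filter] at hq1 hq2
      exact hab (hq1.2.symm.trans hq2.2)
  have h3 : (#((P ×ˢ P).filter (fun q => IsUnit ((q.1 : ZMod W) + (q.2 : ZMod W) - 1))) : ℝ) ≤
      B ^ 2 * ((W : ℝ) ^ 2 * ∏ l ∈ W.primeFactors, (((l : ℝ) ^ 2 - 3 * l + 3) / l ^ 2)) := by
    have e1 : (#((P ×ˢ P).filter (fun q => IsUnit ((q.1 : ZMod W) + (q.2 : ZMod W) - 1))) : ℝ) =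
        ∑ p ∈ P, ∑ q ∈ P, if IsUnit ((p : ZMod W) + (q : ZMod W) - 1) then (1 : ℝ) else 0 := by
      rw [← sum_product (f := fun x : ℕ × ℕ => if IsUnit ((x.1 : ZMod W) + (x.2 : ZMod W) - 1) then (1 : ℝ) else 0), ← sum_filter,
        sum_const, nsmul_eq_mul, mul_one]
    rw [e1, sum_fib P (fun σ : ZMod W => ∑ q ∈ P, if IsUnit (σ + (q : ZMod W) - 1) then (1 : ℝ) else 0)]
    have e2 : ∀ σ : ZMod W, ∑ q ∈ P, (if IsUnit (σ + (q : ZMod W) - 1) then (1 : ℝ) else 0) ≤
        B * #(univ.filter (fun b : ZMod W => IsUnit b ∧ IsUnit (σ + b - 1))) := by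
      intro σ
      rw [sum_fib P (fun t : ZMod W => if IsUnit (σ + t - 1) then (1 : ℝ) else 0)]
      have e3 : ∀ t : ZMod W, (#(P.filter (fun p : ℕ => (p : ZMod W) = t)) : ℝ) * (if IsUnit (σ + t - 1) then (1 : ℝ) else 0) ≤
          if IsUnit t ∧ IsUnit (σ + t - 1) then B else 0 := by
        intro t
        have e4 := hPB t
        by_cases hs : IsUnit (σ + t - 1)
        · rw [if_pos hs, mul_one]
          simp only [hs, and_true]
          exact e4
        · rw [if_neg hs, mul_zero, if_neg (fun h => hs h.2)]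
      refine (sum_le_sum fun t _ => e3 t).trans (le_of_eq ?_)
      rw [← sum_filter, sum_const, nsmul_eq_mul, mul_comm]
    have e5 : ∀ σ : ZMod W, (#(P.filter (fun p : ℕ => (p : ZMod W) = σ)) : ℝ) * ∑ q ∈ P, (if IsUnit (σ + (q : ZMod W) - 1) then (1 : ℝ) else 0) ≤
        B ^ 2 * (if IsUnit σ then (#(univ.filter (fun b : ZMod W => IsUnit b ∧ IsUnit (σ + b - 1))) : ℝ) else 0) := by
      intro σ
      have e6 := hPB σ
      have e7 := e2 σ
      have e8 : 0 ≤ ∑ q ∈ P, (if IsUnit (σ + (q : ZMod W) - 1) then (1 : ℝ) else 0) := sum_nonneg fun q _ => by split_ifs <;> norm_num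
      by_cases hs : IsUnit σ
      · rw [if_pos hs] at e6 ⊢
        calc _ ≤ B * (B * #(univ.filter (fun b : ZMod W => IsUnit b ∧ IsUnit (σ + b - 1)))) := mul_le_mul e6 e7 e8 hB0
          _ = _ := by ring
      · rw [if_neg hs] at e6 ⊢
        have e9 : (0 : ℝ) ≤ #(P.filter (fun p : ℕ => (p : ZMod W) = σ)) := Nat.cast_nonneg _
        have e10 : (#(P.filter (fun p : ℕ => (p : ZMod W) = σ)) : ℝ) = 0 := le_antisymm e6 e9
        rw [e10, zero_mul, mul_zero]
    refine (sum_le_sum fun σ _ => e5 σ).trans (le_of_eq ?_)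
    rw [← mul_sum, pairs_count W]
  have hBle : B ≤ 2 * C / W.totient * (X / Real.log X) := by
    have e1 : Real.log X ≤ Real.log ((2 * X : ℕ) : ℝ) := Real.log_le_log hX0 (by push_cast; linarith)
    calc B ≤ C * ((2 * X : ℕ) : ℝ) / (W.totient * Real.log X) := by
          rw [hB]
          apply div_le_div_of_nonneg_left (by positivity) (by positivity)
          exact mul_le_mul_of_nonneg_left e1 hφ.le
      _ = _ := by push_cast; field_simp
  have hprod : ((W : ℝ) / W.totient) ^ 2 * ∏ l ∈ W.primeFactors, (((l : ℝ) ^ 2 - 3 * l + 3) / l ^ 2) ≤ Real.exp 2 * Vz v := by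
    refine le_trans (le_of_eq ?_) (prod_pairs v)
    rw [tot_eq, hWd, PM_primes, ← prod_pow, ← prod_mul_distrib]
    apply prod_congr rfl
    intro l hl
    rw [pz, mem_filter] at hl
    have h2 : (2 : ℝ) ≤ l := by exact_mod_cast hl.2.two_le
    have h3 : (l : ℝ) - 1 ≠ 0 := by linarith
    have h4 : (l : ℝ) ≠ 0 := by linarith
    field_simp
  have hprod0 : 0 ≤ ∏ l ∈ W.primeFactors, (((l : ℝ) ^ 2 - 3 * l + 3) / l ^ 2) := by
    apply prod_nonneg
    intro l _
    apply div_nonneg _ (by positivity)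
    nlinarith [sq_nonneg ((l : ℝ) - 3 / 2)]
  have h4 : B ^ 2 * ((W : ℝ) ^ 2 * ∏ l ∈ W.primeFactors, (((l : ℝ) ^ 2 - 3 * l + 3) / l ^ 2)) ≤
      4 * C ^ 2 * Real.exp 2 * (Vz v * (X / Real.log X) ^ 2) := by
    calc _ ≤ (2 * C / W.totient * (X / Real.log X)) ^ 2 * ((W : ℝ) ^ 2 * ∏ l ∈ W.primeFactors, (((l : ℝ) ^ 2 - 3 * l + 3) / l ^ 2)) :=
          mul_le_mul_of_nonneg_right (pow_le_pow_left₀ hB0 hBle 2) (by positivity)
      _ = 4 * C ^ 2 * (X / Real.log X) ^ 2 * (((W : ℝ) / W.totient) ^ 2 * ∏ l ∈ W.primeFactors, (((l : ℝ) ^ 2 - 3 * l + 3) / l ^ 2)) := by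
          field_simp
          ring
      _ ≤ 4 * C ^ 2 * (X / Real.log X) ^ 2 * (Real.exp 2 * Vz v) := mul_le_mul_of_nonneg_left hprod (by positivity)
      _ = _ := by ring
  have h5 : ∑ n ∈ NV v X, (#(reps n) : ℝ) ≤ (#((P ×ˢ P).filter (fun q => IsUnit ((q.1 : ZMod W) + (q.2 : ZMod W) - 1))) : ℝ) + X * (2 * (v + 1)) := by
    have e1 : ∑ n ∈ NV v X, #(reps n) ≤ #((P ×ˢ P).filter (fun q => IsUnit ((q.1 : ZMod W) + (q.2 : ZMod W) - 1))) + X * (2 * (v + 1)) := by
      refine (sum_le_sum h1).trans ?_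
      rw [sum_add_distrib, sum_const, smul_eq_mul]
      apply Nat.add_le_add h2
      apply Nat.mul_le_mul_right
      have : NV v X ⊆ Ioc X (2 * X) := fun n hn => by rw [mem_Ioc]; exact ((mem_NV v X n).1 hn).1
      have := card_le_card this
      rw [Nat.card_Ioc] at this
      omega
    exact_mod_cast e1
  have h6 : (X : ℝ) * (2 * (v + 1)) ≤ 1 * (Vz v * (X / Real.log X) ^ 2) := by
    have e1 : (2 * ((v : ℝ) + 1) / Vz v) * Real.log X ^ 2 ≤ 1 * X := by
      refine le_trans ?_ hX2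
      apply mul_le_mul_of_nonneg_right _ (by positivity)
      have e2 : (0 : ℝ) ≤ (Nat.sqrt (2 * X) : ℕ) := Nat.cast_nonneg _
      have e3 : 0 ≤ 2 * ((v : ℝ) + 1) / Vz v := by positivity
      nlinarith
    rw [div_mul_eq_mul_div, div_le_iff₀ hV] at e1
    rw [one_mul, div_pow, ← mul_div_assoc, le_div_iff₀ (by positivity)]
    nlinarith
  calc _ ≤ _ := h5
    _ ≤ 4 * C ^ 2 * Real.exp 2 * (Vz v * (X / Real.log X) ^ 2) + 1 * (Vz v * (X / Real.log X) ^ 2) := add_le_add (h3.trans h4) h6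
    _ = _ := by ring

end Pool.Agent.W5h22.GS
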