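import Mathlib
import Pool.Agent.W5h22.GS.R

set_option autoImplicit false

/-! The lower bound for the number of integers of which a sparse set captures a small share. -/

namespace Pool.Agent.W5h22.GS
open Finset Filter
open Pool.Agent.H373R2.T7 (pz Vz Vz_pos)
open Pool.Agent.W5h22.RB (E tot_pos n_pos)
open Pool.Agent.H373R2.NB (piA piA_unif)

lemma prod_ge (s : Finset ℕ) (x : ℕ → ℝ) (h0 : ∀ i ∈ s, 0 ≤ x i) (h1 : ∀ i ∈ s, x i ≤ 1) : 1 - ∑ i ∈ s, x i ≤ ∏ i ∈ s, (1 - x i) := by
  classical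
  induction s using Finset.induction_on with
  | empty => simp
  | insert a s ha ih =>
    rw [sum_insert ha, prod_insert ha]
    have k1 := h0 a (mem_insert_self _ _)
    have k2 := h1 a (mem_insert_self _ _)
    have k3 := ih (fun i hi => h0 i (mem_insert_of_mem hi)) (fun i hi => h1 i (mem_insert_of_mem hi))
    have k4 : 0 ≤ ∑ i ∈ s, x i := sum_nonneg fun i hi => h0 i (mem_insert_of_mem hi)
    have k5 : (1 - x a) * (1 - ∑ i ∈ s, x i) ≤ (1 - x a) * ∏ i ∈ s, (1 - x i) := mul_le_mul_of_nonneg_left k3 (by linarith)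
    nlinarith [mul_nonneg k1 k4]

/-- the product over the large primes -/
lemma prod_large (v : ℕ) (hv : 4 ≤ v) (S : Finset ℕ) (hS : ∀ l ∈ S, v < l) : (1 : ℝ) / 2 ≤ ∏ l ∈ S, (1 - 1 / ((l : ℝ) - 1) ^ 2) := by
  refine le_trans ?_ (prod_ge S (fun l => 1 / ((l : ℝ) - 1) ^ 2) ?_ ?_)
  · have h1 := tail_sum S v (by omega) hS
    have h2 : ∑ l ∈ S, 1 / ((l : ℝ) - 1) ^ 2 ≤ ∑ l ∈ S, 2 * (1 / ((l : ℝ) * (l - 1))) := by
      apply sum_le_sum
      intro l hl
      have h3 : (5 : ℝ) ≤ l := by exact_mod_cast (by have := hS l hl; omega : 5 ≤ l)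
      have h4 : 0 < (l : ℝ) - 1 := by linarith
      rw [mul_one_div, div_le_div_iff₀ (by positivity) (by positivity)]
      nlinarith
    rw [← mul_sum] at h2
    have h3 : (1 : ℝ) / v ≤ 1 / 4 := by
      apply one_div_le_one_div_of_le (by norm_num)
      exact_mod_cast hv
    linarith
  · intro l hl
    positivity
  · intro l hl
    have h3 : (5 : ℝ) ≤ l := by exact_mod_cast (by have := hS l hl; omega : 5 ≤ l)
    rw [div_le_one (by nlinarith)]
    nlinarith

open Classical in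
/-- the good classes -/
noncomputable def BC (v w n : ℕ) [NeZero (PM w)] : Finset (ZMod (PM w)) :=
  univ.filter (fun b => ∀ l ∈ (PM w).primeFactors, if l ≤ v then (b.cast : ZMod l) = 1 else (b.cast : ZMod l) ≠ 0 ∧ (b.cast : ZMod l) ≠ (n : ZMod l))

lemma card_BC (v w n : ℕ) (hv : 4 ≤ v) (hvw : v ≤ w) [NeZero (PM w)] :
    (1 : ℝ) / (2 * (PM v).totient * Vz v) ≤ ((PM w : ℝ) / (PM w).totient) ^ 2 * (#(BC v w n) / PM w) := by
  classical
  have hW0 : (0 : ℝ) < PM w := by exact_mod_cast PM_pos w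
  have hv0 : NeZero (PM v) := ⟨(PM_pos v).ne'⟩
  have h1 := count_loc (PM w) (fun b : ZMod (PM w) => ∀ l ∈ (PM w).primeFactors, if l ≤ v then (b.cast : ZMod l) = 1 else (b.cast : ZMod l) ≠ 0 ∧ (b.cast : ZMod l) ≠ (n : ZMod l))
    (fun l x => if (if l ≤ v then x = 1 else x ≠ 0 ∧ x ≠ (n : ZMod l)) then (1 : ℝ) else 0) (by
      intro t
      rw [Finset.prod_ite_zero, prod_const_one])
  have h2 : (#(BC v w n) : ℝ) / PM w = ∏ l ∈ pz w, ((∑ x ∈ range l, (if (if l ≤ v then (x : ZMod l) = 1 else (x : ZMod l) ≠ 0 ∧ (x : ZMod l) ≠ (n : ZMod l)) then (1 : ℝ) else 0)) / l) := by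
    have h3 : (#(BC v w n) : ℝ) = (PM w : ℝ) * ∏ l ∈ (PM w).primeFactors, ((∑ x ∈ range l, (if (if l ≤ v then (x : ZMod l) = 1 else (x : ZMod l) ≠ 0 ∧ (x : ZMod l) ≠ (n : ZMod l)) then (1 : ℝ) else 0)) / l) := by
      rw [← h1]
      unfold BC
      congr 2
    rw [h3, mul_div_cancel_left₀ _ hW0.ne', PM_primes]
  rw [h2, tot_eq, PM_primes, ← prod_pow, ← prod_mul_distrib]
  have h3 : ∀ l ∈ pz w, (if l ≤ v then (l : ℝ) / (l - 1) ^ 2 else 1 - 1 / ((l : ℝ) - 1) ^ 2) ≤
      ((l : ℝ) / (l - 1)) ^ 2 * ((∑ x ∈ range l, (if (if l ≤ v then (x : ZMod l) = 1 else (x : ZMod l) ≠ 0 ∧ (x : ZMod l) ≠ (n : ZMod l)) then (1 : ℝ) else 0)) / l) := by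
    intro l hl
    rw [pz, mem_filter, mem_Icc] at hl
    have hlp := hl.2
    have hNl : NeZero l := ⟨hlp.ne_zero⟩
    have hF : Fact l.Prime := ⟨hlp⟩
    have h2 : (2 : ℝ) ≤ l := by exact_mod_cast hlp.two_le
    have h4 : 0 < (l : ℝ) - 1 := by linarith
    split_ifs with h5
    · have h6 : (1 : ℝ) ≤ ∑ x ∈ range l, (if (x : ZMod l) = 1 then (1 : ℝ) else 0) := by
        have h7 := single_le_sum (s := range l) (f := fun x : ℕ => if (x : ZMod l) = 1 then (1 : ℝ) else 0) (fun x _ => by split_ifs <;> norm_num) (mem_range.2 hlp.one_lt)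
        simpa using h7
      calc (l : ℝ) / (l - 1) ^ 2 = ((l : ℝ) / (l - 1)) ^ 2 * (1 / l) := by field_simp
        _ ≤ _ := by
          apply mul_le_mul_of_nonneg_left _ (by positivity)
          apply div_le_div_of_nonneg_right h6 (by positivity)
    · have h6 : (l : ℝ) - 2 ≤ ∑ x ∈ range l, (if (x : ZMod l) ≠ 0 ∧ (x : ZMod l) ≠ (n : ZMod l) then (1 : ℝ) else 0) := by
        rw [sum_range_zmod l (fun x : ZMod l => if x ≠ 0 ∧ x ≠ (n : ZMod l) then (1 : ℝ) else 0), ← sum_filter, sum_const, nsmul_eq_mul, mul_one]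
        have h7 : (univ : Finset (ZMod l)).filter (fun x => x ≠ 0 ∧ x ≠ (n : ZMod l)) = univ \ {0, (n : ZMod l)} := by
          ext x
          rw [mem_filter, Finset.mem_sdiff, mem_insert, mem_singleton]
          tauto
        rw [h7, card_sdiff_of_subset (subset_univ _), card_univ, ZMod.card]
        have h8 := card_le_two (a := (0 : ZMod l)) (b := (n : ZMod l))
        rw [Nat.cast_sub (h8.trans hlp.two_le)]
        have h9 : (#({0, (n : ZMod l)} : Finset (ZMod l)) : ℝ) ≤ 2 := by exact_mod_cast h8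
        linarith
      calc (1 : ℝ) - 1 / ((l : ℝ) - 1) ^ 2 = ((l : ℝ) / (l - 1)) ^ 2 * ((l - 2) / l) := by
            field_simp
            ring
        _ ≤ _ := by
          apply mul_le_mul_of_nonneg_left _ (by positivity)
          apply div_le_div_of_nonneg_right h6 (by positivity)
  refine le_trans ?_ (Finset.prod_le_prod ?_ h3)
  · rw [prod_ite]
    have h4 : (pz w).filter (fun l => l ≤ v) = pz v := by
      ext l
      simp only [pz, mem_filter, mem_Icc]
      constructor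
      · rintro ⟨⟨⟨a, b⟩, c⟩, d⟩; exact ⟨⟨a, d⟩, c⟩
      · rintro ⟨⟨a, b⟩, c⟩; exact ⟨⟨⟨a, b.trans hvw⟩, c⟩, b⟩
    rw [h4]
    have h5 : ∏ l ∈ pz v, (l : ℝ) / (l - 1) ^ 2 = 1 / ((PM v).totient * Vz v) := by
      have h6 := tot_Vz v
      rw [h6]
      unfold PM Vz
      rw [Nat.cast_prod, ← prod_mul_distrib, ← prod_mul_distrib, one_div, ← prod_inv_distrib]
      apply prod_congr rfl
      intro l hl
      rw [pz, mem_filter] at hl
      have h2 : (2 : ℝ) ≤ l := by exact_mod_cast hl.2.two_le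
      have h3 : (l : ℝ) - 1 ≠ 0 := by linarith
      have h4 : (l : ℝ) ≠ 0 := by linarith
      have h5 : (l : ℝ) * (1 - 1 / l) * (1 - 1 / l) = (l - 1) ^ 2 / l := by field_simp
      rw [h5, inv_div]
    rw [h5]
    have h6 := prod_large v hv ((pz w).filter (fun l => ¬ l ≤ v)) (fun l hl => by
      have := (mem_filter.1 hl).2; omega)
    have h7 : (0 : ℝ) < (PM v).totient := tot_pos _
    have h8 := Vz_pos v
    calc (1 : ℝ) / (2 * (PM v).totient * Vz v) = 1 / ((PM v).totient * Vz v) * (1 / 2) := by field_simp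
      _ ≤ _ := mul_le_mul_of_nonneg_left h6 (by positivity)
  · intro l hl
    rw [pz, mem_filter, mem_Icc] at hl
    have h2 : (2 : ℝ) ≤ l := by exact_mod_cast hl.2.two_le
    split_ifs with h5
    · have h3 : 0 < (l : ℝ) - 1 := by linarith
      positivity
    · have h6 : (5 : ℝ) ≤ l := by exact_mod_cast (by omega : 5 ≤ l)
      rw [sub_nonneg, div_le_one (by nlinarith)]
      nlinarith

/-- the example -/
noncomputable def D1 (v y : ℕ) : Finset ℕ := by
  classical
  exact (Icc 1 y).filter (fun p => p.Prime ∧ (p : ZMod (PM v)) = 1)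

lemma mem_D1 (v y p : ℕ) : p ∈ D1 v y ↔ (1 ≤ p ∧ p ≤ y) ∧ p.Prime ∧ (p : ZMod (PM v)) = 1 := by
  classical
  unfold D1
  rw [mem_filter, mem_Icc]

/-- the primes of the example with `n - p` coprime to `PM w` -/
lemma count_D1 (v w : ℕ) (hvw : v ≤ w) [NeZero (PM w)] (n y : ℕ) (hyn : y < n) (hn : IsUnit ((n : ZMod (PM v)) - 1)) (m : ℝ)
    (hm : ∀ c : ℕ, Nat.Coprime c (PM w) → m ≤ (piA (PM w) c y : ℝ)) :
    (#(BC v w n) : ℝ) * m ≤ #((G2 (PM w) n).filter (fun p => p ∈ D1 v y)) := by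
  classical
  have hNZv : NeZero (PM v) := ⟨(PM_pos v).ne'⟩
  have hpz : pz v ⊆ pz w := by
    intro l hl
    rw [pz, mem_filter, mem_Icc] at hl ⊢
    exact ⟨⟨hl.1.1, hl.1.2.trans hvw⟩, hl.2⟩
  have h1 : ∑ b ∈ BC v w n, (#((Icc 1 y).filter (fun p => p.Prime ∧ p ≡ b.val [MOD (PM w)]))) ≤ #((G2 (PM w) n).filter (fun p => p ∈ D1 v y)) := by
    rw [← card_biUnion]
    · apply card_le_card
      intro p hp
      rw [mem_biUnion] at hp
      obtain ⟨b, hb, hp⟩ := hp
      rw [mem_filter, mem_Icc] at hp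
      obtain ⟨⟨hp1, hp2⟩, hp3, hp4⟩ := hp
      have hpb : (p : ZMod (PM w)) = b := by
        have := (ZMod.natCast_eq_natCast_iff p b.val (PM w)).2 hp4
        rwa [ZMod.natCast_zmod_val] at this
      rw [BC, mem_filter] at hb
      have hb2 := hb.2
      have hcast : ∀ l ∈ (PM w).primeFactors, (b.cast : ZMod l) = (p : ZMod l) := by
        intro l hl
        rw [← hpb, ZMod.cast_natCast (Nat.dvd_of_mem_primeFactors hl)]
      rw [mem_filter, G2, mem_filter, mem_range, mem_D1]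
      refine ⟨⟨by omega, hp3, ?_⟩, ⟨hp1, hp2⟩, hp3, ?_⟩
      · by_contra hcon
        obtain ⟨l, hl, hl1, hl2⟩ := Nat.Prime.not_coprime_iff_dvd.1 hcon
        have hlf : l ∈ (PM w).primeFactors := Nat.mem_primeFactors.2 ⟨hl, hl2, NeZero.ne _⟩
        have h3 := hb2 l hlf
        rw [hcast l hlf] at h3
        have h4 : (n : ZMod l) - (p : ZMod l) = 0 := by
          rw [← Nat.cast_sub (by omega : p ≤ n)]
          exact (ZMod.natCast_eq_zero_iff _ _).2 hl1
        split_ifs at h3 with h5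
        · rw [h3] at h4
          have hlv : l ∈ (PM v).primeFactors := by
            rw [PM_primes, pz, mem_filter, mem_Icc]
            exact ⟨⟨hl.one_le, h5⟩, hl⟩
          have h6 := (unit_iff ((n : ZMod (PM v)) - 1)).1 hn l hlv
          apply h6
          rw [ZMod.cast_sub (Nat.dvd_of_mem_primeFactors hlv), ZMod.cast_natCast (Nat.dvd_of_mem_primeFactors hlv), ZMod.cast_one (Nat.dvd_of_mem_primeFactors hlv)]
          exact h4
        · exact h3.2 (sub_eq_zero.1 h4).symm
      · -- `p ≡ 1` modulo `PM v`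
        have h3 : ∀ l ∈ pz v, (l : ℤ) ∣ ((p : ℤ) - 1) := by
          intro l hl
          have hlw := hpz hl
          rw [← PM_primes] at hlw
          have h4 := hb2 l hlw
          rw [pz, mem_filter, mem_Icc] at hl
          rw [if_pos hl.1.2, hcast l hlw] at h4
          rw [← ZMod.intCast_zmod_eq_zero_iff_dvd]
          push_cast
          rw [h4, sub_self]
        have h4 : ((PM v : ℕ) : ℤ) ∣ ((p : ℤ) - 1) := by
          unfold PM
          rw [Nat.cast_prod]
          apply Finset.prod_dvd_of_coprime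
          · intro a ha b hb hab
            rw [mem_coe, pz, mem_filter] at ha hb
            rw [Function.onFun]
            exact Nat.Coprime.isCoprime ((Nat.coprime_primes ha.2 hb.2).2 hab)
          · exact h3
        have h5 := (ZMod.intCast_zmod_eq_zero_iff_dvd _ _).2 h4
        push_cast at h5
        exact sub_eq_zero.1 h5
    · intro a _ b _ hab
      rw [Function.onFun, disjoint_left]
      intro p hp1 hp2
      rw [mem_filter] at hp1 hp2
      apply hab
      have h3 := hp1.2.2.symm.trans hp2.2.2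
      have h4 := (ZMod.natCast_eq_natCast_iff a.val b.val (PM w)).2 h3
      rwa [ZMod.natCast_zmod_val, ZMod.natCast_zmod_val] at h4
  have h2 : (#(BC v w n) : ℝ) * m ≤ ∑ b ∈ BC v w n, (#((Icc 1 y).filter (fun p => p.Prime ∧ p ≡ b.val [MOD (PM w)])) : ℝ) := by
    rw [← nsmul_eq_mul]
    apply card_nsmul_le_sum
    intro b hb
    apply hm b.val
    rw [BC, mem_filter] at hb
    have h3 : IsUnit b := by
      rw [unit_iff]
      intro l hl
      have h4 := hb.2 l hl
      have hlp := Nat.prime_of_mem_primeFactors hl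
      have : Fact l.Prime := ⟨hlp⟩
      split_ifs at h4 with h5
      · rw [h4]; exact one_ne_zero
      · exact h4.1
    have h4 : b = ((b.val : ℕ) : ZMod (PM w)) := (ZMod.natCast_zmod_val b).symm
    rw [h4] at h3
    exact (ZMod.isUnit_iff_coprime _ _).1 h3
  refine h2.trans ?_
  exact_mod_cast h1

end Pool.Agent.W5h22.GS
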