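import Mathlib
import Pool.Agent.W5h22.GS.T

set_option autoImplicit false

/-! The lower bound for the number of integers of which a sparse set captures a small share. -/

namespace Pool.Agent.W5h22.GS
open Finset Filter
open Pool.Agent.H373R2.T7 (pz Vz Vz_pos)
open Pool.Agent.W5h22.RB (E tot_pos n_pos)
open Pool.Agent.H373R2.NB (piA piA_unif)

lemma ev_floor (θ : ℝ) (hθ : 0 < θ) : ∀ᶠ X : ℕ in atTop, θ * X / 2 ≤ (⌊θ * X⌋₊ : ℝ) ∧ 1 / 2 * Real.log X ≤ Real.log ⌊θ * X⌋₊ ∧ 3 ≤ ⌊θ * X⌋₊ := by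
  have h1 := ev_J 1 le_rfl θ hθ
  have h2 : ∀ᶠ X : ℕ in atTop, 6 / θ ≤ (X : ℝ) := tendsto_natCast_atTop_atTop.eventually_ge_atTop _
  filter_upwards [h1, h2] with X h1 h2
  simp only [Nat.cast_one, div_one] at h1
  rw [div_le_iff₀ hθ] at h2
  have h3 := Nat.lt_floor_add_one (θ * X)
  refine ⟨by linarith, h1.2, ?_⟩
  apply Nat.le_floor
  push_cast
  linarith

/-- the heart: fixed `v` -/
lemma fixed_v : ∃ K : ℝ, 1 ≤ K ∧ ∀ v : ℕ, 4 ≤ v → ∀ η : ℝ, 0 < η → η * (PM v).totient ≤ 1 → ∀ᶠ X : ℕ in atTop, ∃ D : Finset ℕ,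
    (∀ p ∈ D, p.Prime) ∧ (#D : ℝ) ≤ η * (X / Real.log X) ∧ ∃ S : Finset ℕ, (∀ n ∈ S, X < n ∧ n ≤ 2 * X ∧ Even n ∧
      0 < #(reps n) ∧ η / (K * Vz v) * (#(reps n) : ℝ) ≤ #(repsD D n)) ∧ Vz v / 4 * X ≤ #S := by
  classical
  obtain ⟨C, hC, hbt⟩ := bt_class
  obtain ⟨K, hK, havg⟩ := reps_avg
  refine ⟨1024 * C * K, by nlinarith, ?_⟩
  intro v hv η hη hηv
  have hNZv : NeZero (PM v) := ⟨(PM_pos v).ne'⟩
  have hφ : (0 : ℝ) < (PM v).totient := tot_pos _
  have hV := Vz_pos v
  have hV1 : Vz v ≤ 1 := Pool.Agent.H373R2.T7.Vz_le_one v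
  set θ : ℝ := η * (PM v).totient / (2 * C) with hθ
  have hθ0 : 0 < θ := by positivity
  have hθ1 : θ ≤ 1 := by
    rw [hθ, div_le_one (by positivity)]
    linarith
  set main : ℝ := η / (32 * C * Vz v) with hmain
  have hmain0 : 0 < main := by positivity
  set ε' : ℝ := min (Vz v / 8) (main / 2) with hε'
  have hε'0 : 0 < ε' := by positivity
  have hε'1 : ε' ≤ Vz v / 8 := min_le_left _ _
  have hε'2 : ε' ≤ main / 2 := min_le_right _ _
  obtain ⟨w₀, hltg⟩ := ltg ε' hε'0
  set w := max w₀ v with hw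
  have hww : w₀ ≤ w := le_max_left _ _
  have hvw : v ≤ w := le_max_right _ _
  have hNZw : NeZero (PM w) := ⟨(PM_pos w).ne'⟩
  have hφw : (0 : ℝ) < (PM w).totient := tot_pos _
  have hWw : (0 : ℝ) < PM w := by exact_mod_cast PM_pos w
  obtain ⟨N₀, hpi⟩ := piA_unif (PM w) (PM_pos w) (1 / (2 * (PM w).totient)) (by positivity)
  have hty : Tendsto (fun X : ℕ => ⌊θ * X⌋₊) atTop atTop :=
    tendsto_nat_floor_atTop.comp (tendsto_natCast_atTop_atTop.const_mul_atTop hθ0)
  have hev3 : ∀ᶠ X : ℕ in atTop, 3 ≤ main / 4 * (X / Real.log X ^ 2) := by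
    filter_upwards [ev_sqrt (12 / main) 1 (by positivity) (by norm_num), eventually_ge_atTop 3] with X h1 h2
    have hlX : 0 < Real.log X := Real.log_pos (by exact_mod_cast (by omega : 1 < X))
    rw [← mul_div_assoc, le_div_iff₀ (by positivity)]
    have h3 : 12 / main * Real.log X ^ 2 ≤ 1 * X := by
      refine le_trans ?_ h1
      apply mul_le_mul_of_nonneg_right _ (by positivity)
      have e2 : (0 : ℝ) ≤ (Nat.sqrt (2 * X) : ℕ) := Nat.cast_nonneg _
      have e3 : 0 ≤ 12 / main := by positivity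
      nlinarith
    rw [div_mul_eq_mul_div, div_le_iff₀ hmain0] at h3
    linarith
  filter_upwards [hltg w hww, ev_floor θ hθ0, hty.eventually (hbt (PM v) (PM_pos v)), hty.eventually_ge_atTop N₀, havg v, hev3,
    eventually_ge_atTop (4 * PM v + 3)] with X hX1 hX2 hX3 hX4 hX5 hX6 hX7
  set y := ⌊θ * X⌋₊ with hy
  have hX0 : (0 : ℝ) < X := by exact_mod_cast (by omega : 0 < X)
  have hlX : 0 < Real.log X := Real.log_pos (by exact_mod_cast (by omega : 1 < X))
  have hyX : (y : ℝ) ≤ θ * X := Nat.floor_le (by positivity)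
  have hyX2 : y ≤ X := by
    have : (y : ℝ) ≤ X := hyX.trans (by nlinarith)
    exact_mod_cast this
  have hy0 : (0 : ℝ) < y := by exact_mod_cast (by omega : 0 < y)
  have hly : 0 < Real.log y := Real.log_pos (by exact_mod_cast (by omega : 1 < y))
  have hlyX : Real.log y ≤ Real.log X := Real.log_le_log hy0 (by exact_mod_cast hyX2)
  set D := D1 v y with hD
  refine ⟨D, fun p hp => ((mem_D1 v y p).1 hp).2.1, ?_, ?_⟩
  · have h1 := hX3 D (fun p hp => ⟨((mem_D1 v y p).1 hp).2.1, ((mem_D1 v y p).1 hp).1.2⟩) 1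
    have h2 : D.filter (fun p : ℕ => (p : ZMod (PM v)) = 1) = D := by
      rw [filter_eq_self]
      intro p hp
      exact ((mem_D1 v y p).1 hp).2.2
    rw [h2] at h1
    refine h1.trans ?_
    calc C * y / ((PM v).totient * Real.log y) ≤ C * (θ * X) / ((PM v).totient * (1 / 2 * Real.log X)) := by
          apply div_le_div₀ (by positivity) _ (by positivity)
          · exact mul_le_mul_of_nonneg_left hX2.2.1 hφ.le
          · exact mul_le_mul_of_nonneg_left hyX (by linarith)
      _ = η * (X / Real.log X) := by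
          rw [hθ]; field_simp
  -- the good integers
  set Bad : Finset ℕ := (Ioc X (2 * X)).filter (fun n : ℕ => ε' * ((X : ℝ) / Real.log X ^ 2) <
      |∑ p ∈ G1 n, (if p ∈ D then (1 : ℝ) else 0) - ((PM w : ℕ) / (PM w).totient : ℝ) / Real.log X * ∑ p ∈ G2 (PM w) n, (if p ∈ D then (1 : ℝ) else 0)|) with hBad
  have hBadc : (#Bad : ℝ) ≤ ε' * X := hX1 (fun p => if p ∈ D then (1 : ℝ) else 0) (fun p => by split_ifs <;> norm_num)
  set Big : Finset ℕ := (NV v X).filter (fun n => 8 * K * (X / Real.log X ^ 2) < (#(reps n) : ℝ)) with hBig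
  have hBigc : (#Big : ℝ) ≤ Vz v * X / 8 := by
    have h1 : (#Big : ℝ) * (8 * K * (X / Real.log X ^ 2)) ≤ ∑ n ∈ Big, (#(reps n) : ℝ) := by
      rw [← nsmul_eq_mul]
      apply card_nsmul_le_sum
      intro n hn
      rw [hBig, mem_filter] at hn
      exact hn.2.le
    have h2 : ∑ n ∈ Big, (#(reps n) : ℝ) ≤ ∑ n ∈ NV v X, (#(reps n) : ℝ) :=
      sum_le_sum_of_subset_of_nonneg (filter_subset _ _) (fun n _ _ => Nat.cast_nonneg _)
    have h3 : (#Big : ℝ) * (8 * K * (X / Real.log X ^ 2)) ≤ (Vz v * X / 8) * (8 * K * (X / Real.log X ^ 2)) := by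
      refine (h1.trans (h2.trans hX5)).trans (le_of_eq ?_)
      field_simp
    exact le_of_mul_le_mul_right h3 (by positivity)
  refine ⟨(NV v X) \ (Bad ∪ Big), ?_, ?_⟩
  · intro n hn
    rw [Finset.mem_sdiff, mem_union, not_or] at hn
    obtain ⟨hn1, hn2, hn3⟩ := hn
    have hn4 := (mem_NV v X n).1 hn1
    have hn5 : (#(reps n) : ℝ) ≤ 8 * K * (X / Real.log X ^ 2) := by
      by_contra h
      push Not at h
      exact hn3 (by rw [hBig, mem_filter]; exact ⟨hn1, h⟩)
    have hn6 : |∑ p ∈ G1 n, (if p ∈ D then (1 : ℝ) else 0) - ((PM w : ℕ) / (PM w).totient : ℝ) / Real.log X * ∑ p ∈ G2 (PM w) n, (if p ∈ D then (1 : ℝ) else 0)| ≤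
        ε' * ((X : ℝ) / Real.log X ^ 2) := by
      by_contra h
      push Not at h
      exact hn2 (by rw [hBad, mem_filter, mem_Ioc]; exact ⟨hn4.1, h⟩)
    have hs1 : ∑ p ∈ G1 n, (if p ∈ D then (1 : ℝ) else 0) = #((G1 n).filter (fun p => p ∈ D)) := by
      rw [← sum_filter, sum_const, nsmul_eq_mul, mul_one]
    have hs2 : ∑ p ∈ G2 (PM w) n, (if p ∈ D then (1 : ℝ) else 0) = #((G2 (PM w) n).filter (fun p => p ∈ D)) := by
      rw [← sum_filter, sum_const, nsmul_eq_mul, mul_one]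
    rw [hs1, hs2] at hn6
    -- the main term
    have h1 : ∀ c : ℕ, Nat.Coprime c (PM w) → (y : ℝ) / (2 * (PM w).totient * Real.log X) ≤ (piA (PM w) c y : ℝ) := by
      intro c hc
      have h2 := (abs_le.1 (hpi y hX4 c hc)).1
      have h3 : (y : ℝ) / (2 * (PM w).totient) ≤ (piA (PM w) c y : ℝ) * Real.log y := by
        have e1 : (y : ℝ) / (PM w).totient - 1 / (2 * (PM w).totient) * y = y / (2 * (PM w).totient) := by
          field_simp; ring
        linarith
      have h4 : (y : ℝ) / (2 * (PM w).totient) ≤ (piA (PM w) c y : ℝ) * Real.log X :=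
        h3.trans (mul_le_mul_of_nonneg_left hlyX (Nat.cast_nonneg _))
      rw [← div_div, div_le_iff₀ hlX]
      exact h4
    have h2 := count_D1 v w hvw n y (by omega) hn4.2 _ h1
    have h3 := card_BC v w n hv hvw
    have h4 : main * (X / Real.log X ^ 2) ≤ ((PM w : ℕ) / (PM w).totient : ℝ) / Real.log X * (#((G2 (PM w) n).filter (fun p => p ∈ D)) : ℝ) := by
      calc main * (X / Real.log X ^ 2) = (θ * X / 2) / (2 * Real.log X ^ 2) * (1 / (2 * (PM v).totient * Vz v)) / 2 := by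
            rw [hmain, hθ]; field_simp; ring
        _ ≤ (θ * X / 2) / (2 * Real.log X ^ 2) * (1 / (2 * (PM v).totient * Vz v)) := by
            have : 0 ≤ (θ * X / 2) / (2 * Real.log X ^ 2) * (1 / (2 * (PM v).totient * Vz v)) := by positivity
            linarith
        _ ≤ y / (2 * Real.log X ^ 2) * (((PM w : ℝ) / (PM w).totient) ^ 2 * (#(BC v w n) / PM w)) := by
            apply mul_le_mul _ h3 (by positivity) (by positivity)
            exact div_le_div_of_nonneg_right hX2.1 (by positivity)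
        _ = ((PM w : ℕ) / (PM w).totient : ℝ) / Real.log X * (#(BC v w n) * (y / (2 * (PM w).totient * Real.log X))) := by
            field_simp
        _ ≤ _ := mul_le_mul_of_nonneg_left h2 (by positivity)
    have h5 : main / 2 * (X / Real.log X ^ 2) ≤ (#((G1 n).filter (fun p => p ∈ D)) : ℝ) := by
      have h6 := (abs_le.1 hn6).1
      have h7 : ε' * ((X : ℝ) / Real.log X ^ 2) ≤ main / 2 * (X / Real.log X ^ 2) := mul_le_mul_of_nonneg_right hε'2 (by positivity)
      have h8 : main * ((X : ℝ) / Real.log X ^ 2) = main / 2 * (X / Real.log X ^ 2) + main / 2 * (X / Real.log X ^ 2) := by ring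
      linarith
    have h6 : #((G1 n).filter (fun p => p ∈ D)) ≤ #(repsD D n) + 3 := by
      have h7 : (G1 n).filter (fun p => p ∈ D) ⊆ repsD D n ∪ {2, n - 2, n / 2} := by
        intro p hp
        rw [mem_filter, G1, mem_filter, mem_range] at hp
        rw [mem_union, repsD, mem_filter, reps, mem_filter, mem_range, mem_insert, mem_insert, mem_singleton]
        by_contra hcon
        push Not at hcon
        obtain ⟨⟨k1, k2, k3⟩, k4⟩ := hp
        have := hcon.1 ⟨k1, k2, k3, hcon.2.1, by omega, by omega⟩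
        exact this.1 k4
      have h8 := (card_le_card h7).trans (card_union_le _ _)
      have h9 : #({2, n - 2, n / 2} : Finset ℕ) ≤ 3 := card_le_three
      omega
    have h7 : (#((G1 n).filter (fun p => p ∈ D)) : ℝ) ≤ #(repsD D n) + 3 := by exact_mod_cast h6
    have h8 : main / 4 * (X / Real.log X ^ 2) ≤ (#(repsD D n) : ℝ) := by
      have h9 : main / 2 * ((X : ℝ) / Real.log X ^ 2) = main / 4 * (X / Real.log X ^ 2) + main / 4 * (X / Real.log X ^ 2) := by ring
      linarith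
    have h9 : (0 : ℝ) < #(repsD D n) := lt_of_lt_of_le (by positivity) h8
    have h10 : #(repsD D n) ≤ #(reps n) := card_le_card (filter_subset _ _)
    refine ⟨hn4.1.1, hn4.1.2, ?_, ?_, ?_⟩
    · -- even
      have h2v : 2 ∈ (PM v).primeFactors := by
        rw [PM_primes, pz, mem_filter, mem_Icc]
        exact ⟨⟨by norm_num, by omega⟩, Nat.prime_two⟩
      have h11 := (unit_iff ((n : ZMod (PM v)) - 1)).1 hn4.2 2 h2v
      have hd := Nat.dvd_of_mem_primeFactors h2v
      rw [ZMod.cast_sub hd, ZMod.cast_natCast hd, ZMod.cast_one hd] at h11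
      by_contra hodd
      rw [Nat.not_even_iff_odd] at hodd
      apply h11
      have h12 : (n : ZMod 2) = 1 := by
        rw [ZMod.natCast_eq_one_iff_odd]; exact hodd
      rw [h12, sub_self]
    · have : (0 : ℝ) < #(reps n) := lt_of_lt_of_le h9 (by exact_mod_cast h10)
      exact_mod_cast this
    · refine le_trans ?_ h8
      calc η / (1024 * C * K * Vz v) * (#(reps n) : ℝ) ≤ η / (1024 * C * K * Vz v) * (8 * K * (X / Real.log X ^ 2)) :=
            mul_le_mul_of_nonneg_left hn5 (by positivity)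
        _ = main / 4 * (X / Real.log X ^ 2) := by
            rw [hmain]; field_simp; ring
  · have h1 := card_NV v X (by omega)
    have h2 : #(NV v X) ≤ #((NV v X) \ (Bad ∪ Big)) + (#Bad + #Big) := by
      have h3 := card_le_card (show NV v X ⊆ ((NV v X) \ (Bad ∪ Big)) ∪ (Bad ∪ Big) from fun n hn => by
        rw [mem_union, Finset.mem_sdiff]; tauto)
      have h4 := card_union_le ((NV v X) \ (Bad ∪ Big)) (Bad ∪ Big)
      have h5 := card_union_le Bad Big
      omega
    have h3 : (#(NV v X) : ℝ) ≤ #((NV v X) \ (Bad ∪ Big)) + (#Bad + #Big) := by exact_mod_cast h2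
    have h4 : ε' * X ≤ Vz v / 8 * X := mul_le_mul_of_nonneg_right hε'1 hX0.le
    linarith

end Pool.Agent.W5h22.GS
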