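import Mathlib
import Pool.Agent.W5h22.GS.U

set_option autoImplicit false

/-! The range of the small shares. -/

namespace Pool.Agent.W5h22.GS
open Finset Filter
open Pool.Agent.H373R2.T7 (pz Vz Vz_pos)
open Pool.Agent.W5h22.RB (E tot_pos n_pos)

lemma PM_primorial (w : ℕ) : PM w = primorial w := by
  unfold PM primorial
  apply prod_congr _ (fun _ _ => rfl)
  ext p
  rw [pz, mem_filter, mem_filter, mem_Icc, mem_range]
  constructor
  · rintro ⟨⟨a, b⟩, c⟩; exact ⟨by omega, c⟩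
  · rintro ⟨a, c⟩; exact ⟨⟨c.one_le, by omega⟩, c⟩

theorem lower2 : ∃ c : ℝ, 0 < c ∧ ∀ η ε : ℝ, 0 < η → η ≤ 1 → η ≤ ε → ε ≤ c * (η * Real.log (2 + Real.log (1 / η))) →
    ∀ᶠ X : ℕ in atTop, ∃ D : Finset ℕ, (∀ p ∈ D, p.Prime) ∧ (#D : ℝ) ≤ η * (X / Real.log X) ∧ ∃ S : Finset ℕ, (∀ n ∈ S, X < n ∧ n ≤ 2 * X ∧ Even n ∧
      0 < #(reps n) ∧ ε * (#(reps n) : ℝ) ≤ #(repsD D n)) ∧ c * (η / ε) * X ≤ #S := by
  obtain ⟨K, hK, hfix⟩ := fixed_v
  obtain ⟨C₁, hC₁, hV1⟩ := Pool.Agent.W93.HD.Vz_log_le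
  obtain ⟨C₂, hC₂, hV2⟩ := Pool.Agent.W93.HD.Vz_inv_log
  set K₃ : ℝ := K * C₁ with hK₃
  have hK₃0 : 0 < K₃ := by positivity
  set c : ℝ := min (1 / 4) (min (1 / (2 * K₃)) (1 / (4 * C₂ * (K₃ + 2)))) with hc
  have hc0 : 0 < c := by positivity
  have hc1 : c ≤ 1 / 4 := min_le_left _ _
  have hc2 : c ≤ 1 / (2 * K₃) := (min_le_right _ _).trans (min_le_left _ _)
  have hc3 : c ≤ 1 / (4 * C₂ * (K₃ + 2)) := (min_le_right _ _).trans (min_le_right _ _)
  refine ⟨c, hc0, ?_⟩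
  intro η ε hη hη1 hηε hε
  have hε0 : 0 < ε := hη.trans_le hηε
  set L : ℝ := Real.log (1 / η) with hL
  have hL0 : 0 ≤ L := Real.log_nonneg (by rw [le_div_iff₀ hη]; linarith)
  set r : ℝ := ε / η with hr
  have hr1 : 1 ≤ r := by rw [hr, one_le_div hη]; exact hηε
  have hr0 : 0 < r := by linarith
  have hr2 : r ≤ c * Real.log (2 + L) := by
    rw [hr, div_le_iff₀ hη]
    calc ε ≤ _ := hε
      _ = _ := by ring
  have hlog0 : 0 ≤ Real.log (2 + L) := Real.log_nonneg (by linarith)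
  have hlog4 : 4 ≤ Real.log (2 + L) := by
    have : c * Real.log (2 + L) ≤ 1 / 4 * Real.log (2 + L) := mul_le_mul_of_nonneg_right hc1 hlog0
    linarith
  have hL2 : 49 ≤ 2 + L := by
    have h2 : Real.exp 4 ≤ 2 + L := by
      rw [← Real.exp_log (by linarith : 0 < 2 + L)]
      exact Real.exp_le_exp.2 hlog4
    have h3 : (49 : ℝ) ≤ Real.exp 4 := by
      have h4 : Real.exp 4 = Real.exp 1 ^ 4 := by rw [← Real.exp_nat_mul]; norm_num
      rw [h4]
      have h5 := Real.exp_one_gt_d9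
      have h6 : (2.7 : ℝ) ≤ Real.exp 1 := by linarith
      calc (49 : ℝ) ≤ 2.7 ^ 4 := by norm_num
        _ ≤ _ := pow_le_pow_left₀ (by norm_num) h6 4
    linarith
  set x : ℝ := Real.exp (K₃ * r) with hx
  have hx1 : 1 ≤ x := by rw [hx]; exact Real.one_le_exp (by positivity)
  set v : ℕ := ⌊x⌋₊ + 4 with hv
  have hv4 : 4 ≤ v := by omega
  have hvx : x ≤ v := by
    have := Nat.lt_floor_add_one x
    rw [hv]; push_cast; linarith
  have hvx2 : (v : ℝ) ≤ x + 4 := by
    have := Nat.floor_le (show 0 ≤ x by linarith)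
    rw [hv]; push_cast; linarith
  have hv0 : (0 : ℝ) < v := by linarith
  have hlogv : K₃ * r ≤ Real.log v := by
    rw [Real.le_log_iff_exp_le hv0]; exact hvx
  have hlogv0 : 0 < Real.log v := lt_of_lt_of_le (by positivity) hlogv
  have hlogv2 : Real.log v ≤ (K₃ + 2) * r := by
    have h1 : (v : ℝ) ≤ Real.exp (K₃ * r + 2) := by
      rw [Real.exp_add]
      have h2 : (5 : ℝ) ≤ Real.exp 2 := by
        have h4 : Real.exp 2 = Real.exp 1 ^ 2 := by rw [← Real.exp_nat_mul]; norm_num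
        rw [h4]
        have h5 := Real.exp_one_gt_d9
        nlinarith
      rw [← hx]
      nlinarith
    have h2 := Real.log_le_log hv0 h1
    rw [Real.log_exp] at h2
    nlinarith
  have hφ : η * (PM v).totient ≤ 1 := by
    have h1 : ((PM v).totient : ℝ) ≤ (4 : ℝ) ^ v := by
      have : (PM v).totient ≤ 4 ^ v := (Nat.totient_le _).trans (PM_le v)
      exact_mod_cast this
    have hl4 : Real.log 4 ≤ 1.4 := by
      have : Real.log 4 = 2 * Real.log 2 := by
        rw [show (4 : ℝ) = 2 ^ 2 by norm_num, Real.log_pow]; norm_num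
      rw [this]
      have := Real.log_two_lt_d9
      linarith
    have hl40 : 0 ≤ Real.log 4 := Real.log_nonneg (by norm_num)
    have h2 : x ≤ Real.sqrt (2 + L) := by
      have h3 : K₃ * r ≤ 1 / 2 * Real.log (2 + L) := by
        calc K₃ * r ≤ K₃ * (c * Real.log (2 + L)) := mul_le_mul_of_nonneg_left hr2 hK₃0.le
          _ ≤ K₃ * (1 / (2 * K₃) * Real.log (2 + L)) := by
            apply mul_le_mul_of_nonneg_left _ hK₃0.le
            exact mul_le_mul_of_nonneg_right hc2 hlog0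
          _ = _ := by field_simp
      rw [hx, Real.sqrt_eq_rpow, Real.rpow_def_of_pos (by linarith)]
      apply Real.exp_le_exp.2
      linarith
    have h3 : Real.sqrt (2 + L) ≤ (2 + L) / 7 := by
      rw [Real.sqrt_le_left (by linarith)]
      nlinarith
    have h4 : (v : ℝ) * Real.log 4 ≤ L := by
      have h5 : (v : ℝ) ≤ (2 + L) / 7 + 4 := by linarith
      have h6 : (v : ℝ) * Real.log 4 ≤ ((2 + L) / 7 + 4) * 1.4 := mul_le_mul h5 hl4 hl40 (by linarith)
      linarith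
    have h5 : (4 : ℝ) ^ v ≤ 1 / η := by
      have h6 : Real.log ((4 : ℝ) ^ v) ≤ Real.log (1 / η) := by
        rw [Real.log_pow]; exact h4
      exact (Real.log_le_log_iff (by positivity) (by positivity)).1 h6
    calc η * (PM v).totient ≤ η * (1 / η) := mul_le_mul_of_nonneg_left (h1.trans h5) hη.le
      _ = 1 := by field_simp
  have hV := Vz_pos v
  have hs1 : ε ≤ η / (K * Vz v) := by
    rw [le_div_iff₀ (by positivity)]
    have h1 := hV1 v (by omega)
    have h2 : Vz v * (K₃ * r) ≤ C₁ := (mul_le_mul_of_nonneg_left hlogv hV.le).trans h1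
    have h3 : Vz v * (K * r) ≤ 1 := by
      have : (Vz v * (K * r)) * C₁ ≤ 1 * C₁ := by
        rw [one_mul]
        calc (Vz v * (K * r)) * C₁ = Vz v * (K₃ * r) := by rw [hK₃]; ring
          _ ≤ _ := h2
      exact le_of_mul_le_mul_right this (by linarith)
    have h4 : ε = r * η := by rw [hr]; field_simp
    rw [h4]
    nlinarith
  have hs2 : c * (η / ε) ≤ Vz v / 4 := by
    have h1 := hV2 v (by omega)
    have h2 : 1 ≤ Vz v * (C₂ * Real.log v) := by
      have := mul_le_mul_of_nonneg_left h1 hV.le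
      rwa [mul_inv_cancel₀ hV.ne'] at this
    have h3 : 1 ≤ Vz v * (C₂ * ((K₃ + 2) * r)) := by
      refine h2.trans (mul_le_mul_of_nonneg_left ?_ hV.le)
      exact mul_le_mul_of_nonneg_left hlogv2 (by linarith)
    have h4 : η / ε = 1 / r := by rw [hr, one_div_div]
    rw [h4]
    calc c * (1 / r) ≤ 1 / (4 * C₂ * (K₃ + 2)) * (1 / r) := mul_le_mul_of_nonneg_right hc3 (by positivity)
      _ = 1 / (4 * (C₂ * ((K₃ + 2) * r))) := by field_simp
      _ ≤ _ := by
        rw [div_le_iff₀ (by positivity)]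
        linarith
  filter_upwards [hfix v hv4 η hη hφ] with X hX
  obtain ⟨D, hD1, hD2, S, hS1, hS2⟩ := hX
  refine ⟨D, hD1, hD2, S, ?_, ?_⟩
  · intro n hn
    obtain ⟨k1, k2, k3, k4, k5⟩ := hS1 n hn
    exact ⟨k1, k2, k3, k4, (mul_le_mul_of_nonneg_right hs1 (Nat.cast_nonneg _)).trans k5⟩
  · exact (mul_le_mul_of_nonneg_right hs2 (Nat.cast_nonneg _)).trans hS2

end Pool.Agent.W5h22.GS
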